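import Mathlib

set_option autoImplicit false
set_option linter.unusedSectionVars false

/-!
# The apolar pairing and the polarisation of a form
-/

namespace Pool.Agent.K7.H32.ME

open MvPolynomial

section
variable {σ : Type} [Fintype σ] [DecidableEq σ]

/-- multi-factorial -/
noncomputable def mf (α : σ →₀ ℕ) : ℂ := ∏ v, ((α v).factorial : ℂ)

lemma mf_add (α : σ →₀ ℕ) (v : σ) :
    mf (α + Finsupp.single v 1) = ((α v : ℂ) + 1) * mf α := by
  unfold mf
  rw [← Finset.mul_prod_erase _ _ (Finset.mem_univ v),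
    ← Finset.mul_prod_erase (Finset.univ : Finset σ) (fun v => ((α v).factorial : ℂ))
      (Finset.mem_univ v), ← mul_assoc]
  congr 1
  · rw [Finsupp.add_apply, Finsupp.single_eq_same, Nat.factorial_succ]
    push_cast
    ring
  · refine Finset.prod_congr rfl fun w hw => ?_
    rw [Finsupp.add_apply, Finsupp.single_apply, if_neg (Ne.symm (Finset.ne_of_mem_erase hw)),
      add_zero]

/-- the pairing -/
noncomputable def La (g : MvPolynomial σ ℂ) : MvPolynomial σ ℂ →ₗ[ℂ] ℂ :=
  (basisMonomials σ ℂ).constr ℂ (fun α => mf α * coeff α g)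

lemma La_monomial (g : MvPolynomial σ ℂ) (α : σ →₀ ℕ) (c : ℂ) :
    La g (monomial α c) = c * (mf α * coeff α g) := by
  have h : (monomial α c : MvPolynomial σ ℂ) = c • basisMonomials σ ℂ α := by
    rw [coe_basisMonomials, smul_monomial, smul_eq_mul, mul_one]
  rw [h, map_smul, La, Module.Basis.constr_basis, smul_eq_mul]

lemma La_X_mul (g : MvPolynomial σ ℂ) (v : σ) (p : MvPolynomial σ ℂ) :
    La g (X v * p) = La (pderiv v g) p := by
  induction p using MvPolynomial.induction_on' with
  | add p q hp hq => rw [mul_add, map_add, map_add, hp, hq]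
  | monomial α c =>
    rw [X, monomial_mul, one_mul, La_monomial, La_monomial, coeff_pderiv, add_comm, mf_add]
    ring

lemma La_pderiv (g : MvPolynomial σ ℂ) (v : σ) (p : MvPolynomial σ ℂ) :
    La g (pderiv v p) = La (X v * g) p := by
  induction p using MvPolynomial.induction_on' with
  | add p q hp hq => rw [map_add, map_add, map_add, hp, hq]
  | monomial α c =>
    rw [pderiv_monomial, La_monomial, La_monomial, coeff_X_mul']
    by_cases h : α v = 0
    · rw [if_neg (by rwa [Finsupp.mem_support_iff, not_not]), h]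
      simp
    · rw [if_pos (Finsupp.mem_support_iff.2 h)]
      have e : α = (α - Finsupp.single v 1) + Finsupp.single v 1 :=
        (Finsupp.sub_add_single_one_cancel h).symm
      have e2 : mf α = (α v : ℂ) * mf (α - Finsupp.single v 1) := by
        conv_lhs => rw [e]
        rw [mf_add]
        congr 1
        have : (α - Finsupp.single v 1 : σ →₀ ℕ) v = α v - 1 := by simp
        rw [this]
        have h1 : 1 ≤ α v := Nat.one_le_iff_ne_zero.2 h
        rw [Nat.cast_sub h1]
        ring
      rw [e2]
      ring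

lemma La_one (g : MvPolynomial σ ℂ) : La g 1 = coeff 0 g := by
  have h : (1 : MvPolynomial σ ℂ) = monomial 0 1 := rfl
  rw [h, La_monomial, mf]
  simp

/-- polarisation and restitution -/
theorem restitution (d : ℕ) : ∀ g : MvPolynomial σ ℂ, g.IsHomogeneous d →
    ∑ v : Fin d → σ, La g (∏ s, X (v s)) • (∏ s, X (v s) : MvPolynomial σ ℂ) =
      ((d.factorial : ℕ) : ℂ) • g := by
  induction d with
  | zero =>
    intro g hg
    have h1 : g = C (coeff 0 g) := by
      rw [← totalDegree_zero_iff_isHomogeneous, totalDegree_eq_zero_iff_eq_C] at hg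
      exact hg
    rw [Fintype.sum_unique]
    simp only [Finset.univ_eq_empty, Finset.prod_empty, La_one, Nat.factorial_zero, Nat.cast_one,
      one_smul]
    conv_rhs => rw [h1]
    rw [← C_mul', mul_one]
  | succ d ih =>
    intro g hg
    rw [← Fintype.sum_equiv (Fin.insertNthEquiv (fun _ => σ) 0)
      (fun x : σ × (Fin d → σ) => La g (∏ s, X ((Fin.insertNthEquiv (fun _ => σ) 0 x) s)) •
        (∏ s, X ((Fin.insertNthEquiv (fun _ => σ) 0 x) s) : MvPolynomial σ ℂ)) _ (fun _ => rfl),
      Fintype.sum_prod_type]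
    have h1 : ∀ (v₀ : σ) (v : Fin d → σ),
        (∏ s, X ((Fin.insertNthEquiv (fun _ => σ) 0 (v₀, v)) s) : MvPolynomial σ ℂ) =
          X v₀ * ∏ s, X (v s) := by
      intro v₀ v
      rw [Fin.prod_univ_succ]
      rfl
    simp only [h1, La_X_mul]
    have h2 : ∀ v₀ : σ, ∑ v : Fin d → σ, La (pderiv v₀ g) (∏ s, X (v s)) •
        (X v₀ * ∏ s, X (v s) : MvPolynomial σ ℂ) =
          ((d.factorial : ℕ) : ℂ) • (X v₀ * pderiv v₀ g) := by
      intro v₀
      have h3 := ih (pderiv v₀ g) (by simpa using hg.pderiv (i := v₀))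
      rw [← mul_smul_comm, ← h3, Finset.mul_sum]
      refine Finset.sum_congr rfl fun v _ => ?_
      rw [mul_smul_comm]
    simp only [h2]
    rw [← Finset.smul_sum, hg.sum_X_mul_pderiv, Nat.factorial_succ]
    push_cast
    rw [← Nat.cast_smul_eq_nsmul ℂ, smul_smul]
    push_cast
    rw [mul_comm]

end

end Pool.Agent.K7.H32.ME
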