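import Pool.Agent.K7.H32.ME.Defs

set_option autoImplicit false

/-!
# Calculus rules for the operators on `P_{n,m}`
-/

namespace Pool.Agent.K7.H32.ME

open Matrix Topology
open scoped ContDiff

variable {n m : ℕ}

lemma pd_apply (i : Idx n m) (f : Cinf n m) (x : Pnm n m) :
    (pd i f : Pnm n m → ℂ) x = fderiv ℝ (ext (f : Pnm n m → ℂ)) x (Pi.single i 1) := rfl

lemma pd_mul (i : Idx n m) (f g : Cinf n m) : pd i (f * g) = f * pd i g + g * pd i f := by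
  ext x
  show fderiv ℝ (ext ((f : Pnm n m → ℂ) * (g : Pnm n m → ℂ))) x (Pi.single i 1) =
    (f : Pnm n m → ℂ) x * fderiv ℝ (ext (g : Pnm n m → ℂ)) x (Pi.single i 1) +
      (g : Pnm n m → ℂ) x * fderiv ℝ (ext (f : Pnm n m → ℂ)) x (Pi.single i 1)
  rw [ext_mul, fderiv_mul (Cinf_diff f x.2) (Cinf_diff g x.2), ext_mem _ x.2, ext_mem _ x.2]
  rfl

lemma pd_comm (i j : Idx n m) : (pd i : Module.End ℂ (Cinf n m)) * pd j = pd j * pd i := by
  have key : ∀ (i j : Idx n m) (f : Cinf n m) (x : Pnm n m),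
      (pd i (pd j f) : Pnm n m → ℂ) x =
        fderiv ℝ (fderiv ℝ (ext (f : Pnm n m → ℂ))) x (Pi.single i 1) (Pi.single j 1) := by
    intro i j f x
    rw [pd_apply]
    have h1 : ext (pd j f : Pnm n m → ℂ) =ᶠ[𝓝 (x : Idx n m → ℝ)]
        fun y => fderiv ℝ (ext (f : Pnm n m → ℂ)) y (Pi.single j 1) :=
      ext_eventually (F := fun y => fderiv ℝ (ext (f : Pnm n m → ℂ)) y (Pi.single j 1))
        (fun _ => rfl) x.2
    rw [h1.fderiv_eq]
    have h2 : DifferentiableAt ℝ (fderiv ℝ (ext (f : Pnm n m → ℂ))) (x : Idx n m → ℝ) := by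
      have h3 : ContDiffOn ℝ ∞ (fderiv ℝ (ext (f : Pnm n m → ℂ))) (Pnm n m) :=
        (Cinf_smooth f).fderiv_of_isOpen isOpen_Pnm (by simp)
      exact (h3.contDiffAt (isOpen_Pnm.mem_nhds x.2)).differentiableAt (by simp)
    have h4 := h2.hasFDerivAt.clm_apply (hasFDerivAt_const (Pi.single j (1 : ℝ)) (x : Idx n m → ℝ))
    rw [h4.fderiv]
    simp
  ext f x
  show (pd i (pd j f) : Pnm n m → ℂ) x = (pd j (pd i f) : Pnm n m → ℂ) x
  rw [key, key]
  have h := (Cinf_at f x.2).isSymmSndFDerivAt (by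
    rw [minSmoothness_of_isRCLikeNormedField]
    exact WithTop.coe_le_coe.2 (le_top : (2 : ℕ∞) ≤ ⊤))
  exact h _ _

lemma pd_C (i : Idx n m) (c : ℂ) : pd i (algebraMap ℂ (Cinf n m) c) = 0 := by
  have h : algebraMap ℂ (Cinf n m) c = c • 1 := Algebra.algebraMap_eq_smul_one c
  rw [h, map_smul]
  have h1 : pd i (1 : Cinf n m) = 0 := by
    have h2 := pd_mul i (1 : Cinf n m) 1
    rw [one_mul, one_mul] at h2
    have h3 : pd i (1 : Cinf n m) + pd i (1 : Cinf n m) = pd i (1 : Cinf n m) + 0 := by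
      rw [← h2, add_zero]
    exact add_left_cancel h3
  rw [h1, smul_zero]

lemma pd_cX (i j : Idx n m) : pd i (cX j) = if j = i then (1 : Cinf n m) else 0 := by
  ext x
  rw [pd_apply]
  have h1 : ext (cX j : Pnm n m → ℂ) =ᶠ[𝓝 (x : Idx n m → ℝ)]
      fun y => ((y j : ℝ) : ℂ) :=
    ext_eventually (F := fun y => ((y j : ℝ) : ℂ)) (fun _ => rfl) x.2
  rw [h1.fderiv_eq]
  have h2 : HasFDerivAt (fun y : Idx n m → ℝ => ((y j : ℝ) : ℂ))
      (Complex.ofRealCLM.comp (ContinuousLinearMap.proj j)) (x : Idx n m → ℝ) :=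
    (Complex.ofRealCLM.comp (ContinuousLinearMap.proj (R := ℝ) (φ := fun _ : Idx n m => ℝ) j)).hasFDerivAt
  rw [h2.fderiv]
  show ((Pi.single i (1 : ℝ) : Idx n m → ℝ) j : ℂ) = _
  rw [Pi.single_apply]
  split_ifs
  · exact Complex.ofReal_one
  · exact Complex.ofReal_zero

/-! ### the linear part of the action -/

/-- the linear part -/
def lin (A : Matrix (Fin n) (Fin n) ℝ) (x : Idx n m → ℝ) : Idx n m → ℝ :=
  mk (A * yM x * Aᵀ) (vM x * Aᵀ)

lemma yM_add (x y : Idx n m → ℝ) : yM (x + y) = yM x + yM y := rfl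
lemma vM_add (x y : Idx n m → ℝ) : vM (x + y) = vM x + vM y := rfl
lemma yM_smul (c : ℝ) (x : Idx n m → ℝ) : yM (c • x) = c • yM x := rfl
lemma vM_smul (c : ℝ) (x : Idx n m → ℝ) : vM (c • x) = c • vM x := rfl

lemma mk_add (Y Y' : Matrix (Fin n) (Fin n) ℝ) (V V' : Matrix (Fin m) (Fin n) ℝ) :
    mk (Y + Y') (V + V') = mk Y V + mk Y' V' := by
  funext i
  rcases i with s | p <;> rfl

lemma mk_smul (c : ℝ) (Y : Matrix (Fin n) (Fin n) ℝ) (V : Matrix (Fin m) (Fin n) ℝ) :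
    mk (c • Y) (c • V) = c • mk Y V := by
  funext i
  rcases i with s | p <;> rfl

/-- the linear part as a linear map -/
def linL (A : Matrix (Fin n) (Fin n) ℝ) : (Idx n m → ℝ) →ₗ[ℝ] (Idx n m → ℝ) where
  toFun := lin A
  map_add' x y := by
    rw [lin, yM_add, vM_add, Matrix.mul_add, Matrix.add_mul, Matrix.add_mul, mk_add]
    rfl
  map_smul' c x := by
    rw [lin, yM_smul, vM_smul, Matrix.mul_smul, Matrix.smul_mul, Matrix.smul_mul, mk_smul]
    rfl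

lemma aff_eq (A : Matrix (Fin n) (Fin n) ℝ) (a : Matrix (Fin m) (Fin n) ℝ) (x : Idx n m → ℝ) :
    aff A a x = lin A x + mk 0 (a * Aᵀ) := by
  rw [aff, lin, ← mk_add, add_zero, Matrix.add_mul]

lemma aff_hasFDerivAt (A : Matrix (Fin n) (Fin n) ℝ) (a : Matrix (Fin m) (Fin n) ℝ)
    (x : Idx n m → ℝ) : HasFDerivAt (aff A a) (LinearMap.toContinuousLinearMap (linL A)) x := by
  have h : (aff A a : (Idx n m → ℝ) → (Idx n m → ℝ)) =
      fun x => LinearMap.toContinuousLinearMap (linL A) x + mk 0 (a * Aᵀ) := by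
    funext x
    exact aff_eq A a x
  rw [h]
  exact (LinearMap.toContinuousLinearMap (linL A)).hasFDerivAt.add_const _

lemma pd_pull (A : GL (Fin n) ℝ) (a : Matrix (Fin m) (Fin n) ℝ) (i : Idx n m) (f : Cinf n m) :
    pd i (pull A a f) = ∑ j, ((lin (A : Matrix (Fin n) (Fin n) ℝ) (Pi.single i 1) j : ℝ) : ℂ) •
      pull A a (pd j f) := by
  ext x
  have hs : ((∑ j, ((lin (A : Matrix (Fin n) (Fin n) ℝ) (Pi.single i 1) j : ℝ) : ℂ) •
      pull A a (pd j f) : Cinf n m) : Pnm n m → ℂ) x =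
      ∑ j, ((lin (A : Matrix (Fin n) (Fin n) ℝ) (Pi.single i 1) j : ℝ) : ℂ) *
        fderiv ℝ (ext (f : Pnm n m → ℂ)) (aff (A : Matrix (Fin n) (Fin n) ℝ) a x)
          (Pi.single j 1) := by
    rw [AddSubmonoidClass.coe_finsetSum, Finset.sum_apply]
    rfl
  rw [hs, pd_apply]
  have h1 : ext (pull A a f : Pnm n m → ℂ) =ᶠ[𝓝 (x : Idx n m → ℝ)]
      (ext (f : Pnm n m → ℂ) ∘ aff (A : Matrix (Fin n) (Fin n) ℝ) a) :=
    ext_eventually (fun y => ext_comp A a _ y) x.2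
  rw [h1.fderiv_eq]
  have h2 : HasFDerivAt (ext (f : Pnm n m → ℂ))
      (fderiv ℝ (ext (f : Pnm n m → ℂ)) (aff (A : Matrix (Fin n) (Fin n) ℝ) a x))
      (aff (A : Matrix (Fin n) (Fin n) ℝ) a x) :=
    (Cinf_diff f (aff_mem A a x.2)).hasFDerivAt
  rw [(h2.comp (x : Idx n m → ℝ) (aff_hasFDerivAt _ a x)).fderiv]
  show fderiv ℝ (ext (f : Pnm n m → ℂ)) (aff (A : Matrix (Fin n) (Fin n) ℝ) a x)
    (lin (A : Matrix (Fin n) (Fin n) ℝ) (Pi.single i 1)) = _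
  conv_lhs => rw [pi_eq_sum_univ' (lin (A : Matrix (Fin n) (Fin n) ℝ) (Pi.single i 1)), map_sum]
  refine Finset.sum_congr rfl fun j _ => ?_
  rw [map_smul, Complex.real_smul]

lemma pd_mul_pull (A : GL (Fin n) ℝ) (a : Matrix (Fin m) (Fin n) ℝ) (i : Idx n m) :
    pd i * pull A a = ∑ j, ((lin (A : Matrix (Fin n) (Fin n) ℝ) (Pi.single i 1) j : ℝ) : ℂ) •
      (pull A a * pd j) := by
  refine LinearMap.ext fun f => ?_
  rw [Module.End.mul_apply, pd_pull, LinearMap.sum_apply]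
  rfl

lemma pull_mul_apply (A : GL (Fin n) ℝ) (a : Matrix (Fin m) (Fin n) ℝ) (f g : Cinf n m) :
    pull A a (f * g) = pull A a f * pull A a g := rfl

lemma pull_one (A : GL (Fin n) ℝ) (a : Matrix (Fin m) (Fin n) ℝ) :
    pull A a (1 : Cinf n m) = 1 := rfl

lemma mulOp_pull (A : GL (Fin n) ℝ) (a : Matrix (Fin m) (Fin n) ℝ) (f : Cinf n m) :
    mulOp (pull A a f) * pull A a = pull A a * mulOp f := rfl

lemma pull_cX (A : GL (Fin n) ℝ) (a : Matrix (Fin m) (Fin n) ℝ) (j : Idx n m) :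
    pull A a (cX j) = ∑ i, ((lin (A : Matrix (Fin n) (Fin n) ℝ) (Pi.single i 1) j : ℝ) : ℂ) • cX i +
      algebraMap ℂ (Cinf n m) ((mk (0 : Matrix (Fin n) (Fin n) ℝ)
        (a * (A : Matrix (Fin n) (Fin n) ℝ)ᵀ) j : ℝ) : ℂ) := by
  ext x
  have hs : ((∑ i, ((lin (A : Matrix (Fin n) (Fin n) ℝ) (Pi.single i 1) j : ℝ) : ℂ) • cX i :
      Cinf n m) : Pnm n m → ℂ) x =
      ∑ i, ((lin (A : Matrix (Fin n) (Fin n) ℝ) (Pi.single i 1) j : ℝ) : ℂ) *
        (((x : Idx n m → ℝ) i : ℝ) : ℂ) := by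
    rw [AddSubmonoidClass.coe_finsetSum, Finset.sum_apply]
    rfl
  show ((aff (A : Matrix (Fin n) (Fin n) ℝ) a x j : ℝ) : ℂ) =
    ((∑ i, ((lin (A : Matrix (Fin n) (Fin n) ℝ) (Pi.single i 1) j : ℝ) : ℂ) • cX i :
      Cinf n m) : Pnm n m → ℂ) x + ((mk (0 : Matrix (Fin n) (Fin n) ℝ)
        (a * (A : Matrix (Fin n) (Fin n) ℝ)ᵀ) j : ℝ) : ℂ)
  rw [hs, aff_eq, Pi.add_apply, Complex.ofReal_add]
  congr 1
  have h1 : lin (A : Matrix (Fin n) (Fin n) ℝ) (x : Idx n m → ℝ) =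
      ∑ i, (x : Idx n m → ℝ) i • lin (A : Matrix (Fin n) (Fin n) ℝ) (Pi.single i 1) := by
    show linL (A : Matrix (Fin n) (Fin n) ℝ) (x : Idx n m → ℝ) = _
    conv_lhs => rw [pi_eq_sum_univ' (x : Idx n m → ℝ), map_sum]
    refine Finset.sum_congr rfl fun i _ => ?_
    rw [map_smul]
    show (x : Idx n m → ℝ) i • lin _ _ = _
    congr 2
  rw [h1, Finset.sum_apply, Complex.ofReal_sum]
  refine Finset.sum_congr rfl fun i _ => ?_
  rw [Pi.smul_apply, smul_eq_mul, Complex.ofReal_mul, mul_comm]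

end Pool.Agent.K7.H32.ME
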