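import Pool.Agent.K7.H32.ME.Gener

set_option autoImplicit false
set_option linter.unusedSectionVars false

/-!
# Covariance of operator matrices
-/

namespace Pool.Agent.K7.H32.ME

open Matrix

section gen
variable {E : Type} [Semiring E] [Algebra ℂ E]
variable {κ μ ν : Type} [Fintype κ] [Fintype μ] [Fintype ν] [DecidableEq κ] [DecidableEq μ]
  [DecidableEq ν]

/-- a scalar matrix as an operator matrix -/
def cM (E : Type) [Semiring E] [Algebra ℂ E] (L : Matrix κ μ ℂ) : Matrix κ μ E :=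
  L.map (algebraMap ℂ E)

lemma cM_mul (L : Matrix κ μ ℂ) (L' : Matrix μ ν ℂ) : cM E (L * L') = cM E L * cM E L' :=
  Matrix.map_mul

lemma cM_one : cM E (1 : Matrix κ κ ℂ) = 1 :=
  Matrix.map_one _ (map_zero _) (map_one _)

lemma cM_comm (G : E) (L : Matrix κ μ ℂ) :
    cM E L * diagonal (fun _ : μ => G) = diagonal (fun _ : κ => G) * cM E L := by
  ext1 i j
  rw [mul_diagonal, diagonal_mul]
  exact Algebra.commutes _ _

/-- the transformation rule of an operator matrix -/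
def Cov (G : E) (L : Matrix κ κ ℂ) (M : Matrix κ μ E) (R : Matrix μ μ ℂ) : Prop :=
  M * diagonal (fun _ : μ => G) = cM E L * (diagonal (fun _ : κ => G) * M) * cM E R

lemma cov_of_entries {G : E} {L : Matrix κ κ ℂ} {M : Matrix κ μ E} {R : Matrix μ μ ℂ}
    (h : ∀ i j, M i j * G = ∑ a, ∑ b, (L i a * R b j) • (G * M a b)) : Cov G L M R := by
  ext1 i j
  rw [mul_diagonal, h, mul_apply]
  simp only [mul_apply (M := cM E L), diagonal_mul, Finset.sum_mul]
  rw [Finset.sum_comm]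
  refine Finset.sum_congr rfl fun b _ => Finset.sum_congr rfl fun a _ => ?_
  show _ = algebraMap ℂ E (L i a) * (G * M a b) * algebraMap ℂ E (R b j)
  rw [← Algebra.commutes, ← mul_assoc, ← map_mul, Algebra.smul_def, mul_comm (R b j)]

lemma cov_mul {G : E} {L : Matrix κ κ ℂ} {M : Matrix κ μ E} {R L' : Matrix μ μ ℂ}
    {N : Matrix μ ν E} {R' : Matrix ν ν ℂ} (h1 : Cov G L M R) (h2 : Cov G L' N R')
    (h : R * L' = 1) : Cov G L (M * N) R' := by
  unfold Cov at h1 h2 ⊢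
  rw [Matrix.mul_assoc, h2, ← Matrix.mul_assoc, ← Matrix.mul_assoc, ← Matrix.mul_assoc,
    Matrix.mul_assoc M, cM_comm, ← Matrix.mul_assoc, h1, Matrix.mul_assoc _ (cM E R),
    ← cM_mul, h, cM_one, Matrix.mul_one, ← Matrix.mul_assoc, ← Matrix.mul_assoc,
    ← Matrix.mul_assoc]

lemma cov_pow {G : E} {L : Matrix κ κ ℂ} {M : Matrix κ κ E} {R : Matrix κ κ ℂ}
    (h1 : Cov G L M R) (h : R * L = 1) (h' : L * R = 1) (k : ℕ) : Cov G L (M ^ k) R := by
  induction k with
  | zero =>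
    unfold Cov
    rw [pow_zero, Matrix.one_mul, Matrix.mul_one, cM_comm, Matrix.mul_assoc, ← cM_mul, h', cM_one,
      Matrix.mul_one]
  | succ k ih =>
    rw [pow_succ]
    exact cov_mul ih h1 h

lemma cov_smul {G : E} {L : Matrix κ κ ℂ} {M : Matrix κ μ E} {R : Matrix μ μ ℂ} (c : ℂ)
    (h : Cov G L M R) : Cov G L (c • M) R := by
  unfold Cov at h ⊢
  rw [Matrix.smul_mul, h, Matrix.mul_smul, Matrix.mul_smul, Matrix.smul_mul]

lemma trace_conj {L R : Matrix κ κ ℂ} (h : R * L = 1) (N : Matrix κ κ E) :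
    trace (cM E L * N * cM E R) = trace N := by
  have h1 : ∀ (P : Matrix κ κ ℂ) (Q : Matrix κ κ E), trace (cM E P * Q) = trace (Q * cM E P) := by
    intro P Q
    simp only [trace, diag_apply, mul_apply]
    rw [Finset.sum_comm]
    refine Finset.sum_congr rfl fun i _ => Finset.sum_congr rfl fun j _ => ?_
    exact Algebra.commutes _ _
  rw [Matrix.mul_assoc, h1, Matrix.mul_assoc, ← cM_mul, h, cM_one, Matrix.mul_one]

lemma cov_trace {G : E} {L R : Matrix κ κ ℂ} {M : Matrix κ κ E} (h1 : Cov G L M R)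
    (h : R * L = 1) : trace M * G = G * trace M := by
  have h2 := congrArg trace h1
  rw [trace_conj h] at h2
  simp only [trace, diag_apply, mul_diagonal, diagonal_mul] at h2
  rw [trace, Finset.sum_mul, Finset.mul_sum]
  exact h2

lemma cov_one_one {G : E} {M : Matrix κ μ E} (h1 : Cov G 1 M 1) (i : κ) (j : μ) :
    M i j * G = G * M i j := by
  unfold Cov at h1
  rw [cM_one, cM_one, Matrix.one_mul, Matrix.mul_one] at h1
  have h2 := congrFun (congrFun h1 i) j
  rwa [mul_diagonal, diagonal_mul] at h2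

/-- all entries in a subalgebra -/
lemma mul_entries {S : Subalgebra ℂ E} {M : Matrix κ μ E} {N : Matrix μ ν E}
    (hM : ∀ i j, M i j ∈ S) (hN : ∀ i j, N i j ∈ S) (i : κ) (j : ν) : (M * N) i j ∈ S := by
  rw [mul_apply]
  exact S.sum_mem fun k _ => S.mul_mem (hM i k) (hN k j)

lemma pow_entries {S : Subalgebra ℂ E} {M : Matrix κ κ E}
    (hM : ∀ i j, M i j ∈ S) (k : ℕ) : ∀ i j, (M ^ k) i j ∈ S := by
  induction k with
  | zero =>
    intro i j
    rw [pow_zero, one_apply]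
    split_ifs
    · exact S.one_mem
    · exact S.zero_mem
  | succ k ih =>
    rw [pow_succ]
    exact mul_entries ih hM

end gen

variable {n m : ℕ}

/-- the complexification of a matrix -/
noncomputable def cc (A : Matrix (Fin n) (Fin n) ℝ) : Matrix (Fin n) (Fin n) ℂ :=
  A.map Complex.ofRealHom

lemma cc_mul (A B : Matrix (Fin n) (Fin n) ℝ) : cc (A * B) = cc A * cc B := Matrix.map_mul

lemma cc_one : cc (1 : Matrix (Fin n) (Fin n) ℝ) = 1 :=
  Matrix.map_one _ (map_zero _) (map_one _)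

lemma cc_t (A : Matrix (Fin n) (Fin n) ℝ) : cc Aᵀ = (cc A)ᵀ := rfl

/-- `A⁻¹` -/
noncomputable abbrev iv (A : GL (Fin n) ℝ) : Matrix (Fin n) (Fin n) ℝ :=
  ((A⁻¹ : GL (Fin n) ℝ) : Matrix (Fin n) (Fin n) ℝ)

lemma iv_mul (A : GL (Fin n) ℝ) : cc (iv A) * cc (A : Matrix (Fin n) (Fin n) ℝ) = 1 := by
  rw [← cc_mul, iv, Units.inv_mul, cc_one]

lemma mul_iv (A : GL (Fin n) ℝ) : cc (A : Matrix (Fin n) (Fin n) ℝ) * cc (iv A) = 1 := by
  rw [← cc_mul, iv, Units.mul_inv, cc_one]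

lemma ivt_mul (A : GL (Fin n) ℝ) :
    (cc (iv A))ᵀ * (cc (A : Matrix (Fin n) (Fin n) ℝ))ᵀ = 1 := by
  rw [← transpose_mul, mul_iv, transpose_one]

lemma cov_dY (A : GL (Fin n) ℝ) (a : Matrix (Fin m) (Fin n) ℝ) :
    Cov (pull A a) (cc (A : Matrix (Fin n) (Fin n) ℝ))ᵀ (opdY n m)
      (cc (A : Matrix (Fin n) (Fin n) ℝ)) :=
  cov_of_entries fun i j => opdY_pull A a i j

lemma cov_Y (A : GL (Fin n) ℝ) (a : Matrix (Fin m) (Fin n) ℝ) :
    Cov (pull A a) (cc (iv A)) (opY n m) (cc (iv A))ᵀ :=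
  cov_of_entries fun i j => opY_pull A a i j

lemma cov_V (A : GL (Fin n) ℝ) (a : Matrix (Fin m) (Fin n) ℝ) :
    Cov (pull A a) 1 (opdV n m) (cc (A : Matrix (Fin n) (Fin n) ℝ)) := by
  refine cov_of_entries fun k l => ?_
  rw [opdV_pull, Finset.sum_eq_single k]
  · refine Finset.sum_congr rfl fun c _ => ?_
    rw [one_apply_eq, one_mul]
    rfl
  · intro b _ hb
    refine Finset.sum_eq_zero fun c _ => ?_
    rw [one_apply_ne (Ne.symm hb), zero_mul, zero_smul]
  · simp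

lemma cov_Vt (A : GL (Fin n) ℝ) (a : Matrix (Fin m) (Fin n) ℝ) :
    Cov (pull A a) (cc (A : Matrix (Fin n) (Fin n) ℝ))ᵀ (opdV n m)ᵀ 1 := by
  refine cov_of_entries fun l k => ?_
  rw [transpose_apply, opdV_pull]
  refine Finset.sum_congr rfl fun c _ => ?_
  rw [Finset.sum_eq_single k]
  · rw [one_apply_eq, mul_one]
    rfl
  · intro b _ hb
    rw [one_apply_ne hb, mul_zero, zero_smul]
  · simp

lemma cov_E (A : GL (Fin n) ℝ) (a : Matrix (Fin m) (Fin n) ℝ) :
    Cov (pull A a) (cc (iv A)) (opE n m) (cc (A : Matrix (Fin n) (Fin n) ℝ)) :=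
  cov_smul 2 (cov_mul (cov_Y A a) (cov_dY A a) (ivt_mul A))

lemma opD_comm (A : GL (Fin n) ℝ) (a : Matrix (Fin m) (Fin n) ℝ) (j : ℕ) :
    opD n m j * pull A a = pull A a * opD n m j := by
  have h := cov_pow (cov_E A a) (mul_iv A) (iv_mul A) j
  rw [opD]
  exact cov_trace h (mul_iv A)

lemma opO_comm (A : GL (Fin n) ℝ) (a : Matrix (Fin m) (Fin n) ℝ) (k : ℕ) (p q : Fin m) :
    opO n m k p q * pull A a = pull A a * opO n m k p q := by
  have h1 := cov_pow (cov_E (m := m) A a) (mul_iv A) (iv_mul A) k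
  have h2 := cov_mul (cov_V A a) h1 (mul_iv A)
  have h3 := cov_mul h2 (cov_Y A a) (mul_iv A)
  have h4 := cov_mul h3 (cov_Vt A a) (ivt_mul A)
  rw [opO]
  exact cov_one_one h4 p q

lemma opY_mem (i j : Fin n) : opY n m i j ∈ DiffOp n m :=
  Algebra.subset_adjoin (Or.inl ⟨_, rfl⟩)

lemma pd_mem (i : Idx n m) : pd i ∈ DiffOp n m := Algebra.subset_adjoin (Or.inr ⟨_, rfl⟩)

lemma opdY_mem (i j : Fin n) : opdY n m i j ∈ DiffOp n m := by
  rw [opdY_apply]
  exact (DiffOp n m).smul_mem (pd_mem _) _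

lemma opE_mem (i j : Fin n) : opE n m i j ∈ DiffOp n m := by
  have h : (opY n m * opdY n m) i j ∈ DiffOp n m := mul_entries opY_mem opdY_mem i j
  rw [opE, Matrix.smul_apply]
  exact (DiffOp n m).smul_mem h 2

lemma opD_mem (j : ℕ) : opD n m j ∈ InvOp n m := by
  refine ⟨?_, fun A a => opD_comm A a j⟩
  rw [opD, trace]
  exact (DiffOp n m).sum_mem fun i _ => pow_entries opE_mem j i i

lemma opO_mem (k : ℕ) (p q : Fin m) : opO n m k p q ∈ InvOp n m := by
  refine ⟨?_, fun A a => opO_comm A a k p q⟩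
  have hV : ∀ k l, opdV n m k l ∈ DiffOp n m := fun k l => pd_mem _
  have hVt : ∀ l k, (opdV n m)ᵀ l k ∈ DiffOp n m := fun l k => pd_mem _
  have h1 := mul_entries hV (pow_entries (opE_mem (n := n) (m := m)) k)
  have h2 := mul_entries h1 (opY_mem (n := n) (m := m))
  have h3 := mul_entries h2 hVt p q
  rw [opO]
  exact h3

end Pool.Agent.K7.H32.ME
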