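import Pool.Agent.K7.H32.ME.Pol

set_option autoImplicit false
set_option linter.unusedSectionVars false

/-!
# Contraction
-/

namespace Pool.Agent.K7.H32.ME

open MvPolynomial Matrix

variable {n : ℕ} {P : Type}

/-- derivative in the first new vector -/
noncomputable def du [DecidableEq P] (i : Fin n) :
    Derivation ℂ (Rg n (Bool ⊕ P)) (Rg n (Bool ⊕ P)) :=
  dv 0 (fun q j => if q = Sum.inl false ∧ j = i then 1 else 0)

/-- derivative in the second new vector -/
noncomputable def dw [DecidableEq P] (i : Fin n) :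
    Derivation ℂ (Rg n (Bool ⊕ P)) (Rg n (Bool ⊕ P)) :=
  dv 0 (fun q j => if q = Sum.inl true ∧ j = i then 1 else 0)

section
variable [DecidableEq P]

lemma du_XM (i a b : Fin n) : du i (XM n (Bool ⊕ P) a b) = 0 := by
  rw [du, dv_XM (fun _ _ => rfl)]; rfl

lemma dw_XM (i a b : Fin n) : dw i (XM n (Bool ⊕ P) a b) = 0 := by
  rw [dw, dv_XM (fun _ _ => rfl)]; rfl

lemma du_zv (i : Fin n) (q : Bool ⊕ P) (j : Fin n) :
    du i (zv q j) = if q = Sum.inl false ∧ j = i then 1 else 0 := by
  rw [du, dv_zv]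

lemma dw_zv (i : Fin n) (q : Bool ⊕ P) (j : Fin n) :
    dw i (zv q j) = if q = Sum.inl true ∧ j = i then 1 else 0 := by
  rw [dw, dv_zv]

lemma du_sg (i : Fin n) (f : Rg n P) : du i (sg f) = 0 := by
  induction f using ind with
  | hC c =>
    rw [← MvPolynomial.algebraMap_eq, AlgHom.commutes, MvPolynomial.algebraMap_eq, der_C]
  | hadd f g hf hg => rw [map_add, map_add, hf, hg, add_zero]
  | hX f a b hf => rw [map_mul, sg_XM, der_mul, hf, du_XM, mul_zero, mul_zero, add_zero]
  | hz f p j hf =>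
    rw [map_mul, sg_zv, der_mul, hf, du_zv, if_neg (by simp), mul_zero, mul_zero, add_zero]

lemma dw_sg (i : Fin n) (f : Rg n P) : dw i (sg f) = 0 := by
  induction f using ind with
  | hC c =>
    rw [← MvPolynomial.algebraMap_eq, AlgHom.commutes, MvPolynomial.algebraMap_eq, der_C]
  | hadd f g hf hg => rw [map_add, map_add, hf, hg, add_zero]
  | hX f a b hf => rw [map_mul, sg_XM, der_mul, hf, dw_XM, mul_zero, mul_zero, add_zero]
  | hz f p j hf =>
    rw [map_mul, sg_zv, der_mul, hf, dw_zv, if_neg (by simp), mul_zero, mul_zero, add_zero]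

/-- the contraction -/
noncomputable def ct (F : Rg n (Bool ⊕ P)) : Rg n P :=
  ∑ i, ∑ j, XM n P i j * ep (dw j (du i F))

lemma ct_add (F G : Rg n (Bool ⊕ P)) : ct (F + G) = ct F + ct G := by
  simp only [ct, map_add, mul_add, Finset.sum_add_distrib]

lemma ct_zero : ct (0 : Rg n (Bool ⊕ P)) = 0 := by
  simp only [ct, map_zero, mul_zero, Finset.sum_const_zero]

lemma ct_smul (c : ℂ) (F : Rg n (Bool ⊕ P)) : ct (c • F) = c • ct F := by
  simp only [ct, der_smul, map_smul, Finset.smul_sum, mul_smul_comm]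

lemma ct_mul_sg (f : Rg n P) (F : Rg n (Bool ⊕ P)) : ct (sg f * F) = f * ct F := by
  simp only [ct, Finset.mul_sum]
  refine Finset.sum_congr rfl fun i _ => Finset.sum_congr rfl fun j _ => ?_
  rw [der_mul, du_sg, mul_zero, add_zero, der_mul, dw_sg, mul_zero, add_zero, map_mul, ep_sg]
  ring

lemma du_Wm (i a b : Fin n) : du i (Wm n P a b) =
    (if a = i then 1 else 0) * vv b + (if b = i then 1 else 0) * vv a := by
  rw [Wm_apply, map_add, der_mul, der_mul, uv, vv]
  simp only [du_zv, false_and, if_false, mul_zero, zero_add, Sum.inl.injEq,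
    Bool.true_eq_false, true_and]
  ring

lemma dw_vv (j b : Fin n) : dw j (vv b : Rg n (Bool ⊕ P)) = if b = j then 1 else 0 := by
  rw [vv, dw_zv]
  simp

lemma dw_du_Wm (i j a b : Fin n) : dw j (du i (Wm n P a b)) =
    (if a = i then 1 else 0) * (if b = j then 1 else 0) +
      (if b = i then 1 else 0) * (if a = j then 1 else 0) := by
  rw [du_Wm, map_add, der_mul, der_mul, dw_vv, dw_vv]
  have h : ∀ (p : Prop) [Decidable p], dw j (if p then (1 : Rg n (Bool ⊕ P)) else 0) = 0 := by
    intro p _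
    split_ifs
    · exact (dw j).map_one_eq_zero
    · exact map_zero _
  rw [h, h, mul_zero, mul_zero, add_zero, add_zero]

lemma ct_Wm (a b : Fin n) : ct (Wm n P a b) = 2 * XM n P a b := by
  simp only [ct, dw_du_Wm, map_add, map_mul]
  have h : ∀ (p : Prop) [Decidable p], ep (if p then (1 : Rg n (Bool ⊕ P)) else 0) =
      if p then 1 else 0 := by
    intro p _
    split_ifs
    · exact map_one _
    · exact map_zero _
  simp only [h, mul_add, Finset.sum_add_distrib, mul_ite, mul_one, mul_zero,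
    Finset.sum_ite_eq, Finset.mem_univ, if_true]
  rw [XM_symm b a]
  ring

lemma ct_Dd (f : Rg n P) : ct (Dd n P (sg f)) = 2 * Eu n P f := by
  induction f using ind with
  | hC c =>
    rw [← MvPolynomial.algebraMap_eq, AlgHom.commutes, MvPolynomial.algebraMap_eq,
      MvPolynomial.algebraMap_eq, der_C, der_C, ct_zero, mul_zero]
  | hadd f g hf hg => rw [map_add, map_add, map_add, ct_add, hf, hg, mul_add]
  | hX f a b hf =>
    rw [map_mul, der_mul, ct_add, ct_mul_sg, ct_mul_sg, hf, sg_XM, Dd_XM, ct_Wm, der_mul, Eu,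
      dv_XM XM_symm]
    ring
  | hz f p j hf =>
    rw [map_mul, der_mul, ct_add, ct_mul_sg, ct_mul_sg, hf, sg_zv, Dd_zv, ct_zero, der_mul, Eu,
      dv_zv]
    simp only [Pi.zero_apply]
    ring

/-- the vectors -/
noncomputable def Vec (n : ℕ) (P : Type) : Submodule (Alg n P) (Fin n → Rg n P) :=
  Submodule.span (Alg n P) {w | ∃ k p, w = XM n P ^ k *ᵥ zv p}

lemma vec_mem (k : ℕ) (p : P) : XM n P ^ k *ᵥ zv p ∈ Vec n P :=
  Submodule.subset_span ⟨k, p, rfl⟩

lemma vec_smul {c : Rg n P} (hc : c ∈ Alg n P) {w : Fin n → Rg n P} (hw : w ∈ Vec n P) :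
    (fun i => c * w i) ∈ Vec n P := by
  have h := (Vec n P).smul_mem (⟨c, hc⟩ : Alg n P) hw
  exact h

lemma pair_mem {v w : Fin n → Rg n P} (hv : v ∈ Vec n P) (hw : w ∈ Vec n P) :
    ∑ i, ∑ j, XM n P i j * (v i * w j) ∈ Alg n P := by
  unfold Vec at hv
  induction hv using Submodule.span_induction with
  | mem x hx =>
    obtain ⟨k, p, rfl⟩ := hx
    unfold Vec at hw
    induction hw using Submodule.span_induction with
    | mem y hy =>
      obtain ⟨l, q, rfl⟩ := hy
      have h : ∑ i, ∑ j, XM n P i j * ((XM n P ^ k *ᵥ zv p) i * (XM n P ^ l *ᵥ zv q) j) =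
          bl (k + 1 + l) p q := by
        have h1 : ∑ i, ∑ j, XM n P i j * ((XM n P ^ k *ᵥ zv p) i * (XM n P ^ l *ᵥ zv q) j) =
            (XM n P ^ k *ᵥ zv p) ⬝ᵥ (XM n P *ᵥ (XM n P ^ l *ᵥ zv q)) := by
          generalize XM n P ^ k *ᵥ zv p = v'
          generalize XM n P ^ l *ᵥ zv q = w'
          simp only [dotProduct, mulVec, Finset.mul_sum]
          refine Finset.sum_congr rfl fun i _ => Finset.sum_congr rfl fun j _ => ?_
          ring
        rw [h1, bl, pow_add, pow_succ, ← mulVec_mulVec, ← mulVec_mulVec,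
          dotProduct_mulVec (zv p) (XM n P ^ k), ← mulVec_transpose, XMp_transpose]
      rw [h]
      exact bl_mem _ _ _
    | zero => simp
    | add y z _ _ hy hz =>
      have h := (Alg n P).add_mem hy hz
      convert h using 1
      simp only [Pi.add_apply, mul_add, Finset.sum_add_distrib]
    | smul c y _ hy =>
      have h := (Alg n P).mul_mem c.2 hy
      convert h using 1
      rw [Finset.mul_sum]
      refine Finset.sum_congr rfl fun i _ => ?_
      rw [Finset.mul_sum]
      refine Finset.sum_congr rfl fun j _ => ?_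
      have e : (c • y) j = (c : Rg n P) * y j := rfl
      rw [e]
      ring
  | zero => simp
  | add y z _ _ hy hz =>
    have h := (Alg n P).add_mem hy hz
    convert h using 1
    simp only [Pi.add_apply, add_mul, mul_add, Finset.sum_add_distrib]
  | smul c y _ hy =>
    have h := (Alg n P).mul_mem c.2 hy
    convert h using 1
    rw [Finset.mul_sum]
    refine Finset.sum_congr rfl fun i _ => ?_
    rw [Finset.mul_sum]
    refine Finset.sum_congr rfl fun j _ => ?_
    have e : (c • y) i = (c : Rg n P) * y i := rfl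
    rw [e]
    ring

lemma ew_vec (k : ℕ) (q : Bool ⊕ P) : XM n P ^ k *ᵥ ew q ∈ Vec n P := by
  rcases q with b | p
  · have : (ew (Sum.inl b) : Fin n → Rg n P) = 0 := rfl
    rw [this, mulVec_zero]
    exact (Vec n P).zero_mem
  · exact vec_mem k p

lemma ew_bl (k : ℕ) (p q : Bool ⊕ P) : (ew p : Fin n → Rg n P) ⬝ᵥ (XM n P ^ k *ᵥ ew q) ∈ Alg n P := by
  rcases p with b | p
  · have : (ew (Sum.inl b) : Fin n → Rg n P) = 0 := rfl
    rw [this, zero_dotProduct]
    exact (Alg n P).zero_mem
  rcases q with b | q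
  · have : (ew (Sum.inl b) : Fin n → Rg n P) = 0 := rfl
    rw [this, mulVec_zero, dotProduct_zero]
    exact (Alg n P).zero_mem
  exact bl_mem k p q

lemma der_bl {Q : Type} (D : Derivation ℂ (Rg n Q) (Rg n Q)) (hD : ∀ i j, D (XM n Q i j) = 0)
    (k : ℕ) (p q : Q) : D (bl k p q) = (fun a => D (zv p a)) ⬝ᵥ (XM n Q ^ k *ᵥ zv q) +
      zv p ⬝ᵥ (XM n Q ^ k *ᵥ fun b => D (zv q b)) := by
  simp only [bl, dotProduct, mulVec, map_sum, Finset.mul_sum]
  rw [← Finset.sum_add_distrib]
  refine Finset.sum_congr rfl fun a _ => ?_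
  rw [← Finset.sum_add_distrib]
  refine Finset.sum_congr rfl fun b _ => ?_
  rw [der_mul, der_mul, der_XMp D hD]
  ring

lemma du_bl (i : Fin n) (k : ℕ) (p q : Bool ⊕ P) : du i (bl k p q) =
    (if p = Sum.inl false then (XM n (Bool ⊕ P) ^ k *ᵥ zv q) i else 0) +
      (if q = Sum.inl false then (XM n (Bool ⊕ P) ^ k *ᵥ zv p) i else 0) := by
  rw [der_bl _ (du_XM i)]
  have h1 : ∀ r : Bool ⊕ P, (fun a => du i (zv r a)) =
      if r = Sum.inl false then Pi.single i 1 else (0 : Fin n → Rg n (Bool ⊕ P)) := by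
    intro r
    funext a
    rw [du_zv]
    by_cases h : r = Sum.inl false
    · rw [if_pos h, Pi.single_apply]
      simp [h]
    · rw [if_neg h, if_neg (fun h' => h h'.1)]
      rfl
  rw [h1, h1]
  congr 1
  · split_ifs
    · rw [single_one_dotProduct]
    · rw [zero_dotProduct]
  · split_ifs
    · rw [dotProduct_mulVec, ← mulVec_transpose, XMp_transpose, dotProduct_single_one]
    · rw [mulVec_zero, dotProduct_zero]

lemma dw_bl (i : Fin n) (k : ℕ) (p q : Bool ⊕ P) : dw i (bl k p q) =
    (if p = Sum.inl true then (XM n (Bool ⊕ P) ^ k *ᵥ zv q) i else 0) +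
      (if q = Sum.inl true then (XM n (Bool ⊕ P) ^ k *ᵥ zv p) i else 0) := by
  rw [der_bl _ (dw_XM i)]
  have h1 : ∀ r : Bool ⊕ P, (fun a => dw i (zv r a)) =
      if r = Sum.inl true then Pi.single i 1 else (0 : Fin n → Rg n (Bool ⊕ P)) := by
    intro r
    funext a
    rw [dw_zv]
    by_cases h : r = Sum.inl true
    · rw [if_pos h, Pi.single_apply]
      simp [h]
    · rw [if_neg h, if_neg (fun h' => h h'.1)]
      rfl
  rw [h1, h1]
  congr 1
  · split_ifs
    · rw [single_one_dotProduct]
    · rw [zero_dotProduct]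
  · split_ifs
    · rw [dotProduct_mulVec, ← mulVec_transpose, XMp_transpose, dotProduct_single_one]
    · rw [mulVec_zero, dotProduct_zero]

lemma dw_mv (j : Fin n) (k : ℕ) (q : Bool ⊕ P) (i : Fin n) :
    dw j ((XM n (Bool ⊕ P) ^ k *ᵥ zv q) i) =
      if q = Sum.inl true then (XM n (Bool ⊕ P) ^ k) i j else 0 := by
  rw [mulVec, dotProduct, map_sum]
  simp only [der_mul, der_XMp _ (dw_XM j), dw_zv, mul_zero, add_zero]
  split_ifs with h
  · simp [h]
  · simp [h]

lemma ep_mv (k : ℕ) (q : Bool ⊕ P) (i : Fin n) :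
    ep ((XM n (Bool ⊕ P) ^ k *ᵥ zv q) i) = (XM n P ^ k *ᵥ ew q) i := by
  simp only [mulVec, dotProduct, map_sum, map_mul, ep_zv]
  refine Finset.sum_congr rfl fun j _ => ?_
  rw [map_XMp ep ep_XM]

lemma sum_XM_pow (k : ℕ) : ∑ i, ∑ j, XM n P i j * (XM n P ^ k) i j = trace (XM n P ^ (k + 1)) := by
  rw [pow_succ', trace]
  refine Finset.sum_congr rfl fun i _ => ?_
  rw [diag_apply, mul_apply]
  refine Finset.sum_congr rfl fun j _ => ?_
  congr 1
  conv_lhs => rw [← XMp_transpose, transpose_apply]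

theorem key (F : Rg n (Bool ⊕ P)) (hF : F ∈ Alg n (Bool ⊕ P)) :
    ep F ∈ Alg n P ∧ (fun i => ep (du i F)) ∈ Vec n P ∧ (fun i => ep (dw i F)) ∈ Vec n P ∧
      ct F ∈ Alg n P := by
  unfold Alg at hF
  induction hF using Algebra.adjoin_induction with
  | mem x hx =>
    rcases hx with ⟨j, rfl⟩ | ⟨k, p, q, rfl⟩
    · have hdu : ∀ i, du i (trace (XM n (Bool ⊕ P) ^ j)) = 0 := by
        intro i
        rw [trace, map_sum]
        exact Finset.sum_eq_zero fun a _ => der_XMp _ (du_XM i) _ _ _
      have hdw : ∀ i, dw i (trace (XM n (Bool ⊕ P) ^ j)) = 0 := by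
        intro i
        rw [trace, map_sum]
        exact Finset.sum_eq_zero fun a _ => der_XMp _ (dw_XM i) _ _ _
      refine ⟨?_, ?_, ?_, ?_⟩
      · rw [map_trace' ep ep_XM]
        exact trace_mem j
      · simp only [hdu, map_zero]
        exact (Vec n P).zero_mem
      · simp only [hdw, map_zero]
        exact (Vec n P).zero_mem
      · simp only [ct, hdu, map_zero, mul_zero, Finset.sum_const_zero]
        exact (Alg n P).zero_mem
    · refine ⟨?_, ?_, ?_, ?_⟩
      · rw [map_bl ep ep_XM ep_zv]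
        exact ew_bl k p q
      · simp only [du_bl, map_add]
        refine (Vec n P).add_mem ?_ ?_
        · split_ifs
          · simp only [ep_mv]
            exact ew_vec k q
          · simp only [map_zero]
            exact (Vec n P).zero_mem
        · split_ifs
          · simp only [ep_mv]
            exact ew_vec k p
          · simp only [map_zero]
            exact (Vec n P).zero_mem
      · simp only [dw_bl, map_add]
        refine (Vec n P).add_mem ?_ ?_
        · split_ifs
          · simp only [ep_mv]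
            exact ew_vec k q
          · simp only [map_zero]
            exact (Vec n P).zero_mem
        · split_ifs
          · simp only [ep_mv]
            exact ew_vec k p
          · simp only [map_zero]
            exact (Vec n P).zero_mem
      · have h1 : ∀ (c : Prop) [Decidable c] (q : Bool ⊕ P),
            ∑ i, ∑ j, XM n P i j * ep (dw j (if c then (XM n (Bool ⊕ P) ^ k *ᵥ zv q) i else 0)) ∈
              Alg n P := by
          intro c _ q
          split_ifs
          · simp only [dw_mv]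
            split_ifs
            · simp only [map_XMp ep ep_XM]
              rw [sum_XM_pow]
              exact trace_mem _
            · simp
          · simp
        simp only [ct, du_bl, map_add, mul_add, Finset.sum_add_distrib]
        exact (Alg n P).add_mem (h1 _ q) (h1 _ p)
  | algebraMap r =>
    have h1 : ∀ i, du i (algebraMap ℂ (Rg n (Bool ⊕ P)) r) = 0 := fun i => der_C _ _
    have h2 : ∀ i, dw i (algebraMap ℂ (Rg n (Bool ⊕ P)) r) = 0 := fun i => der_C _ _
    refine ⟨?_, ?_, ?_, ?_⟩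
    · rw [AlgHom.commutes]
      exact (Alg n P).algebraMap_mem r
    · simp only [h1, map_zero]
      exact (Vec n P).zero_mem
    · simp only [h2, map_zero]
      exact (Vec n P).zero_mem
    · simp only [ct, h1, map_zero, mul_zero, Finset.sum_const_zero]
      exact (Alg n P).zero_mem
  | add x y _ _ hx hy =>
    refine ⟨?_, ?_, ?_, ?_⟩
    · rw [map_add]; exact (Alg n P).add_mem hx.1 hy.1
    · simp only [map_add]
      exact (Vec n P).add_mem hx.2.1 hy.2.1
    · simp only [map_add]
      exact (Vec n P).add_mem hx.2.2.1 hy.2.2.1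
    · rw [ct_add]; exact (Alg n P).add_mem hx.2.2.2 hy.2.2.2
  | mul x y _ _ hx hy =>
    refine ⟨?_, ?_, ?_, ?_⟩
    · rw [map_mul]; exact (Alg n P).mul_mem hx.1 hy.1
    · simp only [der_mul, map_add, map_mul]
      exact (Vec n P).add_mem (vec_smul hx.1 hy.2.1) (vec_smul hy.1 hx.2.1)
    · simp only [der_mul, map_add, map_mul]
      exact (Vec n P).add_mem (vec_smul hx.1 hy.2.2.1) (vec_smul hy.1 hx.2.2.1)
    · have h : ct (x * y) = ep x * ct y + ep y * ct x +
          ∑ i, ∑ j, XM n P i j * (ep (du i x) * ep (dw j y)) +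
          ∑ i, ∑ j, XM n P i j * (ep (du i y) * ep (dw j x)) := by
        simp only [ct, Finset.mul_sum, ← Finset.sum_add_distrib]
        refine Finset.sum_congr rfl fun i _ => Finset.sum_congr rfl fun j _ => ?_
        rw [der_mul, map_add, der_mul, der_mul]
        simp only [map_add, map_mul]
        ring
      rw [h]
      exact (Alg n P).add_mem ((Alg n P).add_mem ((Alg n P).add_mem
        ((Alg n P).mul_mem hx.1 hy.2.2.2) ((Alg n P).mul_mem hy.1 hx.2.2.2))
        (pair_mem hx.2.1 hy.2.2.1)) (pair_mem hy.2.1 hx.2.2.1)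

end

/-- the real orthogonal matrices -/
def Orth (n : ℕ) : Set (Matrix (Fin n) (Fin n) ℂ) :=
  {k | ∃ k₀ : Matrix (Fin n) (Fin n) ℝ, k₀ᵀ * k₀ = 1 ∧ k = k₀.map (fun x : ℝ => (x : ℂ))}

/-- induction on the degree in the matrix -/
theorem fft_step (hbase : ∀ (P : Type) [Fintype P] [DecidableEq P] (f : Rg n P),
      (∀ a, cmp a f = if a = 0 then f else 0) → (∀ k ∈ Orth n, ph k f = f) → f ∈ Alg n P) :
    ∀ (a : ℕ) (P : Type) [Fintype P] [DecidableEq P] (f : Rg n P),
      (∀ b, cmp b f = if b = a then f else 0) → (∀ k ∈ Orth n, ph k f = f) → f ∈ Alg n P := by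
  intro a
  induction a with
  | zero => exact hbase
  | succ a ih =>
    intro P _ _ f hf hk
    have h1 := ih (Bool ⊕ P) (Dd n P (sg f)) (by
        intro b
        rw [cmp_Dd, cmp_sg, hf]
        by_cases hb : b = a
        · rw [if_pos hb, if_pos (by omega)]
        · rw [if_neg hb, if_neg (by omega), map_zero, map_zero]) (by
        intro k hk'
        rw [ph_Dd, ph_sg, hk k hk'])
    have h2 := (key _ h1).2.2.2
    rw [ct_Dd] at h2
    have h3 : Eu n P f = ((a + 1 : ℕ) : Rg n P) * f := by
      have h4 := Eu_cmp f (a + 1)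
      rw [hf, if_pos rfl] at h4
      exact h4
    rw [h3] at h2
    have h5 : (2 : Rg n P) * (((a + 1 : ℕ) : Rg n P) * f) = ((2 * (a + 1) : ℕ) : ℂ) • f := by
      rw [Algebra.smul_def, map_natCast]
      push_cast
      ring
    rw [h5] at h2
    have h6 := (Alg n P).smul_mem h2 (((2 * (a + 1) : ℕ) : ℂ)⁻¹)
    rwa [smul_smul, inv_mul_cancel₀ (by exact_mod_cast (show 2 * (a + 1) ≠ 0 by omega)),
      one_smul] at h6

/-- all degrees -/
theorem fft_all (hbase : ∀ (P : Type) [Fintype P] [DecidableEq P] (f : Rg n P),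
      (∀ a, cmp a f = if a = 0 then f else 0) → (∀ k ∈ Orth n, ph k f = f) → f ∈ Alg n P)
    (P : Type) [Fintype P] [DecidableEq P] (f : Rg n P)
    (hf : ∀ k ∈ Orth n, ph k f = f) : f ∈ Alg n P := by
  obtain ⟨N, hN⟩ := sum_cmp f
  rw [← hN]
  refine (Alg n P).sum_mem fun a _ => ?_
  refine fft_step hbase a P (cmp a f) (fun b => cmp_cmp f a b) fun k hk => ?_
  rw [ph_cmp, hf k hk]

end Pool.Agent.K7.H32.ME
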