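import Mathlib

set_option autoImplicit false

/-!
# Invariant differential operators on the Minkowski-Euclid space: definitions
-/

namespace Pool.Agent.K7.H32.ME

open Matrix Topology
open scoped ContDiff

/-- the index set of the coordinates `y_{ij} = y_{ji}` and `v_{kl}` -/
abbrev Idx (n m : ℕ) := Sym2 (Fin n) ⊕ (Fin m × Fin n)

section space
variable {n m : ℕ}

/-- the symmetric matrix `Y` of a coordinate vector -/
def yM (x : Idx n m → ℝ) : Matrix (Fin n) (Fin n) ℝ := Matrix.of fun i j => x (Sum.inl s(i, j))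

/-- the matrix `V` of a coordinate vector -/
def vM (x : Idx n m → ℝ) : Matrix (Fin m) (Fin n) ℝ := Matrix.of fun k l => x (Sum.inr (k, l))

/-- the coordinate vector of a pair `(Y, V)`, `Y` symmetric -/
def mk (Y : Matrix (Fin n) (Fin n) ℝ) (V : Matrix (Fin m) (Fin n) ℝ) : Idx n m → ℝ :=
  Sum.elim (fun s => Y s.inf s.sup) (fun p => V p.1 p.2)

lemma mk_inl (Y : Matrix (Fin n) (Fin n) ℝ) (V : Matrix (Fin m) (Fin n) ℝ)
    (hY : ∀ i j, Y i j = Y j i) (i j : Fin n) : mk Y V (Sum.inl s(i, j)) = Y i j := by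
  show Y (s(i, j)).inf (s(i, j)).sup = Y i j
  rw [Sym2.inf_mk, Sym2.sup_mk]
  rcases le_total i j with h | h
  · rw [inf_eq_left.2 h, sup_eq_right.2 h]
  · rw [inf_eq_right.2 h, sup_eq_left.2 h, hY]

lemma mk_inr (Y : Matrix (Fin n) (Fin n) ℝ) (V : Matrix (Fin m) (Fin n) ℝ) (k : Fin m)
    (l : Fin n) : mk Y V (Sum.inr (k, l)) = V k l := rfl

lemma yM_symm (x : Idx n m → ℝ) (i j : Fin n) : yM x i j = yM x j i := by
  show x (Sum.inl s(i, j)) = x (Sum.inl s(j, i))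
  rw [Sym2.eq_swap]

lemma yM_mk {Y : Matrix (Fin n) (Fin n) ℝ} (V : Matrix (Fin m) (Fin n) ℝ)
    (hY : ∀ i j, Y i j = Y j i) : yM (mk Y V) = Y := by
  ext1 i j
  exact mk_inl Y V hY i j

lemma vM_mk (Y : Matrix (Fin n) (Fin n) ℝ) (V : Matrix (Fin m) (Fin n) ℝ) :
    vM (mk Y V) = V := by
  ext1 i j
  rfl

/-- the space `P_{n,m}` -/
def Pnm (n m : ℕ) : Set (Idx n m → ℝ) := {x | (yM x).PosDef}

lemma yM_transpose (x : Idx n m → ℝ) : (yM x)ᵀ = yM x := by
  ext1 i j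
  rw [transpose_apply, yM_symm]

lemma isOpen_Pnm : IsOpen (Pnm n m) := by
  have hP : Pnm n m = {x | ∀ v ∈ Metric.sphere (0 : EuclideanSpace ℝ (Fin n)) 1,
      0 < (v : Fin n → ℝ) ⬝ᵥ (yM x *ᵥ (v : Fin n → ℝ))} := by
    ext x
    constructor
    · intro hx v hv
      have hx' : (yM x).PosDef := hx
      have hv0 : (v : Fin n → ℝ) ≠ 0 := by
        intro h
        have : v = 0 := by ext i; exact congrFun h i
        rw [this] at hv
        simp at hv
      have h := hx'.dotProduct_mulVec_pos hv0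
      simpa using h
    · intro hx
      show (yM x).PosDef
      refine PosDef.of_dotProduct_mulVec_pos ?_ ?_
      · rw [IsHermitian, conjTranspose_eq_transpose_of_trivial, yM_transpose]
      · intro v hv
        set w : EuclideanSpace ℝ (Fin n) := WithLp.toLp 2 v with hw
        have hw0 : w ≠ 0 := by
          intro h
          apply hv
          funext i
          have := congrArg (fun u : EuclideanSpace ℝ (Fin n) => u i) h
          exact this
        have hn : 0 < ‖w‖ := norm_pos_iff.2 hw0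
        have h1 := hx (‖w‖⁻¹ • w) (by
          rw [mem_sphere_zero_iff_norm, norm_smul, norm_inv, norm_norm, inv_mul_cancel₀ hn.ne'])
        have h2 : ((‖w‖⁻¹ • w : EuclideanSpace ℝ (Fin n)) : Fin n → ℝ) = ‖w‖⁻¹ • v := rfl
        rw [h2, mulVec_smul, smul_dotProduct, dotProduct_smul, smul_eq_mul, smul_eq_mul,
          ← mul_assoc] at h1
        rw [star_trivial]
        exact (mul_pos_iff_of_pos_left (by positivity)).1 h1
  rw [hP, isOpen_iff_eventually]
  intro x hx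
  refine (isCompact_sphere (0 : EuclideanSpace ℝ (Fin n)) 1).eventually_forall_of_forall_eventually
    fun v hv => ?_
  have hc : Continuous fun z : (Idx n m → ℝ) × EuclideanSpace ℝ (Fin n) =>
      (z.2 : Fin n → ℝ) ⬝ᵥ (yM z.1 *ᵥ (z.2 : Fin n → ℝ)) := by
    simp only [dotProduct, mulVec, yM, Matrix.of_apply]
    fun_prop
  exact hc.continuousAt.eventually (lt_mem_nhds (hx v hv))

open Classical in
/-- extension by zero -/
noncomputable def ext (f : Pnm n m → ℂ) : (Idx n m → ℝ) → ℂ :=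
  fun x => if h : x ∈ Pnm n m then f ⟨x, h⟩ else 0

lemma ext_mem (f : Pnm n m → ℂ) {x : Idx n m → ℝ} (h : x ∈ Pnm n m) : ext f x = f ⟨x, h⟩ := by
  rw [ext, dif_pos h]

lemma ext_add (f g : Pnm n m → ℂ) : ext (f + g) = ext f + ext g := by
  funext x
  by_cases h : x ∈ Pnm n m
  · rw [Pi.add_apply, ext_mem _ h, ext_mem _ h, ext_mem _ h]; rfl
  · simp only [ext, dif_neg h, Pi.add_apply, add_zero]

lemma ext_mul (f g : Pnm n m → ℂ) : ext (f * g) = ext f * ext g := by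
  funext x
  by_cases h : x ∈ Pnm n m
  · rw [Pi.mul_apply, ext_mem _ h, ext_mem _ h, ext_mem _ h]; rfl
  · simp only [ext, dif_neg h, Pi.mul_apply, mul_zero]

lemma ext_smul (c : ℂ) (f : Pnm n m → ℂ) : ext (c • f) = c • ext f := by
  funext x
  by_cases h : x ∈ Pnm n m
  · rw [Pi.smul_apply, ext_mem _ h, ext_mem _ h]; rfl
  · simp only [ext, dif_neg h, Pi.smul_apply, smul_zero]

/-- the algebra of the smooth complex valued functions on `P_{n,m}` -/
noncomputable def Cinf (n m : ℕ) : Subalgebra ℂ (Pnm n m → ℂ) where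
  carrier := {f | ContDiffOn ℝ ∞ (ext f) (Pnm n m)}
  mul_mem' {f g} hf hg := by
    show ContDiffOn ℝ ∞ (ext (f * g)) _
    rw [ext_mul]
    exact ContDiffOn.mul hf hg
  add_mem' {f g} hf hg := by
    show ContDiffOn ℝ ∞ (ext (f + g)) _
    rw [ext_add]
    exact ContDiffOn.add hf hg
  algebraMap_mem' c := by
    show ContDiffOn ℝ ∞ (ext _) _
    refine (contDiffOn_const (c := c)).congr fun x hx => ?_
    rw [ext_mem _ hx]
    rfl

lemma Cinf_smooth (f : Cinf n m) : ContDiffOn ℝ ∞ (ext (f : Pnm n m → ℂ)) (Pnm n m) := f.2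

lemma Cinf_at (f : Cinf n m) {x : Idx n m → ℝ} (hx : x ∈ Pnm n m) :
    ContDiffAt ℝ ∞ (ext (f : Pnm n m → ℂ)) x :=
  (Cinf_smooth f).contDiffAt (isOpen_Pnm.mem_nhds hx)

lemma Cinf_diff (f : Cinf n m) {x : Idx n m → ℝ} (hx : x ∈ Pnm n m) :
    DifferentiableAt ℝ (ext (f : Pnm n m → ℂ)) x :=
  (Cinf_at f hx).differentiableAt (by simp)

/-- a function on `P_{n,m}` which is the restriction of a smooth function -/
lemma mem_Cinf {f : Pnm n m → ℂ} {F : (Idx n m → ℝ) → ℂ} (hF : ContDiffOn ℝ ∞ F (Pnm n m))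
    (h : ∀ x : Pnm n m, f x = F x) : f ∈ Cinf n m := by
  show ContDiffOn ℝ ∞ (ext f) _
  refine hF.congr fun x hx => ?_
  rw [ext_mem _ hx, h]

lemma ext_eventually {f : Pnm n m → ℂ} {F : (Idx n m → ℝ) → ℂ} (h : ∀ x : Pnm n m, f x = F x)
    {x : Idx n m → ℝ} (hx : x ∈ Pnm n m) : ext f =ᶠ[𝓝 x] F := by
  filter_upwards [isOpen_Pnm.mem_nhds hx] with y hy
  rw [ext_mem _ hy, h]

lemma smooth_fderiv (f : Cinf n m) (v : Idx n m → ℝ) :
    ContDiffOn ℝ ∞ (fun x => fderiv ℝ (ext (f : Pnm n m → ℂ)) x v) (Pnm n m) :=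
  ((Cinf_smooth f).fderiv_of_isOpen isOpen_Pnm (by simp)).clm_apply contDiffOn_const

/-- the partial derivative with respect to the coordinate `i` -/
noncomputable def pd (i : Idx n m) : Module.End ℂ (Cinf n m) where
  toFun f := ⟨fun x => fderiv ℝ (ext (f : Pnm n m → ℂ)) x (Pi.single i 1),
    mem_Cinf (smooth_fderiv f (Pi.single i 1)) fun _ => rfl⟩
  map_add' f g := by
    ext x
    show fderiv ℝ (ext ((f : Pnm n m → ℂ) + (g : Pnm n m → ℂ))) x (Pi.single i 1) =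
      fderiv ℝ (ext (f : Pnm n m → ℂ)) x (Pi.single i 1) +
        fderiv ℝ (ext (g : Pnm n m → ℂ)) x (Pi.single i 1)
    rw [ext_add, fderiv_add (Cinf_diff f x.2) (Cinf_diff g x.2)]
    rfl
  map_smul' c f := by
    ext x
    show fderiv ℝ (ext (c • (f : Pnm n m → ℂ))) x (Pi.single i 1) =
      c • fderiv ℝ (ext (f : Pnm n m → ℂ)) x (Pi.single i 1)
    rw [ext_smul, fderiv_const_smul (Cinf_diff f x.2)]
    rfl

/-- the multiplication operator -/
noncomputable def mulOp (a : Cinf n m) : Module.End ℂ (Cinf n m) := LinearMap.mulLeft ℂ a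

/-- the algebra of the linear differential operators (with smooth coefficients) on `P_{n,m}` -/
noncomputable def DiffOp (n m : ℕ) : Subalgebra ℂ (Module.End ℂ (Cinf n m)) :=
  Algebra.adjoin ℂ (Set.range mulOp ∪ Set.range pd)

/-- the affine map `(Y, V) ↦ (A Y Aᵀ, (V + a) Aᵀ)` in coordinates -/
def aff (A : Matrix (Fin n) (Fin n) ℝ) (a : Matrix (Fin m) (Fin n) ℝ) (x : Idx n m → ℝ) :
    Idx n m → ℝ :=
  mk (A * yM x * Aᵀ) ((vM x + a) * Aᵀ)

lemma conj_symm (A : Matrix (Fin n) (Fin n) ℝ) (x : Idx n m → ℝ) (i j : Fin n) :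
    (A * yM x * Aᵀ) i j = (A * yM x * Aᵀ) j i := by
  have h : (A * yM x * Aᵀ)ᵀ = A * yM x * Aᵀ := by
    rw [transpose_mul, transpose_mul, transpose_transpose, yM_transpose, Matrix.mul_assoc]
  conv_lhs => rw [← h, transpose_apply]

lemma yM_aff (A : Matrix (Fin n) (Fin n) ℝ) (a : Matrix (Fin m) (Fin n) ℝ) (x : Idx n m → ℝ) :
    yM (aff A a x) = A * yM x * Aᵀ := yM_mk _ (conj_symm A x)

lemma vM_aff (A : Matrix (Fin n) (Fin n) ℝ) (a : Matrix (Fin m) (Fin n) ℝ) (x : Idx n m → ℝ) :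
    vM (aff A a x) = (vM x + a) * Aᵀ := vM_mk _ _

lemma aff_mem (A : GL (Fin n) ℝ) (a : Matrix (Fin m) (Fin n) ℝ) {x : Idx n m → ℝ}
    (hx : x ∈ Pnm n m) : aff (A : Matrix (Fin n) (Fin n) ℝ) a x ∈ Pnm n m := by
  show (yM (aff (A : Matrix (Fin n) (Fin n) ℝ) a x)).PosDef
  rw [yM_aff]
  have hx' : (yM x).PosDef := hx
  have h := hx'.mul_mul_conjTranspose_same (B := (A : Matrix (Fin n) (Fin n) ℝ)) (by
    apply Matrix.vecMul_injective_of_isUnit
    exact Units.isUnit A)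
  rwa [conjTranspose_eq_transpose_of_trivial] at h

/-- the action of `(A, a)` on `P_{n,m}` -/
def act (A : GL (Fin n) ℝ) (a : Matrix (Fin m) (Fin n) ℝ) (x : Pnm n m) : Pnm n m :=
  ⟨aff (A : Matrix (Fin n) (Fin n) ℝ) a x, aff_mem A a x.2⟩

lemma aff_contDiff (A : Matrix (Fin n) (Fin n) ℝ) (a : Matrix (Fin m) (Fin n) ℝ) :
    ContDiff ℝ ∞ (aff A a : (Idx n m → ℝ) → Idx n m → ℝ) := by
  rw [contDiff_pi]
  rintro (s | ⟨k, l⟩)
  · show ContDiff ℝ ∞ fun x : Idx n m → ℝ => (A * yM x * Aᵀ) s.inf s.sup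
    simp only [mul_apply, yM, Matrix.of_apply]
    fun_prop
  · show ContDiff ℝ ∞ fun x : Idx n m → ℝ => ((vM x + a) * Aᵀ) k l
    simp only [mul_apply, vM, Matrix.of_apply, Matrix.add_apply]
    fun_prop

lemma ext_comp (A : GL (Fin n) ℝ) (a : Matrix (Fin m) (Fin n) ℝ) (f : Pnm n m → ℂ)
    (x : Pnm n m) :
    f (act A a x) = (ext f ∘ aff (A : Matrix (Fin n) (Fin n) ℝ) a) x := by
  show f (act A a x) = ext f (aff (A : Matrix (Fin n) (Fin n) ℝ) a x)
  rw [ext_mem _ (aff_mem A a x.2)]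
  rfl

/-- the operator `f ↦ f ∘ (A, a)` -/
noncomputable def pull (A : GL (Fin n) ℝ) (a : Matrix (Fin m) (Fin n) ℝ) :
    Module.End ℂ (Cinf n m) where
  toFun f := ⟨fun x => (f : Pnm n m → ℂ) (act A a x),
    mem_Cinf ((Cinf_smooth f).comp (aff_contDiff _ a).contDiffOn fun _ hx => aff_mem A a hx)
      fun x => ext_comp A a _ x⟩
  map_add' _ _ := rfl
  map_smul' _ _ := rfl

/-- the algebra `𝔻(P_{n,m})` of the differential operators which commute with all `(A, a)` -/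
noncomputable def InvOp (n m : ℕ) : Subalgebra ℂ (Module.End ℂ (Cinf n m)) where
  carrier := {T | T ∈ DiffOp n m ∧ ∀ (A : GL (Fin n) ℝ) (a : Matrix (Fin m) (Fin n) ℝ),
    T * pull A a = pull A a * T}
  mul_mem' {T S} hT hS := ⟨(DiffOp n m).mul_mem hT.1 hS.1, fun A a => by
    rw [mul_assoc, hS.2, ← mul_assoc, hT.2, mul_assoc]⟩
  add_mem' {T S} hT hS := ⟨(DiffOp n m).add_mem hT.1 hS.1, fun A a => by
    rw [add_mul, mul_add, hT.2, hS.2]⟩
  algebraMap_mem' c := ⟨(DiffOp n m).algebraMap_mem c, fun A a => Algebra.commutes c _⟩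

/-- the coordinate functions -/
noncomputable def cX (i : Idx n m) : Cinf n m :=
  ⟨fun x => ((x : Idx n m → ℝ) i : ℂ), mem_Cinf (F := fun x => ((x i : ℝ) : ℂ))
    (Complex.ofRealCLM.contDiff.comp (contDiff_apply ℝ ℝ i)).contDiffOn fun _ => rfl⟩

/-- the matrix `Y` of multiplication operators -/
noncomputable def opY (n m : ℕ) : Matrix (Fin n) (Fin n) (Module.End ℂ (Cinf n m)) :=
  Matrix.of fun i j => mulOp (cX (Sum.inl s(i, j)))

/-- the operator matrix `∂/∂Y = ((1 + δ_{ij}) / 2 ∂/∂y_{ij})` -/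
noncomputable def opdY (n m : ℕ) : Matrix (Fin n) (Fin n) (Module.End ℂ (Cinf n m)) :=
  Matrix.of fun i j => ((1 + if i = j then 1 else 0) / 2 : ℂ) •
    (pd (Sum.inl s(i, j)) : Module.End ℂ (Cinf n m))

/-- the operator matrix `∂/∂V` -/
noncomputable def opdV (n m : ℕ) : Matrix (Fin m) (Fin n) (Module.End ℂ (Cinf n m)) :=
  Matrix.of fun k l => pd (Sum.inr (k, l))

/-- the operator matrix `2 Y ∂/∂Y` -/
noncomputable def opE (n m : ℕ) : Matrix (Fin n) (Fin n) (Module.End ℂ (Cinf n m)) :=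
  (2 : ℂ) • (opY n m * opdY n m)

/-- the operators `D_j = Tr ((2 Y ∂/∂Y) ^ j)` -/
noncomputable def opD (n m j : ℕ) : Module.End ℂ (Cinf n m) := trace (opE n m ^ j)

/-- the operators `Ω^{(k)}_{pq} = {∂/∂V (2 Y ∂/∂Y) ^ k Y ᵗ(∂/∂V)}_{pq}` -/
noncomputable def opO (n m k : ℕ) (p q : Fin m) : Module.End ℂ (Cinf n m) :=
  (opdV n m * opE n m ^ k * opY n m * (opdV n m)ᵀ) p q

end space

end Pool.Agent.K7.H32.ME
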