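import Pool.Agent.K7.H32.ME.Symb

set_option autoImplicit false
set_option linter.unusedSectionVars false

/-!
# The generators are invariant
-/

namespace Pool.Agent.K7.H32.ME

open Matrix

variable {n m : ℕ}

/-- the weight `(1 + δ) / 2` -/
noncomputable def wt (i j : Fin n) : ℂ := (1 + if i = j then 1 else 0) / 2

lemma wt_symm (i j : Fin n) : wt i j = wt j i := by
  unfold wt
  simp only [eq_comm]

lemma sum_sym2 {M : Type} [AddCommMonoid M] [Module ℂ M] (F : Sym2 (Fin n) → M) :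
    ∑ s, F s = ∑ i, ∑ j, wt i j • F s(i, j) := by
  rw [← Fintype.sum_prod_type (f := fun p : Fin n × Fin n => wt p.1 p.2 • F s(p.1, p.2)),
    ← Finset.sum_fiberwise (s := (Finset.univ : Finset (Fin n × Fin n)))
      (g := fun p => s(p.1, p.2)) (f := fun p => wt p.1 p.2 • F s(p.1, p.2))]
  refine Finset.sum_congr rfl fun s _ => ?_
  induction s using Sym2.ind with
  | _ a b =>
    have h1 : (Finset.univ.filter fun p : Fin n × Fin n => s(p.1, p.2) = s(a, b)) =
        {(a, b), (b, a)} := by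
      ext ⟨c, d⟩
      rw [Finset.mem_filter, Finset.mem_insert, Finset.mem_singleton, Sym2.eq_iff, Prod.mk.injEq,
        Prod.mk.injEq]
      simp
    rw [h1]
    by_cases hab : a = b
    · subst hab
      rw [Finset.insert_eq_of_mem (Finset.mem_singleton_self _), Finset.sum_singleton]
      have : wt a a = 1 := by unfold wt; rw [if_pos rfl]; norm_num
      rw [this, one_smul]
    · rw [Finset.sum_pair (by intro h; exact hab (Prod.ext_iff.1 h).1)]
      show F s(a, b) = wt a b • F s(a, b) + wt b a • F s(b, a)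
      rw [Sym2.eq_swap (a := b) (b := a), ← add_smul]
      have : wt a b + wt b a = 1 := by
        unfold wt; rw [if_neg hab, if_neg (Ne.symm hab)]; norm_num
      rw [this, one_smul]

lemma yM_single (i j c d : Fin n) :
    yM (Pi.single (Sum.inl s(i, j)) 1 : Idx n m → ℝ) c d = if s(c, d) = s(i, j) then 1 else 0 := by
  show (Pi.single (Sum.inl s(i, j)) 1 : Idx n m → ℝ) (Sum.inl s(c, d)) = _
  rw [Pi.single_apply]
  simp only [Sum.inl.injEq]

lemma wt_ite (i j c d : Fin n) : wt i j * (if s(c, d) = s(i, j) then 1 else 0) =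
    ((if c = i then 1 else 0) * (if d = j then 1 else 0) +
      (if c = j then 1 else 0) * (if d = i then 1 else 0)) / 2 := by
  unfold wt
  simp only [Sym2.eq_iff]
  by_cases h1 : c = i
  · subst h1
    by_cases h2 : d = j
    · subst h2
      by_cases h3 : c = d
      · subst h3; simp
      · simp [h3]
    · by_cases h3 : c = j
      · subst h3; simp [h2]
      · simp [h2, h3]
  · by_cases h2 : c = j
    · subst h2
      by_cases h3 : d = i
      · subst h3
        simp [h1, Ne.symm h1]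
      · simp [h1, h3]
    · simp [h1, h2]

lemma lin_inl (A : Matrix (Fin n) (Fin n) ℝ) (i j a b : Fin n) :
    wt i j * ((lin A (Pi.single (Sum.inl s(i, j)) 1 : Idx n m → ℝ) (Sum.inl s(a, b)) : ℝ) : ℂ) =
      ((A a i * A b j + A a j * A b i : ℝ) : ℂ) / 2 := by
  have h1 : lin A (Pi.single (Sum.inl s(i, j)) 1 : Idx n m → ℝ) (Sum.inl s(a, b)) =
      ∑ d, ∑ c, A a c * (if s(c, d) = s(i, j) then 1 else 0) * A b d := by
    rw [lin, mk_inl _ _ (conj_symm A _), mul_apply]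
    refine Finset.sum_congr rfl fun d _ => ?_
    rw [mul_apply, Finset.sum_mul, transpose_apply]
    refine Finset.sum_congr rfl fun c _ => ?_
    rw [yM_single]
  rw [h1]
  push_cast
  simp only [apply_ite (fun x : ℝ => (x : ℂ)), Complex.ofReal_one, Complex.ofReal_zero]
  rw [Finset.mul_sum]
  have h2 : ∀ d c : Fin n, wt i j * ((A a c : ℂ) * (if s(c, d) = s(i, j) then 1 else 0) * (A b d : ℂ)) =
      (if c = i then (if d = j then (A a c : ℂ) * A b d / 2 else 0) else 0) +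
        (if c = j then (if d = i then (A a c : ℂ) * A b d / 2 else 0) else 0) := by
    intro d c
    have e : wt i j * ((A a c : ℂ) * (if s(c, d) = s(i, j) then 1 else 0) * (A b d : ℂ)) =
        (A a c : ℂ) * A b d * (wt i j * (if s(c, d) = s(i, j) then 1 else 0)) := by ring
    rw [e, wt_ite]
    split_ifs <;> ring
  simp only [Finset.mul_sum, h2, Finset.sum_add_distrib, Finset.sum_ite_eq', Finset.mem_univ,
    if_true]
  ring

lemma lin_inl_inr (A : Matrix (Fin n) (Fin n) ℝ) (s : Sym2 (Fin n)) (q : Fin m × Fin n) :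
    lin A (Pi.single (Sum.inl s) 1 : Idx n m → ℝ) (Sum.inr q) = 0 := by
  show (vM (Pi.single (Sum.inl s) 1 : Idx n m → ℝ) * Aᵀ) q.1 q.2 = 0
  have h : vM (Pi.single (Sum.inl s) 1 : Idx n m → ℝ) = 0 := by
    ext1 k l
    show (Pi.single (Sum.inl s) 1 : Idx n m → ℝ) (Sum.inr (k, l)) = 0
    rw [Pi.single_apply, if_neg (by simp)]
  rw [h, Matrix.zero_mul]
  rfl

lemma lin_inr_inl (A : Matrix (Fin n) (Fin n) ℝ) (s : Sym2 (Fin n)) (q : Fin m × Fin n) :
    lin A (Pi.single (Sum.inr q) 1 : Idx n m → ℝ) (Sum.inl s) = 0 := by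
  show (A * yM (Pi.single (Sum.inr q) 1 : Idx n m → ℝ) * Aᵀ) s.inf s.sup = 0
  have h : yM (Pi.single (Sum.inr q) 1 : Idx n m → ℝ) = 0 := by
    ext1 k l
    show (Pi.single (Sum.inr q) 1 : Idx n m → ℝ) (Sum.inl s(k, l)) = 0
    rw [Pi.single_apply, if_neg (by simp)]
  rw [h, Matrix.mul_zero, Matrix.zero_mul]
  rfl

lemma lin_inr (A : Matrix (Fin n) (Fin n) ℝ) (k k' : Fin m) (l a : Fin n) :
    lin A (Pi.single (Sum.inr (k, l)) 1 : Idx n m → ℝ) (Sum.inr (k', a)) =
      if k' = k then A a l else 0 := by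
  show (vM (Pi.single (Sum.inr (k, l)) 1 : Idx n m → ℝ) * Aᵀ) k' a = _
  rw [mul_apply, Finset.sum_eq_single l]
  · show (Pi.single (Sum.inr (k, l)) 1 : Idx n m → ℝ) (Sum.inr (k', l)) * A a l = _
    rw [Pi.single_apply]
    by_cases h : k' = k
    · rw [if_pos (by rw [h]), if_pos h, one_mul]
    · rw [if_neg (by simpa using h), if_neg h, zero_mul]
  · intro b _ hb
    show (Pi.single (Sum.inr (k, l)) 1 : Idx n m → ℝ) (Sum.inr (k', b)) * A a b = 0
    rw [Pi.single_apply, if_neg, zero_mul]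
    intro h
    exact hb (Prod.ext_iff.1 (Sum.inr_injective h)).2
  · simp

lemma opdY_symm (i j : Fin n) : opdY n m i j = opdY n m j i := by
  simp only [opdY, Matrix.of_apply]
  rw [Sym2.eq_swap]
  simp only [eq_comm]

lemma opdY_apply (i j : Fin n) : opdY n m i j = wt i j • (pd (Sum.inl s(i, j)) : EndC n m) := rfl

lemma opdY_pull (A : GL (Fin n) ℝ) (a : Matrix (Fin m) (Fin n) ℝ) (i j : Fin n) :
    opdY n m i j * pull A a = ∑ c, ∑ d,
      (((A : Matrix (Fin n) (Fin n) ℝ) c i : ℂ) * ((A : Matrix (Fin n) (Fin n) ℝ) d j : ℂ)) •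
        (pull A a * opdY n m c d) := by
  rw [opdY_apply, smul_mul_assoc, pd_mul_pull, Fintype.sum_sum_type]
  have h1 : ∑ q : Fin m × Fin n, ((lin (A : Matrix (Fin n) (Fin n) ℝ)
      (Pi.single (Sum.inl s(i, j)) 1 : Idx n m → ℝ) (Sum.inr q) : ℝ) : ℂ) •
        (pull A a * pd (Sum.inr q)) = 0 := by
    refine Finset.sum_eq_zero fun q _ => ?_
    rw [lin_inl_inr, Complex.ofReal_zero, zero_smul]
  rw [h1, add_zero, sum_sym2, Finset.smul_sum]
  have h2 : ∀ c d : Fin n, wt i j • (wt c d • (((lin (A : Matrix (Fin n) (Fin n) ℝ)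
      (Pi.single (Sum.inl s(i, j)) 1 : Idx n m → ℝ) (Sum.inl s(c, d)) : ℝ) : ℂ) •
        (pull A a * pd (Sum.inl s(c, d))))) =
      (((A : Matrix (Fin n) (Fin n) ℝ) c i : ℂ) * ((A : Matrix (Fin n) (Fin n) ℝ) d j : ℂ) / 2) •
        (pull A a * opdY n m c d) +
      (((A : Matrix (Fin n) (Fin n) ℝ) d i : ℂ) * ((A : Matrix (Fin n) (Fin n) ℝ) c j : ℂ) / 2) •
        (pull A a * opdY n m d c) := by
    intro c d
    rw [opdY_symm d c, opdY_apply, mul_smul_comm, smul_smul, smul_smul, smul_smul, smul_smul,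
      ← add_smul]
    congr 1
    have h3 := lin_inl (m := m) (A : Matrix (Fin n) (Fin n) ℝ) i j c d
    have e : wt i j * wt c d * ((lin (A : Matrix (Fin n) (Fin n) ℝ)
      (Pi.single (Sum.inl s(i, j)) 1 : Idx n m → ℝ) (Sum.inl s(c, d)) : ℝ) : ℂ) =
        wt c d * (wt i j * ((lin (A : Matrix (Fin n) (Fin n) ℝ)
      (Pi.single (Sum.inl s(i, j)) 1 : Idx n m → ℝ) (Sum.inl s(c, d)) : ℝ) : ℂ)) := by ring
    rw [e, h3]
    push_cast
    ring
  simp only [Finset.smul_sum, h2, Finset.sum_add_distrib]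
  rw [Finset.sum_comm (f := fun c d => (((A : Matrix (Fin n) (Fin n) ℝ) d i : ℂ) *
    ((A : Matrix (Fin n) (Fin n) ℝ) c j : ℂ) / 2) • (pull A a * opdY n m d c)),
    ← Finset.sum_add_distrib]
  refine Finset.sum_congr rfl fun c _ => ?_
  rw [← Finset.sum_add_distrib]
  refine Finset.sum_congr rfl fun d _ => ?_
  rw [← add_smul, add_halves]

lemma opdV_pull (A : GL (Fin n) ℝ) (a : Matrix (Fin m) (Fin n) ℝ) (k : Fin m) (l : Fin n) :
    opdV n m k l * pull A a = ∑ c, ((A : Matrix (Fin n) (Fin n) ℝ) c l : ℂ) •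
      (pull A a * opdV n m k c) := by
  show pd (Sum.inr (k, l)) * pull A a = _
  rw [pd_mul_pull, Fintype.sum_sum_type, Finset.sum_eq_zero, zero_add, Fintype.sum_prod_type,
    Finset.sum_eq_single k]
  · refine Finset.sum_congr rfl fun c _ => ?_
    rw [lin_inr, if_pos rfl]
    rfl
  · intro b _ hb
    refine Finset.sum_eq_zero fun c _ => ?_
    rw [lin_inr, if_neg hb, Complex.ofReal_zero, zero_smul]
  · simp
  · intro s _
    rw [lin_inr_inl, Complex.ofReal_zero, zero_smul]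

lemma mulOp_sum {ι : Type} (s : Finset ι) (f : ι → Cinf n m) :
    mulOp (∑ i ∈ s, f i) = ∑ i ∈ s, mulOp (f i) := by
  refine LinearMap.ext fun g => ?_
  rw [LinearMap.sum_apply]
  show (∑ i ∈ s, f i) * g = ∑ i ∈ s, f i * g
  rw [Finset.sum_mul]

lemma mulOp_smul (c : ℂ) (f : Cinf n m) : mulOp (c • f) = c • mulOp f := by
  refine LinearMap.ext fun g => ?_
  show (c • f) * g = c • (f * g)
  rw [smul_mul_assoc]

lemma opY_pull (A : GL (Fin n) ℝ) (a : Matrix (Fin m) (Fin n) ℝ) (i j : Fin n) :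
    opY n m i j * pull A a = ∑ c, ∑ d,
      ((((A⁻¹ : GL (Fin n) ℝ) : Matrix (Fin n) (Fin n) ℝ) i c : ℂ) *
        (((A⁻¹ : GL (Fin n) ℝ) : Matrix (Fin n) (Fin n) ℝ) j d : ℂ)) •
        (pull A a * opY n m c d) := by
  have h1 : (cX (Sum.inl s(i, j)) : Cinf n m) = ∑ c, ∑ d,
      ((((A⁻¹ : GL (Fin n) ℝ) : Matrix (Fin n) (Fin n) ℝ) i c : ℂ) *
        (((A⁻¹ : GL (Fin n) ℝ) : Matrix (Fin n) (Fin n) ℝ) j d : ℂ)) •
        pull A a (cX (Sum.inl s(c, d))) := by
    ext x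
    have hs : ((∑ c, ∑ d,
      ((((A⁻¹ : GL (Fin n) ℝ) : Matrix (Fin n) (Fin n) ℝ) i c : ℂ) *
        (((A⁻¹ : GL (Fin n) ℝ) : Matrix (Fin n) (Fin n) ℝ) j d : ℂ)) •
        pull A a (cX (Sum.inl s(c, d))) : Cinf n m) : Pnm n m → ℂ) x =
        ∑ c, ∑ d,
      ((((A⁻¹ : GL (Fin n) ℝ) : Matrix (Fin n) (Fin n) ℝ) i c : ℂ) *
        (((A⁻¹ : GL (Fin n) ℝ) : Matrix (Fin n) (Fin n) ℝ) j d : ℂ)) *
        ((aff (A : Matrix (Fin n) (Fin n) ℝ) a x (Sum.inl s(c, d)) : ℝ) : ℂ) := by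
      rw [AddSubmonoidClass.coe_finsetSum, Finset.sum_apply]
      refine Finset.sum_congr rfl fun c _ => ?_
      rw [AddSubmonoidClass.coe_finsetSum, Finset.sum_apply]
      rfl
    rw [hs]
    show ((yM (x : Idx n m → ℝ) i j : ℝ) : ℂ) = _
    have h2 : yM (x : Idx n m → ℝ) = ((A⁻¹ : GL (Fin n) ℝ) : Matrix (Fin n) (Fin n) ℝ) *
        ((A : Matrix (Fin n) (Fin n) ℝ) * yM (x : Idx n m → ℝ) *
          (A : Matrix (Fin n) (Fin n) ℝ)ᵀ) *
        ((A⁻¹ : GL (Fin n) ℝ) : Matrix (Fin n) (Fin n) ℝ)ᵀ := by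
      rw [Matrix.mul_assoc, Matrix.mul_assoc, Matrix.mul_assoc, ← transpose_mul, Units.inv_mul,
        transpose_one, Matrix.mul_one, ← Matrix.mul_assoc, Units.inv_mul, Matrix.one_mul]
    have h3 : ∀ c d, aff (A : Matrix (Fin n) (Fin n) ℝ) a x (Sum.inl s(c, d)) =
        ((A : Matrix (Fin n) (Fin n) ℝ) * yM (x : Idx n m → ℝ) *
          (A : Matrix (Fin n) (Fin n) ℝ)ᵀ) c d := fun c d => mk_inl _ _ (conj_symm _ _) c d
    simp only [h3]
    conv_lhs => rw [h2]
    rw [mul_apply]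
    simp only [mul_apply (M := ((A⁻¹ : GL (Fin n) ℝ) : Matrix (Fin n) (Fin n) ℝ))
      (N := (A : Matrix (Fin n) (Fin n) ℝ) * yM (x : Idx n m → ℝ) *
          (A : Matrix (Fin n) (Fin n) ℝ)ᵀ), Finset.sum_mul, transpose_apply]
    push_cast
    rw [Finset.sum_comm]
    refine Finset.sum_congr rfl fun c _ => Finset.sum_congr rfl fun d _ => ?_
    ring
  show mulOp (cX (Sum.inl s(i, j))) * pull A a = _
  rw [h1, mulOp_sum, Finset.sum_mul]
  refine Finset.sum_congr rfl fun c _ => ?_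
  rw [mulOp_sum, Finset.sum_mul]
  refine Finset.sum_congr rfl fun d _ => ?_
  rw [mulOp_smul, smul_mul_assoc, mulOp_pull]
  rfl

end Pool.Agent.K7.H32.ME
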