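import Mathlib

set_option autoImplicit false

/-!
# Orthogonal invariants of a symmetric matrix and vectors: induction on the degree in the matrix

`Rg n P` is the polynomial ring in the entries of a symmetric `n × n` matrix and of vectors indexed
by `P`. We polarise one matrix into `u vᵀ + v uᵀ` and contract again.
-/

namespace Pool.Agent.K7.H32.ME

open MvPolynomial Matrix

abbrev Var (n : ℕ) (P : Type) := Sym2 (Fin n) ⊕ (P × Fin n)
abbrev Rg (n : ℕ) (P : Type) := MvPolynomial (Var n P) ℂ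

section basic
variable {n : ℕ} {P : Type}

/-- the generic symmetric matrix -/
noncomputable def XM (n : ℕ) (P : Type) : Matrix (Fin n) (Fin n) (Rg n P) :=
  Matrix.of fun i j => X (Sum.inl s(i, j))

/-- the generic vectors -/
noncomputable def zv {n : ℕ} {P : Type} (p : P) : Fin n → Rg n P := fun i => X (Sum.inr (p, i))

lemma XM_apply (i j : Fin n) : XM n P i j = X (Sum.inl s(i, j)) := rfl

lemma XM_symm (i j : Fin n) : XM n P i j = XM n P j i := by
  rw [XM_apply, XM_apply, Sym2.eq_swap]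

lemma XM_transpose : (XM n P)ᵀ = XM n P := by
  ext1 i j
  rw [transpose_apply, XM_symm]

lemma XMp_transpose (k : ℕ) : (XM n P ^ k)ᵀ = XM n P ^ k := by
  rw [transpose_pow, XM_transpose]

/-- the blocks -/
noncomputable def bl (k : ℕ) (p q : P) : Rg n P := zv p ⬝ᵥ (XM n P ^ k *ᵥ zv q)

/-- the algebra of the standard invariants -/
noncomputable def Alg (n : ℕ) (P : Type) : Subalgebra ℂ (Rg n P) :=
  Algebra.adjoin ℂ ({f | ∃ j, f = trace (XM n P ^ j)} ∪ {f | ∃ k p q, f = bl k p q})

lemma trace_mem (j : ℕ) : trace (XM n P ^ j) ∈ Alg n P :=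
  Algebra.subset_adjoin (Or.inl ⟨j, rfl⟩)

lemma bl_mem (k : ℕ) (p q : P) : (bl k p q : Rg n P) ∈ Alg n P :=
  Algebra.subset_adjoin (Or.inr ⟨k, p, q, rfl⟩)

/-- induction on polynomials -/
theorem ind {Q : Rg n P → Prop} (hC : ∀ c, Q (C c)) (hadd : ∀ f g, Q f → Q g → Q (f + g))
    (hX : ∀ f i j, Q f → Q (f * XM n P i j)) (hz : ∀ f p i, Q f → Q (f * zv p i)) :
    ∀ f, Q f := by
  intro f
  induction f using MvPolynomial.induction_on with
  | C c => exact hC c
  | add f g hf hg => exact hadd f g hf hg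
  | mul_X f v hf =>
    rcases v with s | ⟨p, i⟩
    · induction s using Sym2.ind with
      | _ i j => exact hX f i j hf
    · exact hz f p i hf

section sb
variable {B : Type} [CommRing B] [Algebra ℂ B]

/-- substitution of a symmetric matrix and vectors -/
noncomputable def sb (M : Matrix (Fin n) (Fin n) B) (w : P → Fin n → B) : Rg n P →ₐ[ℂ] B :=
  aeval (Sum.elim (fun s => M s.inf s.sup) (fun pi => w pi.1 pi.2))

lemma sb_XM {M : Matrix (Fin n) (Fin n) B} (hM : ∀ i j, M i j = M j i) (w : P → Fin n → B)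
    (i j : Fin n) : sb M w (XM n P i j) = M i j := by
  rw [XM_apply, sb, aeval_X]
  show M (s(i, j)).inf (s(i, j)).sup = M i j
  rw [Sym2.inf_mk, Sym2.sup_mk]
  rcases le_total i j with h | h
  · rw [inf_eq_left.2 h, sup_eq_right.2 h]
  · rw [inf_eq_right.2 h, sup_eq_left.2 h, hM]

lemma sb_zv (M : Matrix (Fin n) (Fin n) B) (w : P → Fin n → B) (p : P) (i : Fin n) :
    sb M w (zv p i) = w p i := by
  rw [zv, sb, aeval_X]
  rfl

lemma map_ext {f g : Rg n P →ₐ[ℂ] B} (hX : ∀ i j, f (XM n P i j) = g (XM n P i j))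
    (hz : ∀ p i, f (zv p i) = g (zv p i)) : f = g := by
  apply MvPolynomial.algHom_ext
  rintro (s | ⟨p, i⟩)
  · induction s using Sym2.ind with
    | _ i j => exact hX i j
  · exact hz p i

lemma map_XMp (f : Rg n P →ₐ[ℂ] B) {M : Matrix (Fin n) (Fin n) B}
    (hX : ∀ i j, f (XM n P i j) = M i j) (k : ℕ) (i j : Fin n) :
    f ((XM n P ^ k) i j) = (M ^ k) i j := by
  have h : (XM n P).map (f : Rg n P →+* B) = M := by ext1 i j; exact hX i j
  have h2 := Matrix.map_pow (XM n P) (f : Rg n P →+* B) k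
  rw [h] at h2
  rw [← h2]
  rfl

lemma map_trace' (f : Rg n P →ₐ[ℂ] B) {M : Matrix (Fin n) (Fin n) B}
    (hX : ∀ i j, f (XM n P i j) = M i j) (k : ℕ) :
    f (trace (XM n P ^ k)) = trace (M ^ k) := by
  simp only [trace, diag_apply, map_sum]
  exact Finset.sum_congr rfl fun i _ => map_XMp f hX k i i

lemma map_bl (f : Rg n P →ₐ[ℂ] B) {M : Matrix (Fin n) (Fin n) B} {w : P → Fin n → B}
    (hX : ∀ i j, f (XM n P i j) = M i j) (hz : ∀ p i, f (zv p i) = w p i) (k : ℕ) (p q : P) :
    f (bl k p q) = w p ⬝ᵥ (M ^ k *ᵥ w q) := by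
  simp only [bl, dotProduct, mulVec, map_sum, map_mul, hz, map_XMp f hX k]

end sb

end basic

section deriv
variable {n : ℕ} {P : Type}

/-- the derivation with given symmetric values -/
noncomputable def dv (W : Matrix (Fin n) (Fin n) (Rg n P)) (w : P → Fin n → Rg n P) :
    Derivation ℂ (Rg n P) (Rg n P) :=
  mkDerivation ℂ (Sum.elim (fun s => W s.inf s.sup) (fun pi => w pi.1 pi.2))

lemma dv_XM {W : Matrix (Fin n) (Fin n) (Rg n P)} (hW : ∀ i j, W i j = W j i)
    (w : P → Fin n → Rg n P) (i j : Fin n) : dv W w (XM n P i j) = W i j := by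
  rw [XM_apply, dv, mkDerivation_X]
  show W (s(i, j)).inf (s(i, j)).sup = W i j
  rw [Sym2.inf_mk, Sym2.sup_mk]
  rcases le_total i j with h | h
  · rw [inf_eq_left.2 h, sup_eq_right.2 h]
  · rw [inf_eq_right.2 h, sup_eq_left.2 h, hW]

lemma dv_zv (W : Matrix (Fin n) (Fin n) (Rg n P)) (w : P → Fin n → Rg n P) (p : P) (i : Fin n) :
    dv W w (zv p i) = w p i := by
  rw [zv, dv, mkDerivation_X]
  rfl

lemma der_C (D : Derivation ℂ (Rg n P) (Rg n P)) (c : ℂ) : D (C c) = 0 := by
  rw [← MvPolynomial.algebraMap_eq]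
  exact D.map_algebraMap c

lemma der_mul (D : Derivation ℂ (Rg n P) (Rg n P)) (f g : Rg n P) :
    D (f * g) = f * D g + g * D f := by
  rw [D.leibniz, smul_eq_mul, smul_eq_mul]

lemma der_XMp (D : Derivation ℂ (Rg n P) (Rg n P)) (h : ∀ i j, D (XM n P i j) = 0) (k : ℕ) :
    ∀ i j, D ((XM n P ^ k) i j) = 0 := by
  induction k with
  | zero =>
    intro i j
    rw [pow_zero, one_apply]
    split_ifs
    · exact D.map_one_eq_zero
    · exact map_zero D
  | succ k ih =>
    intro i j
    rw [pow_succ, mul_apply, map_sum]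
    refine Finset.sum_eq_zero fun l _ => ?_
    rw [der_mul, ih, h, mul_zero, mul_zero, add_zero]

end deriv

section grad
variable {n : ℕ} {P : Type}

/-- the grading by the degree in the matrix -/
noncomputable def ps (n : ℕ) (P : Type) : Rg n P →ₐ[ℂ] Polynomial (Rg n P) :=
  sb (Matrix.of fun i j => Polynomial.C (XM n P i j) * Polynomial.X)
    (fun p i => Polynomial.C (zv p i))

lemma ps_XM (i j : Fin n) : ps n P (XM n P i j) = Polynomial.C (XM n P i j) * Polynomial.X := by
  rw [ps, sb_XM]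
  · rfl
  · intro i j
    simp only [Matrix.of_apply]
    rw [XM_symm]

lemma ps_zv (p : P) (i : Fin n) : ps n P (zv p i) = Polynomial.C (zv p i) := by
  rw [ps, sb_zv]

lemma ps_C (c : ℂ) : ps n P (C c) = Polynomial.C (C c) := by
  rw [← MvPolynomial.algebraMap_eq, AlgHom.commutes]
  rfl

/-- the components -/
noncomputable def cmp (a : ℕ) (f : Rg n P) : Rg n P := (ps n P f).coeff a

lemma cmp_C (a : ℕ) (c : ℂ) : cmp a (C c : Rg n P) = if a = 0 then C c else 0 := by
  rw [cmp, ps_C, Polynomial.coeff_C]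

lemma cmp_add (a : ℕ) (f g : Rg n P) : cmp a (f + g) = cmp a f + cmp a g := by
  rw [cmp, map_add, Polynomial.coeff_add]; rfl

lemma cmp_zero (a : ℕ) : cmp a (0 : Rg n P) = 0 := by
  rw [cmp, map_zero, Polynomial.coeff_zero]

lemma cmp_mul_XM (a : ℕ) (f : Rg n P) (i j : Fin n) :
    cmp (a + 1) (f * XM n P i j) = cmp a f * XM n P i j := by
  rw [cmp, map_mul, ps_XM, ← mul_assoc, Polynomial.coeff_mul_X, Polynomial.coeff_mul_C]
  rfl

lemma cmp_zero_mul_XM (f : Rg n P) (i j : Fin n) :
    cmp 0 (f * XM n P i j) = 0 := by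
  rw [cmp, map_mul, ps_XM, ← mul_assoc, Polynomial.mul_coeff_zero, Polynomial.coeff_X_zero,
    mul_zero]

lemma cmp_mul_zv (a : ℕ) (f : Rg n P) (p : P) (i : Fin n) :
    cmp a (f * zv p i) = cmp a f * zv p i := by
  rw [cmp, map_mul, ps_zv, Polynomial.coeff_mul_C]
  rfl

lemma cmp_cmp (f : Rg n P) : ∀ a b, cmp b (cmp a f) = if b = a then cmp a f else 0 := by
  induction f using ind with
  | hC c =>
    intro a b
    rw [cmp_C]
    by_cases ha : a = 0
    · subst ha
      rw [if_pos rfl, cmp_C]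
    · rw [if_neg ha, cmp_zero]
      split_ifs <;> rfl
  | hadd f g hf hg =>
    intro a b
    rw [cmp_add, cmp_add, hf, hg]
    split_ifs
    · rfl
    · exact add_zero 0
  | hX f i j hf =>
    intro a b
    rcases a with _ | a
    · rw [cmp_zero_mul_XM, cmp_zero]
      split_ifs <;> rfl
    · rw [cmp_mul_XM]
      rcases b with _ | b
      · rw [cmp_zero_mul_XM, if_neg (by omega)]
      · rw [cmp_mul_XM, hf]
        by_cases h : b = a
        · rw [if_pos h, if_pos (by omega)]
        · rw [if_neg h, if_neg (by omega), zero_mul]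
  | hz f p i hf =>
    intro a b
    rw [cmp_mul_zv, cmp_mul_zv, hf]
    split_ifs
    · rfl
    · exact zero_mul _

/-- the Euler derivation -/
noncomputable def Eu (n : ℕ) (P : Type) : Derivation ℂ (Rg n P) (Rg n P) := dv (XM n P) 0

lemma Eu_cmp (f : Rg n P) : ∀ a, Eu n P (cmp a f) = (a : Rg n P) * cmp a f := by
  induction f using ind with
  | hC c =>
    intro a
    rw [cmp_C]
    by_cases ha : a = 0
    · subst ha
      rw [if_pos rfl, der_C, Nat.cast_zero, zero_mul]
    · rw [if_neg ha, map_zero, mul_zero]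
  | hadd f g hf hg =>
    intro a
    rw [cmp_add, map_add, hf, hg, mul_add]
  | hX f i j hf =>
    intro a
    rcases a with _ | a
    · rw [cmp_zero_mul_XM, map_zero, mul_zero]
    · rw [cmp_mul_XM, der_mul, hf, Eu, dv_XM XM_symm]
      push_cast
      ring
  | hz f p i hf =>
    intro a
    rw [cmp_mul_zv, der_mul, hf, Eu, dv_zv]
    simp only [Pi.zero_apply]
    ring

lemma sum_cmp (f : Rg n P) : ∃ N, ∑ a ∈ Finset.range N, cmp a f = f := by
  refine ⟨(ps n P f).natDegree + 1, ?_⟩
  have h1 : (Polynomial.evalRingHom (1 : Rg n P)).comp (ps n P : Rg n P →+* Polynomial (Rg n P)) =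
      RingHom.id _ := by
    apply MvPolynomial.ringHom_ext
    · intro c
      show Polynomial.eval 1 (ps n P (C c)) = C c
      rw [ps_C, Polynomial.eval_C]
    · rintro (s | ⟨p, i⟩)
      · induction s using Sym2.ind with
        | _ i j =>
          show Polynomial.eval 1 (ps n P (XM n P i j)) = XM n P i j
          rw [ps_XM, Polynomial.eval_mul, Polynomial.eval_C, Polynomial.eval_X, mul_one]
      · show Polynomial.eval 1 (ps n P (zv p i)) = zv p i
        rw [ps_zv, Polynomial.eval_C]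
  have h2 : Polynomial.eval 1 (ps n P f) = f := congrArg (fun g => g f) h1
  rw [Polynomial.eval_eq_sum_range] at h2
  refine Eq.trans (Finset.sum_congr rfl fun a _ => ?_) h2
  rw [one_pow, mul_one]
  rfl

end grad

end Pool.Agent.K7.H32.ME
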