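import Pool.Agent.K7.H32.ME.Symb

set_option autoImplicit false

/-!
# Symbols at a point
-/

namespace Pool.Agent.K7.H32.ME

open MvPolynomial
open scoped Matrix

variable {n m : ℕ}

/-- evaluation at a point -/
noncomputable def ev (p : Pnm n m) : Cinf n m →ₐ[ℂ] ℂ :=
  (Pi.evalAlgHom ℂ (fun _ : Pnm n m => ℂ) p).comp (Cinf n m).val

lemma ev_apply (p : Pnm n m) (f : Cinf n m) : ev p f = (f : Pnm n m → ℂ) p := rfl

lemma Cinf_ext {f g : Cinf n m} (h : ∀ p, ev p f = ev p g) : f = g := by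
  ext p
  exact h p

/-- the linear function with gradient `ξ` vanishing at `p` -/
noncomputable def uu (ξ : Idx n m → ℂ) (p : Pnm n m) : Cinf n m :=
  (∑ i, ξ i • cX i) + algebraMap ℂ (Cinf n m) (-∑ i, ξ i * ((p : Idx n m → ℝ) i : ℂ))

lemma ev_uu (ξ : Idx n m → ℂ) (p x : Pnm n m) :
    ev x (uu ξ p) = ∑ i, ξ i * (((x : Idx n m → ℝ) i - (p : Idx n m → ℝ) i : ℝ) : ℂ) := by
  rw [uu, map_add, map_sum, AlgHom.commutes]
  simp only [map_smul, smul_eq_mul]
  have h : ∀ i, ev x (cX i) = (((x : Idx n m → ℝ) i : ℝ) : ℂ) := fun i => rfl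
  simp only [h, Complex.ofReal_sub, mul_sub, Finset.sum_sub_distrib]
  rw [sub_eq_add_neg]
  rfl

lemma ev_uu_self (ξ : Idx n m → ℂ) (p : Pnm n m) : ev p (uu ξ p) = 0 := by
  rw [ev_uu]
  simp

lemma pd_uu (ξ : Idx n m → ℂ) (p : Pnm n m) (i : Idx n m) : pd i (uu ξ p) = ξ i • 1 := by
  rw [uu, map_add, pd_C, add_zero, map_sum]
  simp only [map_smul, pd_cX]
  rw [Finset.sum_eq_single i]
  · rw [if_pos rfl]
  · intro b _ hb
    rw [if_neg hb, smul_zero]
  · simp

lemma pd_one (i : Idx n m) : pd i (1 : Cinf n m) = 0 := by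
  have := pd_C (n := n) (m := m) i 1
  rwa [map_one] at this

lemma pd_uu_pow (ξ : Idx n m → ℂ) (p : Pnm n m) (i : Idx n m) (k : ℕ) :
    pd i (uu ξ p ^ k) = ((k : ℂ) * ξ i) • uu ξ p ^ (k - 1) := by
  induction k with
  | zero => rw [pow_zero, pd_one, Nat.cast_zero, zero_mul, zero_smul]
  | succ k ih =>
    rw [pow_succ, pd_mul, ih, pd_uu, Nat.add_sub_cancel, mul_smul_comm, mul_one, mul_smul_comm]
    rcases Nat.eq_zero_or_pos k with hk | hk
    · subst hk
      simp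
    · obtain ⟨k', rfl⟩ : ∃ k', k = k' + 1 := ⟨k - 1, by omega⟩
      rw [Nat.add_sub_cancel, ← pow_succ', ← add_smul]
      congr 1
      push_cast
      ring

lemma dd_uu_pow (ξ : Idx n m → ℂ) (p : Pnm n m) (k : ℕ) (α : Idx n m →₀ ℕ) :
    dd α (uu ξ p ^ k) = (((k.descFactorial α.degree : ℕ) : ℂ) * ∏ i, ξ i ^ α i) •
      uu ξ p ^ (k - α.degree) := by
  induction α using dd_ind with
  | h0 =>
    rw [dd_zero, map_zero, Nat.descFactorial_zero]
    simp
  | h1 α i ih =>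
    rw [dd_add_single, Module.End.mul_apply, ih, map_smul, pd_uu_pow, smul_smul, map_add,
      Finsupp.degree_single, Nat.descFactorial_succ, Nat.sub_sub]
    congr 1
    have h1 : ∏ j, ξ j ^ (α + Finsupp.single i 1 : Idx n m →₀ ℕ) j = (∏ j, ξ j ^ α j) * ξ i := by
      rw [← Finset.mul_prod_erase _ _ (Finset.mem_univ i),
        ← Finset.mul_prod_erase Finset.univ (fun j => ξ j ^ α j) (Finset.mem_univ i),
        Finsupp.add_apply, Finsupp.single_eq_same, pow_succ]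
      have h2 : ∏ j ∈ Finset.univ.erase i, ξ j ^ (α + Finsupp.single i 1 : Idx n m →₀ ℕ) j =
          ∏ j ∈ Finset.univ.erase i, ξ j ^ α j := by
        refine Finset.prod_congr rfl fun j hj => ?_
        rw [Finsupp.add_apply, Finsupp.single_apply,
          if_neg (Ne.symm (Finset.ne_of_mem_erase hj)), add_zero]
      rw [h2]
      ring
    rw [h1]
    push_cast
    ring

lemma ev_Op_lt (ξ : Idx n m → ℂ) (p : Pnm n m) {d : ℕ} {T : EndC n m} (hT : HasDeg d T) :
    ev p (T (uu ξ p ^ d)) = 0 := by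
  obtain ⟨P, hP, rfl⟩ := hT
  rw [Op_sum, LinearMap.sum_apply, map_sum]
  refine Finset.sum_eq_zero fun α hα => ?_
  rw [Op_monomial]
  show ev p (coeff α P * dd α (uu ξ p ^ d)) = 0
  rw [map_mul, dd_uu_pow, map_smul, map_pow, ev_uu_self, zero_pow, smul_zero, mul_zero]
  have := hP α hα
  omega

lemma ev_Op_eq (ξ : Idx n m → ℂ) (p : Pnm n m) {d : ℕ}
    {σ : MvPolynomial (Idx n m) (Cinf n m)} (hσ : σ.IsHomogeneous d) :
    ev p (Op n m σ (uu ξ p ^ d)) =
      ((d.factorial : ℕ) : ℂ) * eval ξ (map (ev p : Cinf n m →+* ℂ) σ) := by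
  rw [Op_sum, LinearMap.sum_apply, map_sum]
  conv_rhs => rw [← support_sum_monomial_coeff σ, map_sum, map_sum, Finset.mul_sum]
  refine Finset.sum_congr rfl fun α hα => ?_
  rw [Op_monomial]
  show ev p (coeff α σ * dd α (uu ξ p ^ d)) = _
  rw [map_mul, dd_uu_pow, map_smul, map_pow, ev_uu_self, support_homog hσ hα, Nat.sub_self,
    pow_zero, Nat.descFactorial_self, map_monomial, eval_monomial, smul_eq_mul, mul_one,
    Finsupp.prod_fintype _ _ (fun _ => pow_zero _)]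
  show ev p (coeff α σ) * _ = _ * (ev p (coeff α σ) * _)
  ring

lemma sym_eval (ξ : Idx n m → ℂ) (p : Pnm n m) {d : ℕ} {T : EndC n m}
    {σ : MvPolynomial (Idx n m) (Cinf n m)} (hT : HasSym d T σ) :
    ev p (T (uu ξ p ^ d)) =
      ((d.factorial : ℕ) : ℂ) * eval ξ (map (ev p : Cinf n m →+* ℂ) σ) := by
  obtain ⟨h1, L, hL, rfl⟩ := hT
  rw [LinearMap.add_apply, map_add, ev_Op_lt ξ p hL, add_zero, ev_Op_eq ξ p h1]

/-- an operator of order at most `d` has a symbol -/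
lemma exists_sym {d : ℕ} {T : EndC n m} (hT : HasDeg (d + 1) T) : ∃ σ, HasSym d T σ := by
  obtain ⟨P, hP, rfl⟩ := hT
  refine ⟨homogeneousComponent d P, homogeneousComponent_isHomogeneous d P,
    Op n m (∑ i ∈ Finset.range d, homogeneousComponent i P),
    ⟨∑ i ∈ Finset.range d, homogeneousComponent i P, ?_, rfl⟩, ?_⟩
  · intro α hα
    classical
    obtain ⟨i, hi, h2⟩ := Finset.mem_biUnion.1 (support_sum hα)
    have h3 := support_homog (homogeneousComponent_isHomogeneous i P) h2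
    rw [h3]
    exact Finset.mem_range.1 hi
  · rw [← map_add]
    congr 1
    ext1 α
    rw [coeff_add, coeff_homogeneousComponent, coeff_sum]
    simp only [coeff_homogeneousComponent]
    rw [Finset.sum_ite_eq]
    by_cases h : α ∈ P.support
    · have h1 := hP α h
      by_cases h2 : α.degree = d
      · rw [if_pos h2, if_neg (by rw [Finset.mem_range]; omega), add_zero]
      · rw [if_neg h2, if_pos (by rw [Finset.mem_range]; omega), zero_add]
    · have h1 : coeff α P = 0 := notMem_support_iff.1 h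
      rw [h1]
      split_ifs <;> simp

/-- dual of the linear part -/
noncomputable def trA (A : Matrix (Fin n) (Fin n) ℝ) (ξ : Idx n m → ℂ) : Idx n m → ℂ :=
  fun i => ∑ j, ξ j * ((lin A (Pi.single i 1) j : ℝ) : ℂ)

lemma pull_uu (A : GL (Fin n) ℝ) (a : Matrix (Fin m) (Fin n) ℝ) (ξ : Idx n m → ℂ)
    (p : Pnm n m) : pull A a (uu ξ (act A a p)) = uu (trA (A : Matrix (Fin n) (Fin n) ℝ) ξ) p := by
  apply Cinf_ext
  intro x
  have h1 : ev x (pull A a (uu ξ (act A a p))) = ev (act A a x) (uu ξ (act A a p)) := rfl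
  rw [h1, ev_uu, ev_uu]
  have h2 : ∀ j, ((act A a x : Pnm n m) : Idx n m → ℝ) j - ((act A a p : Pnm n m) : Idx n m → ℝ) j =
      ∑ i, ((x : Idx n m → ℝ) i - (p : Idx n m → ℝ) i) *
        lin (A : Matrix (Fin n) (Fin n) ℝ) (Pi.single i 1) j := by
    intro j
    have h3 : linL (A : Matrix (Fin n) (Fin n) ℝ) ((x : Idx n m → ℝ) - (p : Idx n m → ℝ)) =
        ∑ i, ((x : Idx n m → ℝ) i - (p : Idx n m → ℝ) i) •
          lin (A : Matrix (Fin n) (Fin n) ℝ) (Pi.single i 1) := by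
      conv_lhs => rw [pi_eq_sum_univ' ((x : Idx n m → ℝ) - (p : Idx n m → ℝ)), map_sum]
      refine Finset.sum_congr rfl fun i _ => ?_
      rw [map_smul, Pi.sub_apply]
      rfl
    have h4 := congrFun h3 j
    rw [map_sub, Pi.sub_apply, Finset.sum_apply] at h4
    show aff (A : Matrix (Fin n) (Fin n) ℝ) a x j - aff (A : Matrix (Fin n) (Fin n) ℝ) a p j = _
    rw [aff_eq, aff_eq, Pi.add_apply, Pi.add_apply, add_sub_add_right_eq_sub]
    exact h4
  simp only [h2, Complex.ofReal_sum, Complex.ofReal_mul, Finset.mul_sum, trA, Finset.sum_mul]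
  rw [Finset.sum_comm]
  refine Finset.sum_congr rfl fun i _ => Finset.sum_congr rfl fun j _ => ?_
  ring

/-- covariance of the symbol -/
lemma sym_cov {T : EndC n m} (hT : T ∈ InvOp n m) {d : ℕ}
    {σ : MvPolynomial (Idx n m) (Cinf n m)} (hσ : HasSym d T σ) (A : GL (Fin n) ℝ)
    (a : Matrix (Fin m) (Fin n) ℝ) (ξ : Idx n m → ℂ) (p : Pnm n m) :
    eval ξ (map (ev (act A a p) : Cinf n m →+* ℂ) σ) =
      eval (trA (A : Matrix (Fin n) (Fin n) ℝ) ξ) (map (ev p : Cinf n m →+* ℂ) σ) := by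
  have h1 := sym_eval ξ (act A a p) hσ
  have h2 := sym_eval (trA (A : Matrix (Fin n) (Fin n) ℝ) ξ) p hσ
  have h3 : ev (act A a p) (T (uu ξ (act A a p) ^ d)) =
      ev p (T (uu (trA (A : Matrix (Fin n) (Fin n) ℝ) ξ) p ^ d)) := by
    have h4 : ev (act A a p) (T (uu ξ (act A a p) ^ d)) =
        ev p (pull A a (T (uu ξ (act A a p) ^ d))) := rfl
    have h5 : pull A a (T (uu ξ (act A a p) ^ d)) = T (pull A a (uu ξ (act A a p) ^ d)) := by
      have h6 := LinearMap.congr_fun (hT.2 A a) (uu ξ (act A a p) ^ d)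
      exact h6.symm
    have h7 : ∀ (f : Cinf n m) (k : ℕ), pull A a (f ^ k) = pull A a f ^ k := by
      intro f k
      induction k with
      | zero => rfl
      | succ k ih => rw [pow_succ, pull_mul_apply, ih, pow_succ]
    rw [h4, h5, h7, pull_uu]
  rw [h1, h2] at h3
  exact mul_left_cancel₀ (by exact_mod_cast d.factorial_ne_zero) h3

/-- the base point `(I, 0)` -/
noncomputable def oo (n m : ℕ) : Pnm n m := ⟨mk 1 0, by
  show (yM (mk (1 : Matrix (Fin n) (Fin n) ℝ) 0)).PosDef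
  rw [yM_mk (m := m) _ (fun i j => by rw [Matrix.one_apply, Matrix.one_apply]; simp only [eq_comm])]
  exact Matrix.PosDef.one⟩

lemma yM_oo : yM ((oo n m : Pnm n m) : Idx n m → ℝ) = 1 :=
  yM_mk _ (fun i j => by rw [Matrix.one_apply, Matrix.one_apply]; simp only [eq_comm])

lemma vM_oo : vM ((oo n m : Pnm n m) : Idx n m → ℝ) = 0 := vM_mk _ _

lemma mk_yM_vM (x : Idx n m → ℝ) : mk (yM x) (vM x) = x := by
  funext i
  rcases i with s | ⟨k, l⟩
  · induction s using Sym2.ind with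
    | _ i j => rw [mk_inl _ _ (yM_symm x)]; rfl
  · rfl

open scoped MatrixOrder in
lemma exists_sq {Y : Matrix (Fin n) (Fin n) ℝ} (hY : Y.PosDef) :
    ∃ A : GL (Fin n) ℝ, (A : Matrix (Fin n) (Fin n) ℝ) * (A : Matrix (Fin n) (Fin n) ℝ)ᵀ = Y := by
  obtain ⟨y, hy, rfl⟩ := CStarAlgebra.isStrictlyPositive_iff_eq_star_mul_self.mp
    hY.isStrictlyPositive
  obtain ⟨u, hu⟩ := hy
  refine ⟨⟨(u : Matrix (Fin n) (Fin n) ℝ)ᵀ, ((u⁻¹ : GL (Fin n) ℝ) : Matrix (Fin n) (Fin n) ℝ)ᵀ,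
    ?_, ?_⟩, ?_⟩
  · rw [← Matrix.transpose_mul, Units.inv_mul, Matrix.transpose_one]
  · rw [← Matrix.transpose_mul, Units.mul_inv, Matrix.transpose_one]
  · show (u : Matrix (Fin n) (Fin n) ℝ)ᵀ * (u : Matrix (Fin n) (Fin n) ℝ)ᵀᵀ = _
    rw [Matrix.transpose_transpose, hu, Matrix.star_eq_conjTranspose,
      Matrix.conjTranspose_eq_transpose_of_trivial]

/-- the action is transitive -/
lemma exists_act (p : Pnm n m) : ∃ A a, act A a (oo n m) = p := by
  obtain ⟨A, hA⟩ := exists_sq p.2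
  refine ⟨A, vM (p : Idx n m → ℝ) * ((A⁻¹ : GL (Fin n) ℝ) : Matrix (Fin n) (Fin n) ℝ)ᵀ, ?_⟩
  apply Subtype.ext
  show aff (A : Matrix (Fin n) (Fin n) ℝ) _ (oo n m : Idx n m → ℝ) = p
  rw [aff, yM_oo, vM_oo, Matrix.mul_one, hA, zero_add, Matrix.mul_assoc, ← Matrix.transpose_mul,
    Units.mul_inv, Matrix.transpose_one, Matrix.mul_one, mk_yM_vM]

/-- an invariant operator with vanishing symbol at the base point has lower order -/
lemma deg_lower {T : EndC n m} (hT : T ∈ InvOp n m) {d : ℕ}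
    {σ : MvPolynomial (Idx n m) (Cinf n m)} (hσ : HasSym d T σ)
    (h0 : map (ev (oo n m) : Cinf n m →+* ℂ) σ = 0) : HasDeg d T := by
  have h1 : ∀ p : Pnm n m, map (ev p : Cinf n m →+* ℂ) σ = 0 := by
    intro p
    obtain ⟨A, a, rfl⟩ := exists_act p
    apply MvPolynomial.funext
    intro ξ
    rw [sym_cov hT hσ, h0, map_zero, map_zero]
  have h2 : σ = 0 := by
    ext1 α
    apply Cinf_ext
    intro p
    have h3 := congrArg (coeff α) (h1 p)
    rw [coeff_map, coeff_zero] at h3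
    rw [coeff_zero, map_zero]
    exact h3
  obtain ⟨_, L, hL, h3⟩ := hσ
  rw [h3, h2, map_zero, zero_add]
  exact hL

end Pool.Agent.K7.H32.ME
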