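import Pool.Agent.K7.H32.ME.Redu
import Pool.Agent.K7.H32.ME.Top
import Pool.Agent.K7.H32.ME.Cov

set_option autoImplicit false
set_option linter.unusedSectionVars false

/-!
# Generators of the algebra of invariant differential operators
-/

namespace Pool.Agent.K7.H32.ME

open MvPolynomial Matrix

variable {n m : ℕ}

/-- symbols with smooth coefficients -/
abbrev SP (n m : ℕ) := MvPolynomial (Idx n m) (Cinf n m)

/-- the symbol at the base point -/
noncomputable def mp (n m : ℕ) : SP n m →+* Rg n (Fin m) :=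
  MvPolynomial.map (ev (oo n m) : Cinf n m →+* ℂ)

section symm
variable {κ μ ν : Type} [Fintype κ] [Fintype μ] [Fintype ν] [DecidableEq κ] [DecidableEq μ]
  [DecidableEq ν]

/-- symbols of operator matrices -/
def SymM (d : ℕ) (M : Matrix κ μ (EndC n m)) (S : Matrix κ μ (SP n m)) : Prop :=
  ∀ i j, HasSym d (M i j) (S i j)

lemma symM_mul {d e : ℕ} {M : Matrix κ μ (EndC n m)} {S : Matrix κ μ (SP n m)}
    {N : Matrix μ ν (EndC n m)} {T : Matrix μ ν (SP n m)} (h1 : SymM d M S) (h2 : SymM e N T) :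
    SymM (d + e) (M * N) (S * T) := by
  intro i j
  rw [mul_apply, mul_apply]
  exact sym_sum _ fun k _ => sym_mul (h1 i k) (h2 k j)

lemma symM_pow {M : Matrix κ κ (EndC n m)} {S : Matrix κ κ (SP n m)}
    (h1 : SymM 1 M S) (k : ℕ) : SymM k (M ^ k) (S ^ k) := by
  induction k with
  | zero =>
    intro i j
    rw [pow_zero, pow_zero, one_apply, one_apply]
    split_ifs
    · exact sym_one
    · exact sym_zero 0
  | succ k ih =>
    rw [pow_succ, pow_succ]
    exact symM_mul ih h1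

end symm

lemma sym_csmul {d : ℕ} {T : EndC n m} {σ : SP n m} (c : ℂ) (h : HasSym d T σ) :
    HasSym d (c • T) (C (algebraMap ℂ (Cinf n m) c) * σ) := by
  have h1 := sym_smul (algebraMap ℂ (Cinf n m) c) h
  have h2 : (algebraMap ℂ (Cinf n m) c) • T = c • T := by
    refine LinearMap.ext fun f => ?_
    show algebraMap ℂ (Cinf n m) c * T f = c • T f
    rw [Algebra.smul_def]
  rwa [h2] at h1

/-- the symbol of `Y` -/
noncomputable def sY (n m : ℕ) : Matrix (Fin n) (Fin n) (SP n m) :=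
  Matrix.of fun i j => C (cX (Sum.inl s(i, j)))

/-- the symbol of `∂/∂Y` -/
noncomputable def sdY (n m : ℕ) : Matrix (Fin n) (Fin n) (SP n m) :=
  Matrix.of fun i j => C (algebraMap ℂ (Cinf n m) (wt i j)) * X (Sum.inl s(i, j))

/-- the symbol of `∂/∂V` -/
noncomputable def sdV (n m : ℕ) : Matrix (Fin m) (Fin n) (SP n m) :=
  Matrix.of fun k l => X (Sum.inr (k, l))

/-- the symbol of `2 Y ∂/∂Y` -/
noncomputable def sE (n m : ℕ) : Matrix (Fin n) (Fin n) (SP n m) :=
  Matrix.of fun i j => C (algebraMap ℂ (Cinf n m) 2) * (sY n m * sdY n m) i j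

lemma sym_Y : SymM 0 (opY n m) (sY n m) := fun _ _ => sym_mulOp _

lemma sym_dY : SymM 1 (opdY n m) (sdY n m) := fun i j => by
  rw [opdY_apply]
  exact sym_csmul _ (sym_pd' _)

lemma sym_V : SymM 1 (opdV n m) (sdV n m) := fun _ _ => sym_pd' _

lemma sym_Vt : SymM 1 (opdV n m)ᵀ (sdV n m)ᵀ := fun _ _ => sym_pd' _

lemma sym_E : SymM 1 (opE n m) (sE n m) := fun i j => by
  have h := symM_mul (sym_Y (n := n) (m := m)) sym_dY i j
  rw [zero_add] at h
  rw [opE, Matrix.smul_apply]
  exact sym_csmul 2 h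

lemma sym_D (j : ℕ) : HasSym j (opD n m j) (trace (sE n m ^ j)) := by
  rw [opD, trace, trace]
  exact sym_sum _ fun i _ => symM_pow sym_E j i i

lemma sym_O (k : ℕ) (p q : Fin m) : HasSym (k + 2) (opO n m k p q)
    ((sdV n m * sE n m ^ k * sY n m * (sdV n m)ᵀ) p q) := by
  have h := symM_mul (symM_mul (symM_mul (sym_V (n := n) (m := m)) (symM_pow sym_E k)) sym_Y)
    sym_Vt p q
  rw [show 1 + k + 0 + 1 = k + 2 by ring] at h
  exact h

/-- the rescaled generic symmetric matrix -/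
noncomputable def E0 (n m : ℕ) : Matrix (Fin n) (Fin n) (Rg n (Fin m)) :=
  Matrix.of fun i j => (2 * wt i j) • XM n (Fin m) i j

/-- its inverse rescaling -/
noncomputable def E1 (n m : ℕ) : Matrix (Fin n) (Fin n) (Rg n (Fin m)) :=
  Matrix.of fun i j => (2 * wt i j)⁻¹ • XM n (Fin m) i j

lemma E0_symm (i j : Fin n) : E0 n m i j = E0 n m j i := by
  simp only [E0, Matrix.of_apply]
  rw [wt_symm, XM_symm]

lemma E1_symm (i j : Fin n) : E1 n m i j = E1 n m j i := by
  simp only [E1, Matrix.of_apply]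
  rw [wt_symm, XM_symm]

lemma wt_ne (i j : Fin n) : (2 * wt i j : ℂ) ≠ 0 := by
  unfold wt
  split_ifs <;> norm_num

/-- rescaling -/
noncomputable def th (n m : ℕ) : Rg n (Fin m) →ₐ[ℂ] Rg n (Fin m) := sb (E0 n m) zv

/-- inverse rescaling -/
noncomputable def ti (n m : ℕ) : Rg n (Fin m) →ₐ[ℂ] Rg n (Fin m) := sb (E1 n m) zv

lemma th_XM (i j : Fin n) : th n m (XM n (Fin m) i j) = E0 n m i j := by
  rw [th, sb_XM E0_symm]

lemma th_zv (p : Fin m) (i : Fin n) : th n m (zv p i) = zv p i := by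
  rw [th, sb_zv]

lemma ti_XM (i j : Fin n) : ti n m (XM n (Fin m) i j) = E1 n m i j := by
  rw [ti, sb_XM E1_symm]

lemma ti_zv (p : Fin m) (i : Fin n) : ti n m (zv p i) = zv p i := by
  rw [ti, sb_zv]

lemma th_ti (f : Rg n (Fin m)) : th n m (ti n m f) = f := by
  have h : (th n m).comp (ti n m) = AlgHom.id ℂ _ := by
    apply map_ext
    · intro i j
      rw [AlgHom.comp_apply, ti_XM, AlgHom.id_apply]
      simp only [E1, Matrix.of_apply]
      rw [map_smul, th_XM]
      simp only [E0, Matrix.of_apply]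
      rw [smul_smul, inv_mul_cancel₀ (wt_ne i j), one_smul]
    · intro p i
      rw [AlgHom.comp_apply, ti_zv, th_zv, AlgHom.id_apply]
  exact congrArg (fun g => g f) h

lemma mp_C (a : Cinf n m) : mp n m (C a) = C (ev (oo n m) a) := by
  rw [mp, map_C]
  rfl

lemma mp_X (i : Idx n m) : mp n m (X i) = X i := by
  rw [mp, map_X]

lemma mp_sY : (sY n m).map (mp n m) = 1 := by
  ext1 i j
  rw [Matrix.map_apply]
  simp only [sY, Matrix.of_apply]
  rw [mp_C]
  have h : ev (oo n m) (cX (Sum.inl s(i, j))) = ((yM ((oo n m : Pnm n m) : Idx n m → ℝ) i j : ℝ) : ℂ) :=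
    rfl
  rw [h, yM_oo, one_apply, one_apply]
  split_ifs
  · rw [Complex.ofReal_one, C_1]
  · rw [Complex.ofReal_zero, C_0]

/-- the generic vectors as a matrix -/
noncomputable def zM (n m : ℕ) : Matrix (Fin m) (Fin n) (Rg n (Fin m)) :=
  Matrix.of fun k l => zv k l

lemma mp_sdV : (sdV n m).map (mp n m) = zM n m := by
  ext1 k l
  rw [Matrix.map_apply]
  simp only [sdV, Matrix.of_apply]
  rw [mp_X]
  rfl

lemma mp_sE : (sE n m).map (mp n m) = E0 n m := by
  ext1 i j
  have h : (sY n m * sdY n m).map (mp n m) = (sdY n m).map (mp n m) := by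
    rw [Matrix.map_mul, mp_sY, Matrix.one_mul]
  have h2 := congrFun (congrFun h i) j
  rw [Matrix.map_apply, Matrix.map_apply] at h2
  rw [Matrix.map_apply]
  simp only [sE, Matrix.of_apply]
  rw [map_mul, h2]
  simp only [sdY, Matrix.of_apply, E0]
  rw [map_mul, mp_C, mp_C, mp_X, AlgHom.commutes, AlgHom.commutes, ← mul_assoc, ← C_mul, ← C_mul']
  rfl

lemma mp_D (j : ℕ) : mp n m (trace (sE n m ^ j)) = th n m (trace (XM n (Fin m) ^ j)) := by
  rw [map_trace' (th n m) th_XM]
  have h := Matrix.map_pow (sE n m) (mp n m) j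
  rw [mp_sE] at h
  rw [← h, trace, trace, map_sum]
  rfl

lemma mp_O (k : ℕ) (p q : Fin m) :
    mp n m ((sdV n m * sE n m ^ k * sY n m * (sdV n m)ᵀ) p q) = th n m (bl k p q) := by
  rw [map_bl (th n m) th_XM th_zv]
  have h1 : (sdV n m * sE n m ^ k * sY n m * (sdV n m)ᵀ).map (mp n m) =
      zM n m * E0 n m ^ k * (zM n m)ᵀ := by
    rw [Matrix.map_mul, Matrix.map_mul, Matrix.map_mul, mp_sY, Matrix.map_pow, mp_sE, mp_sdV,
      Matrix.mul_one, transpose_map, mp_sdV]
  have h2 := congrFun (congrFun h1 p) q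
  rw [Matrix.map_apply] at h2
  rw [h2, Matrix.mul_assoc, mul_apply]
  rfl

/-- evaluation after an algebra endomorphism -/
lemma eval_hom (F : Rg n (Fin m) →ₐ[ℂ] Rg n (Fin m)) (ζ : Idx n m → ℂ) (f : Rg n (Fin m)) :
    eval ζ (F f) = eval (fun v => eval ζ (F (X v))) f := by
  induction f using MvPolynomial.induction_on with
  | C a =>
    rw [← MvPolynomial.algebraMap_eq, AlgHom.commutes, MvPolynomial.algebraMap_eq, eval_C, eval_C]
  | add f g hf hg => rw [map_add, map_add, map_add, hf, hg]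
  | mul_X f v hf => rw [map_mul, map_mul, map_mul, hf, eval_X]

lemma trA_eq (A : Matrix (Fin n) (Fin n) ℝ) (ζ : Idx n m → ℂ) :
    (fun v => eval ζ (ph (cc A) (ti n m (X v)))) = trA A (fun v => eval ζ (ti n m (X v))) := by
  funext v
  rcases v with s | ⟨p, l⟩
  · induction s using Sym2.ind with
    | _ a b =>
      have h1 : ti n m (X (Sum.inl s(a, b))) = E1 n m a b := ti_XM a b
      rw [h1, trA, Fintype.sum_sum_type]
      have h2 : ∑ q : Fin m × Fin n, eval ζ (ti n m (X (Sum.inr q))) *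
          ((lin A (Pi.single (Sum.inl s(a, b)) 1 : Idx n m → ℝ) (Sum.inr q) : ℝ) : ℂ) = 0 := by
        refine Finset.sum_eq_zero fun q _ => ?_
        rw [lin_inl_inr, Complex.ofReal_zero, mul_zero]
      rw [h2, add_zero, sum_sym2]
      have hw : (2 * wt a b : ℂ) ≠ 0 := wt_ne a b
      apply mul_left_cancel₀ hw
      have h3 : ∀ c d : Fin n, eval ζ (ti n m (X (Sum.inl s(c, d)))) =
          (2 * wt c d)⁻¹ * ζ (Sum.inl s(c, d)) := by
        intro c d
        have h4 : ti n m (X (Sum.inl s(c, d))) = E1 n m c d := ti_XM c d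
        rw [h4]
        simp only [E1, Matrix.of_apply, smul_eval, XM_apply, eval_X]
      have hL : (2 * wt a b : ℂ) * eval ζ (ph (cc A) (E1 n m a b)) =
          ∑ c, ∑ d, ((A c a : ℂ) * (A d b : ℂ)) * ζ (Sum.inl s(c, d)) := by
        simp only [E1, Matrix.of_apply]
        rw [map_smul, smul_eval, ← mul_assoc, mul_inv_cancel₀ hw, one_mul, ph_XM, map_sum]
        refine Finset.sum_congr rfl fun c _ => ?_
        rw [map_sum]
        refine Finset.sum_congr rfl fun d _ => ?_
        rw [smul_eval, XM_apply, eval_X]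
        rfl
      rw [hL, Finset.mul_sum]
      have hR : ∀ c d : Fin n, (2 * wt a b : ℂ) * (wt c d • (eval ζ (ti n m (X (Sum.inl s(c, d)))) *
          ((lin A (Pi.single (Sum.inl s(a, b)) 1 : Idx n m → ℝ) (Sum.inl s(c, d)) : ℝ) : ℂ))) =
          ((A c a : ℂ) * (A d b : ℂ)) * ζ (Sum.inl s(c, d)) / 2 +
            ((A d a : ℂ) * (A c b : ℂ)) * ζ (Sum.inl s(d, c)) / 2 := by
        intro c d
        have h5 := lin_inl (m := m) A a b c d
        have hw' : (2 * wt c d : ℂ) ≠ 0 := wt_ne c d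
        rw [h3, smul_eq_mul]
        have e : (2 * wt a b : ℂ) * (wt c d * ((2 * wt c d)⁻¹ * ζ (Sum.inl s(c, d)) *
            ((lin A (Pi.single (Sum.inl s(a, b)) 1 : Idx n m → ℝ) (Sum.inl s(c, d)) : ℝ) : ℂ))) =
            ((2 * wt c d) * (2 * wt c d)⁻¹) * ζ (Sum.inl s(c, d)) *
            (wt a b * ((lin A (Pi.single (Sum.inl s(a, b)) 1 : Idx n m → ℝ)
              (Sum.inl s(c, d)) : ℝ) : ℂ)) := by ring
        rw [e, h5, mul_inv_cancel₀ hw', Sym2.eq_swap (a := d) (b := c)]
        push_cast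
        ring
      simp only [Finset.mul_sum, hR, Finset.sum_add_distrib]
      rw [Finset.sum_comm (f := fun c d => ((A d a : ℂ) * (A c b : ℂ)) * ζ (Sum.inl s(d, c)) / 2),
        ← Finset.sum_add_distrib]
      refine Finset.sum_congr rfl fun c _ => ?_
      rw [← Finset.sum_add_distrib]
      refine Finset.sum_congr rfl fun d _ => ?_
      ring
  · have h1 : ti n m (X (Sum.inr (p, l))) = zv p l := ti_zv p l
    rw [h1, trA, Fintype.sum_sum_type, Finset.sum_eq_zero, zero_add, Fintype.sum_prod_type,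
      Finset.sum_eq_single p, ph_zv, map_sum]
    · refine Finset.sum_congr rfl fun c _ => ?_
      have h2 : ti n m (X (Sum.inr (p, c))) = zv p c := ti_zv p c
      rw [h2, lin_inr, if_pos rfl, smul_eval, mul_comm]
      rfl
    · intro b _ hb
      refine Finset.sum_eq_zero fun c _ => ?_
      rw [lin_inr, if_neg hb, Complex.ofReal_zero, mul_zero]
    · simp
    · intro s _
      rw [lin_inr_inl, Complex.ofReal_zero, mul_zero]

/-- the rescaled symbol at the base point is invariant -/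
lemma symbol_inv {T : EndC n m} (hT : T ∈ InvOp n m) {d : ℕ} {σ : SP n m} (hσ : HasSym d T σ) :
    ∀ k ∈ Orth n, ph k (ti n m (mp n m σ)) = ti n m (mp n m σ) := by
  rintro k ⟨k₀, hk, rfl⟩
  have hk' : k₀ * k₀ᵀ = 1 := mul_eq_one_comm.1 hk
  set A : GL (Fin n) ℝ := ⟨k₀, k₀ᵀ, hk', hk⟩ with hA
  have hoo : act A 0 (oo n m) = oo n m := by
    apply Subtype.ext
    show aff k₀ 0 ((oo n m : Pnm n m) : Idx n m → ℝ) = _
    rw [aff, yM_oo, vM_oo, Matrix.mul_one, hk', add_zero, Matrix.zero_mul]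
    rfl
  apply MvPolynomial.funext
  intro ζ
  have e : (k₀.map (fun x : ℝ => (x : ℂ))) = cc k₀ := rfl
  rw [e]
  have h1 : eval ζ (ph (cc k₀) (ti n m (mp n m σ))) =
      eval (fun v => eval ζ (ph (cc k₀) (ti n m (X v)))) (mp n m σ) :=
    eval_hom ((ph (cc k₀)).comp (ti n m)) ζ (mp n m σ)
  rw [h1, trA_eq, eval_hom (ti n m) ζ]
  have h2 := sym_cov hT hσ A 0 (fun v => eval ζ (ti n m (X v))) (oo n m)
  rw [hoo] at h2
  exact h2.symm

/-- the generators -/
def gens (n m : ℕ) : Set (EndC n m) :=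
  {T | ∃ j, 1 ≤ j ∧ j ≤ n ∧ T = opD n m j} ∪
    {T | ∃ k, ∃ p q : Fin m, k < n ∧ p ≤ q ∧ T = opO n m k p q}

lemma gens_le : Algebra.adjoin ℂ (gens n m) ≤ InvOp n m := by
  refine Algebra.adjoin_le ?_
  rintro T (⟨j, _, _, rfl⟩ | ⟨k, p, q, _, _, rfl⟩)
  · exact opD_mem j
  · exact opO_mem k p q

/-- every standard invariant is the symbol of a polynomial in the generators -/
lemma lift {f : Rg n (Fin m)} (hf : f ∈ Alg n (Fin m)) {d : ℕ} (hd : f.IsHomogeneous d) :
    ∃ S ∈ Algebra.adjoin ℂ (gens n m), ∃ σ, HasSym d S σ ∧ mp n m σ = th n m f := by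
  refine graded (Q := fun d f => ∃ S ∈ Algebra.adjoin ℂ (gens n m), ∃ σ,
    HasSym d S σ ∧ mp n m σ = th n m f) ?_ ?_ ?_ ?_ ?_ ?_ ?_ hf hd
  · intro d
    exact ⟨0, Subalgebra.zero_mem _, 0, sym_zero d, by rw [map_zero, map_zero]⟩
  · rintro d f g ⟨S, hS, σ, h1, h2⟩ ⟨S', hS', σ', h1', h2'⟩
    exact ⟨S + S', Subalgebra.add_mem _ hS hS', σ + σ', sym_add h1 h1', by
      rw [map_add, map_add, h2, h2']⟩
  · rintro d c f ⟨S, hS, σ, h1, h2⟩
    refine ⟨c • S, Subalgebra.smul_mem _ hS c, _, sym_csmul c h1, ?_⟩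
    rw [map_mul, mp_C, AlgHom.commutes, h2, map_smul, ← C_mul']
    rfl
  · exact ⟨1, Subalgebra.one_mem _, 1, sym_one, by rw [map_one, map_one]⟩
  · rintro d e f g ⟨S, hS, σ, h1, h2⟩ ⟨S', hS', σ', h1', h2'⟩
    exact ⟨S * S', Subalgebra.mul_mem _ hS hS', σ * σ', sym_mul h1 h1', by
      rw [map_mul, map_mul, h2, h2']⟩
  · intro j h1 h2
    exact ⟨opD n m j, Algebra.subset_adjoin (Or.inl ⟨j, h1, h2, rfl⟩), _, sym_D j, mp_D j⟩
  · intro k p q hk hpq
    exact ⟨opO n m k p q, Algebra.subset_adjoin (Or.inr ⟨k, p, q, hk, hpq, rfl⟩), _, sym_O k p q,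
      mp_O k p q⟩

lemma ti_homog {d : ℕ} {f : Rg n (Fin m)} (hf : f.IsHomogeneous d) :
    (ti n m f).IsHomogeneous d := by
  have h1 : ∀ v : Idx n m, (ti n m (X v)).IsHomogeneous 1 := by
    rintro (s | ⟨p, l⟩)
    · induction s using Sym2.ind with
      | _ a b =>
        have h1 : ti n m (X (Sum.inl s(a, b))) = E1 n m a b := ti_XM a b
        rw [h1]
        simp only [E1, Matrix.of_apply]
        rw [← C_mul']
        exact (XM_homog a b).C_mul _
    · have h1 : ti n m (X (Sum.inr (p, l))) = zv p l := ti_zv p l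
      rw [h1]
      exact zv_homog p l
  have h2 : ti n m = aeval fun v => ti n m (X v) := (aeval_unique _)
  have h3 := hf.aeval (fun v => ti n m (X v)) h1
  rw [one_mul, ← h2] at h3
  exact h3

/-- **Main theorem**: the operators `D_j` and `Ω^{(k)}_{pq}` generate the algebra of the invariant
differential operators. -/
theorem main (hn : 0 < n) : Algebra.adjoin ℂ (gens n m) = InvOp n m := by
  refine le_antisymm gens_le ?_
  have key : ∀ (d : ℕ) (T : EndC n m), T ∈ InvOp n m → HasDeg d T →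
      T ∈ Algebra.adjoin ℂ (gens n m) := by
    intro d
    induction d with
    | zero =>
      rintro T _ ⟨P, hP, rfl⟩
      have : P = 0 := by
        rw [← support_eq_empty, Finset.eq_empty_iff_forall_notMem]
        intro α hα
        exact absurd (hP α hα) (Nat.not_lt_zero _)
      rw [this, map_zero]
      exact Subalgebra.zero_mem _
    | succ d ih =>
      intro T hT hd
      obtain ⟨σ, hσ⟩ := exists_sym hd
      have h1 : (mp n m σ).IsHomogeneous d := hσ.1.map _
      have h2 : ti n m (mp n m σ) ∈ Alg n (Fin m) := fft hn (Fin m) _ (symbol_inv hT hσ)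
      obtain ⟨S, hS, τ, hτ, h3⟩ := lift h2 (ti_homog h1)
      rw [th_ti] at h3
      have h4 : HasSym d (T + (-1 : ℂ) • S) (σ + C (algebraMap ℂ (Cinf n m) (-1)) * τ) :=
        sym_add hσ (sym_csmul (-1) hτ)
      have h5 : T + (-1 : ℂ) • S ∈ InvOp n m :=
        (InvOp n m).add_mem hT ((InvOp n m).smul_mem (gens_le hS) _)
      have h6 : mp n m (σ + C (algebraMap ℂ (Cinf n m) (-1)) * τ) = 0 := by
        rw [map_add, map_mul, mp_C, AlgHom.commutes, h3]
        show mp n m σ + C (-1 : ℂ) * mp n m σ = 0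
        rw [C_neg, C_1]
        ring
      have h7 := ih _ h5 (deg_lower h5 h4 h6)
      have h8 : T = (T + (-1 : ℂ) • S) + S := by
        refine LinearMap.ext fun f => ?_
        show T f = (T f + (-1 : ℂ) • S f) + S f
        rw [neg_smul, one_smul, neg_add_cancel_right]
      rw [h8]
      exact Subalgebra.add_mem _ h7 hS
  intro T hT
  obtain ⟨d, hd⟩ := diffOp_deg hT.1
  exact key d T hT hd

end Pool.Agent.K7.H32.ME
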