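import Pool.Agent.K7.H32.ME.Inv

set_option autoImplicit false

/-!
# Polarisation and contraction
-/

namespace Pool.Agent.K7.H32.ME

open MvPolynomial Matrix

variable {n : ℕ} {P : Type}

lemma der_smul (D : Derivation ℂ (Rg n P) (Rg n P)) (c : ℂ) (f : Rg n P) :
    D (c • f) = c • D f := D.map_smul c f

/-! ### the action of matrices -/

section act

/-- the transformed matrix `kᵀ X k` -/
noncomputable def kM (k : Matrix (Fin n) (Fin n) ℂ) (M : Matrix (Fin n) (Fin n) (Rg n P)) :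
    Matrix (Fin n) (Fin n) (Rg n P) :=
  Matrix.of fun i j => ∑ a, ∑ b, (k a i * k b j) • M a b

/-- the transformed vector `z k` -/
noncomputable def kz (k : Matrix (Fin n) (Fin n) ℂ) (z : Fin n → Rg n P) : Fin n → Rg n P :=
  fun i => ∑ a, k a i • z a

lemma kM_symm (k : Matrix (Fin n) (Fin n) ℂ) {M : Matrix (Fin n) (Fin n) (Rg n P)}
    (hM : ∀ i j, M i j = M j i) (i j : Fin n) : kM k M i j = kM k M j i := by
  simp only [kM, Matrix.of_apply]
  rw [Finset.sum_comm]
  refine Finset.sum_congr rfl fun a _ => Finset.sum_congr rfl fun b _ => ?_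
  rw [hM, mul_comm]

/-- the action -/
noncomputable def ph (k : Matrix (Fin n) (Fin n) ℂ) : Rg n P →ₐ[ℂ] Rg n P :=
  sb (kM k (XM n P)) (fun p => kz k (zv p))

lemma ph_XM (k : Matrix (Fin n) (Fin n) ℂ) (i j : Fin n) :
    ph k (XM n P i j) = ∑ a, ∑ b, (k a i * k b j) • XM n P a b := by
  rw [ph, sb_XM (kM_symm k XM_symm)]
  rfl

lemma ph_zv (k : Matrix (Fin n) (Fin n) ℂ) (p : P) (i : Fin n) :
    ph k (zv p i : Rg n P) = ∑ a, k a i • zv p a := by
  rw [ph, sb_zv]
  rfl

lemma ph_cmp (k : Matrix (Fin n) (Fin n) ℂ) (f : Rg n P) (a : ℕ) :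
    ph k (cmp a f) = cmp a (ph k f) := by
  have h : (Polynomial.mapAlgHom (ph k)).comp (ps n P) = (ps n P).comp (ph k) := by
    apply map_ext
    · intro i j
      simp only [AlgHom.comp_apply, ps_XM, ph_XM, map_sum, map_smul,
        Polynomial.coe_mapAlgHom, Polynomial.map_mul, Polynomial.map_C, Polynomial.map_X,
        RingHom.coe_coe]
      rw [Finset.sum_mul]
      refine Finset.sum_congr rfl fun a _ => ?_
      rw [Finset.sum_mul]
      refine Finset.sum_congr rfl fun b _ => ?_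
      rw [← smul_mul_assoc, Polynomial.smul_C]
    · intro p i
      simp only [AlgHom.comp_apply, ps_zv, ph_zv, map_sum, map_smul,
        Polynomial.coe_mapAlgHom, Polynomial.map_C, RingHom.coe_coe]
      refine Finset.sum_congr rfl fun a _ => ?_
      rw [Polynomial.smul_C]
  have h2 := congrArg (fun g => (g f).coeff a) h
  simp only [AlgHom.comp_apply, Polynomial.coe_mapAlgHom, Polynomial.coeff_map,
    RingHom.coe_coe] at h2
  exact h2

end act

/-! ### new vectors -/

section pol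

/-- the inclusion -/
noncomputable def sg : Rg n P →ₐ[ℂ] Rg n (Bool ⊕ P) := sb (XM n (Bool ⊕ P)) (fun p => zv (Sum.inr p))

lemma sg_XM (i j : Fin n) : sg (XM n P i j) = XM n (Bool ⊕ P) i j := by
  rw [sg, sb_XM XM_symm]

lemma sg_zv (p : P) (i : Fin n) : sg (zv p i : Rg n P) = zv (Sum.inr p) i := by
  rw [sg, sb_zv]

/-- the values of the two new vectors are zero -/
noncomputable def ew : Bool ⊕ P → Fin n → Rg n P
  | Sum.inl _ => 0
  | Sum.inr p => zv p

/-- the projection -/
noncomputable def ep : Rg n (Bool ⊕ P) →ₐ[ℂ] Rg n P := sb (XM n P) ew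

lemma ep_XM (i j : Fin n) : ep (XM n (Bool ⊕ P) i j) = XM n P i j := by
  rw [ep, sb_XM XM_symm]

lemma ep_zv (q : Bool ⊕ P) (i : Fin n) : ep (zv q i : Rg n (Bool ⊕ P)) = ew q i := by
  rw [ep, sb_zv]

lemma ep_sg (f : Rg n P) : ep (sg f) = f := by
  have h : (ep (n := n) (P := P)).comp sg = AlgHom.id ℂ _ := by
    apply map_ext
    · intro i j
      rw [AlgHom.comp_apply, sg_XM, ep_XM, AlgHom.id_apply]
    · intro p i
      rw [AlgHom.comp_apply, sg_zv, ep_zv, AlgHom.id_apply]
      rfl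
  exact congrArg (fun g => g f) h

/-- first new vector -/
noncomputable def uv : Fin n → Rg n (Bool ⊕ P) := zv (Sum.inl false)
/-- second new vector -/
noncomputable def vv : Fin n → Rg n (Bool ⊕ P) := zv (Sum.inl true)

/-- the symmetric matrix `u vᵀ + v uᵀ` -/
noncomputable def Wm (n : ℕ) (P : Type) : Matrix (Fin n) (Fin n) (Rg n (Bool ⊕ P)) :=
  Matrix.of fun i j => uv i * vv j + uv j * vv i

lemma Wm_apply (i j : Fin n) : Wm n P i j = uv i * vv j + uv j * vv i := rfl

lemma Wm_symm (i j : Fin n) : Wm n P i j = Wm n P j i := by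
  rw [Wm_apply, Wm_apply, add_comm]

/-- the polarisation -/
noncomputable def Dd (n : ℕ) (P : Type) :
    Derivation ℂ (Rg n (Bool ⊕ P)) (Rg n (Bool ⊕ P)) := dv (Wm n P) 0

lemma Dd_XM (i j : Fin n) : Dd n P (XM n (Bool ⊕ P) i j) = Wm n P i j := by
  rw [Dd, dv_XM Wm_symm]

lemma Dd_zv (q : Bool ⊕ P) (i : Fin n) : Dd n P (zv q i) = 0 := by
  rw [Dd, dv_zv]
  rfl

lemma ph_Wm (k : Matrix (Fin n) (Fin n) ℂ) (i j : Fin n) :
    ph k (Wm n P i j) = ∑ a, ∑ b, (k a i * k b j) • Wm n P a b := by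
  rw [Wm_apply, map_add, map_mul, map_mul, uv, vv, ph_zv, ph_zv, ph_zv, ph_zv]
  simp only [Wm_apply, smul_add, Finset.sum_add_distrib]
  congr 1
  · rw [Finset.sum_mul_sum]
    refine Finset.sum_congr rfl fun a _ => Finset.sum_congr rfl fun b _ => ?_
    rw [smul_mul_smul_comm]
    rfl
  · rw [Finset.sum_mul_sum, Finset.sum_comm]
    refine Finset.sum_congr rfl fun a _ => Finset.sum_congr rfl fun b _ => ?_
    rw [smul_mul_smul_comm, mul_comm (k b j)]
    rfl

lemma ph_Dd (k : Matrix (Fin n) (Fin n) ℂ) (F : Rg n (Bool ⊕ P)) :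
    ph k (Dd n P F) = Dd n P (ph k F) := by
  induction F using ind with
  | hC c =>
    have h : ph k (C c : Rg n (Bool ⊕ P)) = C c := by
      rw [← MvPolynomial.algebraMap_eq, AlgHom.commutes]
    rw [h, der_C, map_zero]
  | hadd f g hf hg => rw [map_add, map_add, map_add, map_add, hf, hg]
  | hX f i j hf =>
    rw [der_mul, map_add, map_mul, map_mul, hf, map_mul, der_mul, Dd_XM, ph_Wm, ph_XM]
    simp only [map_sum, der_smul, Dd_XM]
  | hz f p i hf =>
    rw [der_mul, map_add, map_mul, map_mul, hf, map_mul, der_mul, Dd_zv, ph_zv]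
    simp only [map_sum, der_smul, Dd_zv, map_zero, smul_zero, Finset.sum_const_zero]

lemma ph_sg (k : Matrix (Fin n) (Fin n) ℂ) (f : Rg n P) : ph k (sg f) = sg (ph k f) := by
  have h : (ph k).comp (sg (n := n) (P := P)) = sg.comp (ph k) := by
    apply map_ext
    · intro i j
      simp only [AlgHom.comp_apply, sg_XM, ph_XM, map_sum, map_smul]
    · intro p i
      simp only [AlgHom.comp_apply, sg_zv, ph_zv, map_sum, map_smul]
  exact congrArg (fun g => g f) h

lemma cmp_sg (f : Rg n P) (a : ℕ) : cmp a (sg f) = sg (cmp a f) := by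
  have h : (Polynomial.mapAlgHom (sg (n := n) (P := P))).comp (ps n P) =
      (ps n (Bool ⊕ P)).comp sg := by
    apply map_ext
    · intro i j
      simp only [AlgHom.comp_apply, ps_XM, sg_XM, Polynomial.coe_mapAlgHom, Polynomial.map_mul,
        Polynomial.map_C, Polynomial.map_X, RingHom.coe_coe]
    · intro p i
      simp only [AlgHom.comp_apply, ps_zv, sg_zv, Polynomial.coe_mapAlgHom, Polynomial.map_C,
        RingHom.coe_coe]
  have h2 := congrArg (fun g => (g f).coeff a) h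
  simp only [AlgHom.comp_apply, Polynomial.coe_mapAlgHom, Polynomial.coeff_map,
    RingHom.coe_coe] at h2
  exact h2.symm

lemma cmp_mul_Wm (a : ℕ) (f : Rg n (Bool ⊕ P)) (i j : Fin n) :
    cmp a (f * Wm n P i j) = cmp a f * Wm n P i j := by
  rw [Wm_apply, mul_add, cmp_add, ← mul_assoc, ← mul_assoc, uv, vv, cmp_mul_zv, cmp_mul_zv,
    cmp_mul_zv, cmp_mul_zv]
  ring

lemma Dd_cmp_zero (F : Rg n (Bool ⊕ P)) : Dd n P (cmp 0 F) = 0 := by
  induction F using ind with
  | hC c => rw [cmp_C, if_pos rfl, der_C]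
  | hadd f g hf hg => rw [cmp_add, map_add, hf, hg, add_zero]
  | hX f i j hf => rw [cmp_zero_mul_XM, map_zero]
  | hz f p i hf => rw [cmp_mul_zv, der_mul, hf, Dd_zv, mul_zero, mul_zero, add_zero]

lemma cmp_Dd (F : Rg n (Bool ⊕ P)) : ∀ a, cmp a (Dd n P F) = Dd n P (cmp (a + 1) F) := by
  induction F using ind with
  | hC c =>
    intro a
    rw [der_C, cmp_zero, cmp_C, if_neg (by omega), map_zero]
  | hadd f g hf hg =>
    intro a
    rw [map_add, cmp_add, cmp_add, map_add, hf, hg]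
  | hX f i j hf =>
    intro a
    rw [der_mul, cmp_add, Dd_XM, cmp_mul_Wm, cmp_mul_XM, der_mul, Dd_XM,
      mul_comm (XM n (Bool ⊕ P) i j) (Dd n P f)]
    rcases a with _ | a
    · rw [cmp_zero_mul_XM, Dd_cmp_zero, mul_zero]
    · rw [cmp_mul_XM, hf, mul_comm (XM n (Bool ⊕ P) i j)]
  | hz f p i hf =>
    intro a
    rw [der_mul, cmp_add, Dd_zv, mul_zero, cmp_zero, zero_add, mul_comm, cmp_mul_zv, hf,
      cmp_mul_zv, der_mul, Dd_zv, mul_zero, zero_add, mul_comm]

end pol

end Pool.Agent.K7.H32.ME
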