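import Pool.Agent.H558R2.FL

set_option autoImplicit false

/-!
# Coefficients of the characteristic polynomial and traces of powers

Over a commutative algebra over a field of characteristic zero the coefficients of the
characteristic polynomial of a matrix lie in the subalgebra generated by the traces of the powers
`A ^ j`, `1 ≤ j ≤ n`; so every power of `A` is a combination of `1, A, ..., A ^ (n - 1)` with
coefficients in this subalgebra.
-/

namespace Pool.Agent.K7.H32.ME

open Matrix Polynomial

variable {n : ℕ} {R : Type} [CommRing R]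

/-- the `k`-th coefficient of `adj (X - A)` -/
noncomputable def cf (A : Matrix (Fin n) (Fin n) R) (k : ℕ) : Matrix (Fin n) (Fin n) R :=
  (matPolyEquiv (adjugate (charmatrix A))).coeff k

lemma cf_apply (A : Matrix (Fin n) (Fin n) R) (k : ℕ) (x y : Fin n) :
    cf A k x y = (adjugate (charmatrix A) x y).coeff k := by
  unfold cf; rw [matPolyEquiv_coeff_apply]

lemma cf_mul (A : Matrix (Fin n) (Fin n) R) :
    (X - C A) * matPolyEquiv (adjugate (charmatrix A)) =
      A.charpoly.map (algebraMap R (Matrix (Fin n) (Fin n) R)) := by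
  have h : A.charpoly • (1 : Matrix (Fin n) (Fin n) R[X]) =
    charmatrix A * adjugate (charmatrix A) := (mul_adjugate _).symm
  have h2 := congrArg matPolyEquiv h
  rw [map_mul, matPolyEquiv_charmatrix, matPolyEquiv_smul_one] at h2
  exact h2.symm

lemma cf_rec (A : Matrix (Fin n) (Fin n) R) (k : ℕ) :
    cf A k = A * cf A (k + 1) + A.charpoly.coeff (k + 1) • 1 := by
  have h := congrArg (fun p => coeff p (k + 1)) (cf_mul A)
  simp only [coeff_map, sub_mul, coeff_sub, coeff_X_mul, coeff_C_mul,
    Algebra.algebraMap_eq_smul_one] at h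
  unfold cf
  rw [← h]
  abel

lemma trace_cf (A : Matrix (Fin n) (Fin n) R) (k : ℕ) :
    trace (cf A k) = ((k : R) + 1) * A.charpoly.coeff (k + 1) := by
  have h := congrArg (fun p => coeff p k) (Pool.Agent.H558R2.derivative_charpoly A)
  simp only [coeff_derivative, trace, diag_apply, finsetSum_coeff] at h
  unfold trace
  simp only [diag_apply, cf_apply]
  rw [← h]
  ring

lemma cf_eq_zero [Nontrivial R] (A : Matrix (Fin n) (Fin n) R) (k : ℕ) (hk : n ≤ k) :
    cf A k = 0 := by
  set N := (matPolyEquiv (adjugate (charmatrix A))).natDegree + 1 with hN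
  have key : ∀ j, ∀ k, n ≤ k → N ≤ k + j → cf A k = 0 := by
    intro j
    induction j with
    | zero =>
      intro k _ h
      exact coeff_eq_zero_of_natDegree_lt (by omega)
    | succ j ih =>
      intro k hk h
      rw [cf_rec, ih (k + 1) (by omega) (by omega)]
      have : A.charpoly.coeff (k + 1) = 0 := by
        apply coeff_eq_zero_of_natDegree_lt
        rw [charpoly_natDegree_eq_dim, Fintype.card_fin]
        omega
      rw [this]
      simp
  exact key N k hk (by omega)

lemma charpoly_top [Nontrivial R] (A : Matrix (Fin n) (Fin n) R) : A.charpoly.coeff n = 1 := by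
  have h2 := A.charpoly_monic
  rwa [Monic, leadingCoeff, charpoly_natDegree_eq_dim, Fintype.card_fin] at h2

lemma cf_top [Nontrivial R] (A : Matrix (Fin n) (Fin n) R) (k : ℕ) (hk : k + 1 = n) :
    cf A k = 1 := by
  rw [cf_rec, cf_eq_zero A (k + 1) (by omega), hk, charpoly_top]
  simp

/-- Horner form -/
lemma cf_horner [Nontrivial R] (A : Matrix (Fin n) (Fin n) R) (j : ℕ) : ∀ k, k + j + 1 = n →
    cf A k = A ^ j + ∑ i ∈ Finset.range j, A.charpoly.coeff (k + 1 + i) • A ^ i := by
  induction j with
  | zero =>
    intro k hk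
    rw [cf_top A k (by omega)]
    simp
  | succ j ih =>
    intro k hk
    rw [cf_rec, ih (k + 1) (by omega), Finset.sum_range_succ', Matrix.mul_add, ← pow_succ',
      Finset.mul_sum, pow_zero, add_zero, add_assoc]
    congr 2
    refine Finset.sum_congr rfl fun i _ => ?_
    rw [Matrix.mul_smul, ← pow_succ', show k + 1 + 1 + i = k + 1 + (i + 1) by ring]

section
variable {K : Type} [Field K] [CharZero K] [Algebra K R] [Nontrivial R]

/-- the coefficients of the characteristic polynomial -/
lemma coeff_mem (A : Matrix (Fin n) (Fin n) R) (S : Subalgebra K R)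
    (hS : ∀ j, 1 ≤ j → j ≤ n → trace (A ^ j) ∈ S) :
    ∀ j, j ≤ n → A.charpoly.coeff (n - j) ∈ S := by
  intro j
  induction j using Nat.strong_induction_on with
  | _ j ih =>
    intro hj
    rcases Nat.eq_zero_or_pos j with h0 | h0
    · subst h0
      rw [Nat.sub_zero, charpoly_top]
      exact S.one_mem
    have hdiv : ∀ (a : R), (j : R) * a ∈ S → a ∈ S := by
      intro a ha
      have hj0 : (j : K) ≠ 0 := by exact_mod_cast (show j ≠ 0 by omega)
      have h1 := S.smul_mem ha ((j : K)⁻¹)
      have h2 : ((j : K)⁻¹) • ((j : R) * a) = a := by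
        have h3 : (j : R) * a = (j : K) • a := by
          rw [Algebra.smul_def, map_natCast]
        rw [h3, smul_smul, inv_mul_cancel₀ hj0, one_smul]
      rwa [h2] at h1
    apply hdiv
    rcases Nat.lt_or_ge j n with hlt | hge
    · obtain ⟨k, hk⟩ : ∃ k, k + j + 1 = n := ⟨n - j - 1, by omega⟩
      have h1 := trace_cf A k
      rw [cf_horner A j k hk] at h1
      obtain ⟨j', rfl⟩ : ∃ j', j = j' + 1 := ⟨j - 1, by omega⟩
      rw [Finset.sum_range_succ', pow_zero, trace_add, trace_add, trace_sum, trace_smul,
        trace_one, Fintype.card_fin, smul_eq_mul] at h1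
      simp only [trace_smul, smul_eq_mul, add_zero] at h1
      have e1 : n - (j' + 1) = k + 1 := by omega
      rw [e1]
      have e2 : ((n : ℕ) : R) = (k : R) + 1 + ((j' + 1 : ℕ) : R) := by
        rw [← hk]; push_cast; ring
      have h2 : ((j' + 1 : ℕ) : R) * A.charpoly.coeff (k + 1) =
          -(trace (A ^ (j' + 1)) + ∑ x ∈ Finset.range j',
            A.charpoly.coeff (k + 1 + (x + 1)) * trace (A ^ (x + 1))) := by
        rw [e2] at h1
        linear_combination h1
      rw [h2]
      refine S.neg_mem (S.add_mem (hS _ (by omega) hj) (S.sum_mem fun x hx => ?_))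
      have hx' := Finset.mem_range.1 hx
      refine S.mul_mem ?_ (hS _ (by omega) (by omega))
      have := ih (j' - x) (by omega) (by omega)
      rwa [show n - (j' - x) = k + 1 + (x + 1) by omega] at this
    · have hjn : j = n := le_antisymm hj hge
      subst hjn
      rw [Nat.sub_self]
      have h1 := aeval_self_charpoly A
      rw [aeval_eq_sum_range, charpoly_natDegree_eq_dim, Fintype.card_fin] at h1
      have h2 := congrArg trace h1
      rw [Finset.sum_range_succ', pow_zero, trace_add, trace_sum, trace_smul, trace_one,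
        Fintype.card_fin, trace_zero, smul_eq_mul] at h2
      simp only [trace_smul, smul_eq_mul] at h2
      have h3 : (j : R) * A.charpoly.coeff 0 =
          -∑ x ∈ Finset.range j, A.charpoly.coeff (x + 1) * trace (A ^ (x + 1)) := by
        linear_combination h2
      rw [h3]
      refine S.neg_mem (S.sum_mem fun x hx => ?_)
      have hx' := Finset.mem_range.1 hx
      refine S.mul_mem ?_ (hS _ (by omega) (by omega))
      have := ih (j - (x + 1)) (by omega) (by omega)
      rwa [show j - (j - (x + 1)) = x + 1 by omega] at this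

/-- powers of `A` -/
lemma pow_mem (A : Matrix (Fin n) (Fin n) R) (S : Subalgebra K R)
    (hS : ∀ j, 1 ≤ j → j ≤ n → trace (A ^ j) ∈ S) :
    ∀ k, ∃ c : ℕ → R, (∀ i, c i ∈ S) ∧ A ^ k = ∑ i ∈ Finset.range n, c i • A ^ i := by
  have hn : A ^ n = ∑ i ∈ Finset.range n, (-A.charpoly.coeff i) • A ^ i := by
    have h1 := aeval_self_charpoly A
    rw [aeval_eq_sum_range, charpoly_natDegree_eq_dim, Fintype.card_fin,
      Finset.sum_range_succ, charpoly_top, one_smul] at h1
    simp only [neg_smul, Finset.sum_neg_distrib]
    exact eq_neg_of_add_eq_zero_right h1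
  have hc : ∀ i, i < n → A.charpoly.coeff i ∈ S := by
    intro i hi
    have := coeff_mem A S hS (n - i) (by omega)
    rwa [show n - (n - i) = i by omega] at this
  intro k
  induction k with
  | zero =>
    rcases Nat.eq_zero_or_pos n with h0 | h0
    · subst h0
      refine ⟨0, fun i => S.zero_mem, ?_⟩
      ext i; exact i.elim0
    · refine ⟨fun i => if i = 0 then 1 else 0, fun i => ?_, ?_⟩
      · show (if i = 0 then (1 : R) else 0) ∈ S
        split_ifs
        · exact S.one_mem
        · exact S.zero_mem
      · rw [Finset.sum_eq_single 0]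
        · simp
        · intro b _ hb; simp [hb]
        · intro h; exact absurd (Finset.mem_range.2 h0) h
  | succ k ih =>
    obtain ⟨c, hcS, hk⟩ := ih
    refine ⟨fun i => (if i = 0 then 0 else c (i - 1)) + c (n - 1) * (-(if i < n then A.charpoly.coeff i else 0)), fun i => ?_, ?_⟩
    · show (if i = 0 then (0 : R) else c (i - 1)) + c (n - 1) * (-(if i < n then A.charpoly.coeff i else 0)) ∈ S
      refine S.add_mem ?_ (S.mul_mem (hcS _) (S.neg_mem ?_))
      · split_ifs
        · exact S.zero_mem
        · exact hcS _
      · split_ifs with h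
        · exact hc i h
        · exact S.zero_mem
    · rcases Nat.eq_zero_or_pos n with h0 | h0
      · subst h0
        ext i; exact i.elim0
      obtain ⟨N, rfl⟩ : ∃ N, n = N + 1 := ⟨n - 1, by omega⟩
      rw [pow_succ', hk, Finset.mul_sum]
      simp only [Matrix.mul_smul, ← pow_succ', add_smul, Finset.sum_add_distrib]
      rw [Finset.sum_range_succ, hn]
      congr 1
      · rw [Finset.sum_range_succ' (fun i => (if i = 0 then (0 : R) else c (i - 1)) • A ^ i)]
        simp
      · rw [Finset.smul_sum]
        refine Finset.sum_congr rfl fun i hi => ?_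
        rw [if_pos (Finset.mem_range.1 hi), smul_smul, Nat.add_sub_cancel]

end

end Pool.Agent.K7.H32.ME
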