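import Pool.Agent.K7.H32.ME.VecG
import Pool.Agent.K7.H32.ME.Tr

set_option autoImplicit false

/-!
# The reduced generators and homogeneous components
-/

namespace Pool.Agent.K7.H32.ME

open MvPolynomial Matrix

variable {n m : ℕ}

lemma bl_symm {P : Type} (k : ℕ) (p q : P) : (bl k p q : Rg n P) = bl k q p := by
  rw [bl, bl, dotProduct_mulVec, ← mulVec_transpose, XMp_transpose, dotProduct_comm]

/-- the reduced generators -/
def gn (n m : ℕ) : Set (Rg n (Fin m)) :=
  {f | ∃ j, 1 ≤ j ∧ j ≤ n ∧ f = trace (XM n (Fin m) ^ j)} ∪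
    {f | ∃ k, ∃ p q : Fin m, k < n ∧ p ≤ q ∧ f = bl k p q}

lemma bl_gn {k : ℕ} (hk : k < n) (p q : Fin m) :
    (bl k p q : Rg n (Fin m)) ∈ Algebra.adjoin ℂ (gn n m) := by
  rcases le_total p q with h | h
  · exact Algebra.subset_adjoin (Or.inr ⟨k, p, q, hk, h, rfl⟩)
  · rw [bl_symm]
    exact Algebra.subset_adjoin (Or.inr ⟨k, q, p, hk, h, rfl⟩)

theorem Alg_le : Alg n (Fin m) ≤ Algebra.adjoin ℂ (gn n m) := by
  have h := pow_mem (K := ℂ) (XM n (Fin m)) (Algebra.adjoin ℂ (gn n m))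
    (fun j h1 h2 => Algebra.subset_adjoin (Or.inl ⟨j, h1, h2, rfl⟩))
  refine Algebra.adjoin_le ?_
  rintro f (⟨j, rfl⟩ | ⟨k, p, q, rfl⟩)
  · obtain ⟨c, hc, he⟩ := h j
    rw [he, trace_sum]
    refine Subalgebra.sum_mem _ fun i hi => ?_
    rw [trace_smul, smul_eq_mul]
    refine Subalgebra.mul_mem _ (hc i) ?_
    rcases Nat.eq_zero_or_pos i with h0 | h0
    · subst h0
      rw [pow_zero, trace_one]
      exact natCast_mem _ _
    · exact Algebra.subset_adjoin (Or.inl ⟨i, h0, (Finset.mem_range.1 hi).le, rfl⟩)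
  · obtain ⟨c, hc, he⟩ := h k
    have h1 : (bl k p q : Rg n (Fin m)) = ∑ i ∈ Finset.range n, c i * bl i p q := by
      simp only [bl, he, sum_mulVec, dotProduct_sum, smul_mulVec, dotProduct_smul, smul_eq_mul]
    rw [h1]
    refine Subalgebra.sum_mem _ fun i hi => Subalgebra.mul_mem _ (hc i) ?_
    exact bl_gn (Finset.mem_range.1 hi) p q

lemma XM_homog (i j : Fin n) : (XM n (Fin m) i j).IsHomogeneous 1 := isHomogeneous_X _ _

lemma zv_homog (p : Fin m) (i : Fin n) : (zv p i : Rg n (Fin m)).IsHomogeneous 1 :=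
  isHomogeneous_X _ _

lemma XMp_homog (k : ℕ) : ∀ i j : Fin n, ((XM n (Fin m) ^ k) i j).IsHomogeneous k := by
  induction k with
  | zero =>
    intro i j
    rw [pow_zero, one_apply]
    split_ifs
    · exact isHomogeneous_one _ _
    · exact isHomogeneous_zero _ _ _
  | succ k ih =>
    intro i j
    rw [pow_succ, mul_apply]
    exact IsHomogeneous.sum _ _ _ fun l _ => (ih i l).mul (XM_homog l j)

lemma trace_homog (k : ℕ) : (trace (XM n (Fin m) ^ k)).IsHomogeneous k :=
  IsHomogeneous.sum _ _ _ fun i _ => XMp_homog k i i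

lemma bl_homog (k : ℕ) (p q : Fin m) : (bl k p q : Rg n (Fin m)).IsHomogeneous (k + 2) := by
  simp only [bl, dotProduct, mulVec]
  refine IsHomogeneous.sum _ _ _ fun i _ => ?_
  have h : (∑ j, (XM n (Fin m) ^ k) i j * zv q j).IsHomogeneous (k + 1) :=
    IsHomogeneous.sum _ _ _ fun j _ => (XMp_homog k i j).mul (zv_homog q j)
  have h2 := (zv_homog p i).mul h
  rwa [show 1 + (k + 1) = k + 2 by ring] at h2

/-- a graded induction principle -/
theorem graded {Q : ℕ → Rg n (Fin m) → Prop} (h0 : ∀ d, Q d 0)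
    (hadd : ∀ d f g, Q d f → Q d g → Q d (f + g)) (hsmul : ∀ d (c : ℂ) f, Q d f → Q d (c • f))
    (h1 : Q 0 1) (hmul : ∀ d e f g, Q d f → Q e g → Q (d + e) (f * g))
    (htr : ∀ j, 1 ≤ j → j ≤ n → Q j (trace (XM n (Fin m) ^ j)))
    (hbl : ∀ k, ∀ p q : Fin m, k < n → p ≤ q → Q (k + 2) (bl k p q))
    {f : Rg n (Fin m)} (hf : f ∈ Alg n (Fin m)) {d : ℕ} (hd : f.IsHomogeneous d) : Q d f := by
  have hcl : ∀ M ∈ Submonoid.closure (gn n m), ∃ e, M.IsHomogeneous e ∧ Q e M := by
    intro M hM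
    induction hM using Submonoid.closure_induction with
    | mem x hx =>
      rcases hx with ⟨j, hj1, hj2, rfl⟩ | ⟨k, p, q, hk, hpq, rfl⟩
      · exact ⟨j, trace_homog j, htr j hj1 hj2⟩
      · exact ⟨k + 2, bl_homog k p q, hbl k p q hk hpq⟩
    | one => exact ⟨0, isHomogeneous_one _ _, h1⟩
    | mul x y _ _ hx hy =>
      obtain ⟨e, he, hQ⟩ := hx
      obtain ⟨e', he', hQ'⟩ := hy
      exact ⟨e + e', he.mul he', hmul _ _ _ _ hQ hQ'⟩
  have hf' : f ∈ Submodule.span ℂ (Submonoid.closure (gn n m) : Set (Rg n (Fin m))) := by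
    have := Alg_le hf
    rw [← Subalgebra.mem_toSubmodule, Algebra.adjoin_eq_span] at this
    exact this
  have key : ∀ x ∈ Submodule.span ℂ (Submonoid.closure (gn n m) : Set (Rg n (Fin m))),
      Q d (homogeneousComponent d x) := by
    intro x hx
    induction hx using Submodule.span_induction with
    | mem x hx =>
      obtain ⟨e, he, hQ⟩ := hcl x hx
      have h2 : homogeneousComponent d x = if d = e then x else 0 :=
        homogeneousComponent_of_mem he
      rw [h2]
      split_ifs with h3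
      · rw [h3]; exact hQ
      · exact h0 d
    | zero => rw [map_zero]; exact h0 d
    | add x y _ _ hx hy => rw [map_add]; exact hadd _ _ _ hx hy
    | smul a x _ hx => rw [map_smul]; exact hsmul _ _ _ hx
  have h4 : homogeneousComponent d f = f := by
    have h2 : homogeneousComponent d f = if d = d then f else 0 :=
      homogeneousComponent_of_mem hd
    rwa [if_pos rfl] at h2
  have h3 := key f hf'
  rwa [h4] at h3

end Pool.Agent.K7.H32.ME
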