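import Pool.Agent.K7.H32.ME.Main

set_option autoImplicit false

/-!
# The statement with named instances

`SF n m` is the algebra of the smooth complex valued functions on `P_{n,m}`; the operators are the
`ℂ`-linear maps `SF n m → SF n m`.
-/

namespace Pool.Agent.K7.H32.ME

open Matrix
open scoped ContDiff

/-- the smooth functions `P_{n,m} → ℂ` -/
def SF (n m : ℕ) : Type := {f : Pnm n m → ℂ // ContDiffOn ℝ ∞ (ext f) (Pnm n m)}

variable {n m : ℕ}

/-- the value of a smooth function at a point -/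
def SF.val (f : SF n m) : Pnm n m → ℂ := Subtype.val f

/-- a smooth function from a function and a proof of smoothness -/
def SF.mk (f : Pnm n m → ℂ) (hf : ContDiffOn ℝ ∞ (ext f) (Pnm n m)) : SF n m := ⟨f, hf⟩

lemma SF.val_inj : Function.Injective (SF.val : SF n m → Pnm n m → ℂ) := Subtype.val_injective

/-- the corresponding element of `Cinf n m` -/
def SF.toC (f : SF n m) : Cinf n m := ⟨f.1, f.2⟩

lemma SF.h0 : ContDiffOn ℝ ∞ (ext (0 : Pnm n m → ℂ)) (Pnm n m) := (0 : Cinf n m).2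
lemma SF.h1 : ContDiffOn ℝ ∞ (ext (1 : Pnm n m → ℂ)) (Pnm n m) := (1 : Cinf n m).2
lemma SF.hadd (f g : SF n m) : ContDiffOn ℝ ∞ (ext (f.val + g.val)) (Pnm n m) :=
  (f.toC + g.toC).2
lemma SF.hmul (f g : SF n m) : ContDiffOn ℝ ∞ (ext (f.val * g.val)) (Pnm n m) :=
  (f.toC * g.toC).2
lemma SF.hneg (f : SF n m) : ContDiffOn ℝ ∞ (ext (-f.val)) (Pnm n m) := (-f.toC).2
lemma SF.hsub (f g : SF n m) : ContDiffOn ℝ ∞ (ext (f.val - g.val)) (Pnm n m) :=
  (f.toC - g.toC).2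
lemma SF.hnsmul (k : ℕ) (f : SF n m) : ContDiffOn ℝ ∞ (ext (k • f.val)) (Pnm n m) :=
  (k • f.toC).2
lemma SF.hzsmul (k : ℤ) (f : SF n m) : ContDiffOn ℝ ∞ (ext (k • f.val)) (Pnm n m) :=
  (k • f.toC).2
lemma SF.hpow (f : SF n m) (k : ℕ) : ContDiffOn ℝ ∞ (ext (f.val ^ k)) (Pnm n m) :=
  (f.toC ^ k).2
lemma SF.hnat (k : ℕ) : ContDiffOn ℝ ∞ (ext (k : Pnm n m → ℂ)) (Pnm n m) :=
  ((k : Cinf n m)).2
lemma SF.hint (k : ℤ) : ContDiffOn ℝ ∞ (ext (k : Pnm n m → ℂ)) (Pnm n m) :=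
  ((k : Cinf n m)).2
lemma SF.hsmul (c : ℂ) (f : SF n m) : ContDiffOn ℝ ∞ (ext (c • f.val)) (Pnm n m) :=
  (c • f.toC).2
lemma SF.hconst (c : ℂ) : ContDiffOn ℝ ∞ (ext (algebraMap ℂ (Pnm n m → ℂ) c)) (Pnm n m) :=
  (algebraMap ℂ (Cinf n m) c).2

noncomputable instance SF.i0 : Zero (SF n m) := ⟨SF.mk 0 SF.h0⟩
noncomputable instance SF.i1 : One (SF n m) := ⟨SF.mk 1 SF.h1⟩
noncomputable instance SF.iAdd : Add (SF n m) := ⟨fun f g => SF.mk (f.val + g.val) (SF.hadd f g)⟩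
noncomputable instance SF.iMul : Mul (SF n m) := ⟨fun f g => SF.mk (f.val * g.val) (SF.hmul f g)⟩
noncomputable instance SF.iNeg : Neg (SF n m) := ⟨fun f => SF.mk (-f.val) (SF.hneg f)⟩
noncomputable instance SF.iSub : Sub (SF n m) := ⟨fun f g => SF.mk (f.val - g.val) (SF.hsub f g)⟩
noncomputable instance SF.iN : SMul ℕ (SF n m) := ⟨fun k f => SF.mk (k • f.val) (SF.hnsmul k f)⟩
noncomputable instance SF.iZ : SMul ℤ (SF n m) := ⟨fun k f => SF.mk (k • f.val) (SF.hzsmul k f)⟩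
noncomputable instance SF.iPow : Pow (SF n m) ℕ := ⟨fun f k => SF.mk (f.val ^ k) (SF.hpow f k)⟩
noncomputable instance SF.iNat : NatCast (SF n m) := ⟨fun k => SF.mk k (SF.hnat k)⟩
noncomputable instance SF.iInt : IntCast (SF n m) := ⟨fun k => SF.mk k (SF.hint k)⟩

lemma SF.v0 : (0 : SF n m).val = 0 := rfl
lemma SF.v1 : (1 : SF n m).val = 1 := rfl
lemma SF.vAdd (f g : SF n m) : (f + g).val = f.val + g.val := rfl
lemma SF.vMul (f g : SF n m) : (f * g).val = f.val * g.val := rfl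
lemma SF.vNeg (f : SF n m) : (-f).val = -f.val := rfl
lemma SF.vSub (f g : SF n m) : (f - g).val = f.val - g.val := rfl
lemma SF.vN (k : ℕ) (f : SF n m) : (k • f).val = k • f.val := rfl
lemma SF.vZ (k : ℤ) (f : SF n m) : (k • f).val = k • f.val := rfl
lemma SF.vPow (f : SF n m) (k : ℕ) : (f ^ k).val = f.val ^ k := rfl
lemma SF.vNat (k : ℕ) : (k : SF n m).val = k := rfl
lemma SF.vInt (k : ℤ) : (k : SF n m).val = k := rfl

/-- the ring of the smooth functions `P_{n,m} → ℂ` -/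
noncomputable instance SF.iRing : CommRing (SF n m) :=
  Function.Injective.commRing SF.val SF.val_inj SF.v0 SF.v1 SF.vAdd SF.vMul SF.vNeg SF.vSub SF.vN
    SF.vZ SF.vPow SF.vNat SF.vInt

/-- the constant functions -/
noncomputable def SF.const : ℂ →+* SF n m where
  toFun c := SF.mk (algebraMap ℂ (Pnm n m → ℂ) c) (SF.hconst c)
  map_one' := SF.val_inj (map_one (algebraMap ℂ (Pnm n m → ℂ)))
  map_mul' c d := SF.val_inj (map_mul (algebraMap ℂ (Pnm n m → ℂ)) c d)
  map_zero' := SF.val_inj (map_zero (algebraMap ℂ (Pnm n m → ℂ)))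
  map_add' c d := SF.val_inj (map_add (algebraMap ℂ (Pnm n m → ℂ)) c d)

/-- the algebra of the smooth functions `P_{n,m} → ℂ` -/
noncomputable instance SF.iAlg : Algebra ℂ (SF n m) where
  smul c f := SF.mk (c • f.val) (SF.hsmul c f)
  algebraMap := SF.const
  commutes' _ _ := mul_comm _ _
  smul_def' c f := SF.val_inj (Algebra.smul_def c f.val)

lemma SF.smul_val (c : ℂ) (f : SF n m) : (c • f).val = c • f.val := rfl

example : (SF.iRing : CommRing (SF n m)) =
  (Subalgebra.toCommRing (Cinf n m) : CommRing (Cinf n m)) := rfl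

lemma SF.pd_mem (i : Idx n m) (f : SF n m) :
    ContDiffOn ℝ ∞ (ext fun x : Pnm n m => fderiv ℝ (ext f.val) x (Pi.single i 1)) (Pnm n m) :=
  (pd i f).2

lemma SF.pd_add (i : Idx n m) (f g : SF n m) :
    SF.mk (fun x : Pnm n m => fderiv ℝ (ext (f + g).val) x (Pi.single i 1)) (SF.pd_mem i _) =
      SF.mk (fun x : Pnm n m => fderiv ℝ (ext f.val) x (Pi.single i 1)) (SF.pd_mem i _) +
      SF.mk (fun x : Pnm n m => fderiv ℝ (ext g.val) x (Pi.single i 1)) (SF.pd_mem i _) :=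
  (pd i).map_add f g

lemma SF.pd_smul (i : Idx n m) (c : ℂ) (f : SF n m) :
    SF.mk (fun x : Pnm n m => fderiv ℝ (ext (c • f).val) x (Pi.single i 1)) (SF.pd_mem i _) =
      c • SF.mk (fun x : Pnm n m => fderiv ℝ (ext f.val) x (Pi.single i 1)) (SF.pd_mem i _) :=
  (pd i).map_smul c f

/-- the partial derivative with respect to the coordinate `i` -/
noncomputable def pdS (i : Idx n m) : Module.End ℂ (SF n m) where
  toFun f := SF.mk (fun x : Pnm n m => fderiv ℝ (ext f.val) x (Pi.single i 1)) (SF.pd_mem i f)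
  map_add' := SF.pd_add i
  map_smul' := SF.pd_smul i

/-- the multiplication operator -/
noncomputable def mulS (a : SF n m) : Module.End ℂ (SF n m) := LinearMap.mulLeft ℂ a

/-- the algebra of the linear differential operators on `P_{n,m}` with smooth coefficients -/
noncomputable def DiffS (n m : ℕ) : Subalgebra ℂ (Module.End ℂ (SF n m)) :=
  Algebra.adjoin ℂ (Set.range mulS ∪ Set.range pdS)

lemma SF.pull_mem (A : GL (Fin n) ℝ) (a : Matrix (Fin m) (Fin n) ℝ) (f : SF n m) :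
    ContDiffOn ℝ ∞ (ext fun x : Pnm n m => f.val (act A a x)) (Pnm n m) := (pull A a f).2

/-- the operator `f ↦ f ∘ (A, a)` -/
noncomputable def pullS (A : GL (Fin n) ℝ) (a : Matrix (Fin m) (Fin n) ℝ) (f : SF n m) : SF n m :=
  SF.mk (fun x => f.val (act A a x)) (SF.pull_mem A a f)

/-- the set `𝔻(P_{n,m})` of the differential operators which commute with all `(A, a)` -/
def InvS (n m : ℕ) : Set (Module.End ℂ (SF n m)) :=
  {T | T ∈ DiffS n m ∧ ∀ (A : GL (Fin n) ℝ) (a : Matrix (Fin m) (Fin n) ℝ) (f : SF n m),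
    T (pullS A a f) = pullS A a (T f)}

lemma SF.cX_mem (i : Idx n m) :
    ContDiffOn ℝ ∞ (ext fun x : Pnm n m => (((x : Idx n m → ℝ) i : ℝ) : ℂ)) (Pnm n m) := (cX i).2

/-- the coordinate functions -/
noncomputable def cS (i : Idx n m) : SF n m :=
  SF.mk (fun x : Pnm n m => (((x : Idx n m → ℝ) i : ℝ) : ℂ)) (SF.cX_mem i)

/-- the matrix `Y` of multiplication operators -/
noncomputable def matY (n m : ℕ) : Matrix (Fin n) (Fin n) (Module.End ℂ (SF n m)) :=
  Matrix.of fun i j => mulS (cS (Sum.inl s(i, j)))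

/-- the operator matrix `∂/∂Y = ((1 + δ_{ij}) / 2 ∂/∂y_{ij})` -/
noncomputable def matdY (n m : ℕ) : Matrix (Fin n) (Fin n) (Module.End ℂ (SF n m)) :=
  Matrix.of fun i j => ((1 + if i = j then 1 else 0) / 2 : ℂ) • pdS (Sum.inl s(i, j))

/-- the operator matrix `∂/∂V` -/
noncomputable def matdV (n m : ℕ) : Matrix (Fin m) (Fin n) (Module.End ℂ (SF n m)) :=
  Matrix.of fun k l => pdS (Sum.inr (k, l))

/-- the operator matrix `2 Y ∂/∂Y` -/
noncomputable def matE (n m : ℕ) : Matrix (Fin n) (Fin n) (Module.End ℂ (SF n m)) :=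
  (2 : ℂ) • (matY n m * matdY n m)

/-- the operators `D_j = Tr ((2 Y ∂/∂Y) ^ j)` -/
noncomputable def DS (n m j : ℕ) : Module.End ℂ (SF n m) := trace (matE n m ^ j)

/-- the operators `Ω^{(k)}_{pq} = {∂/∂V (2 Y ∂/∂Y) ^ k Y ᵗ(∂/∂V)}_{pq}` -/
noncomputable def OS (n m k : ℕ) (p q : Fin m) : Module.End ℂ (SF n m) :=
  (matdV n m * matE n m ^ k * matY n m * (matdV n m)ᵀ) p q

/-- the set of the `D_j`, `1 ≤ j ≤ n`, and `Ω^{(k)}_{pq}`, `0 ≤ k ≤ n - 1`, `1 ≤ p ≤ q ≤ m` -/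
def gensS (n m : ℕ) : Set (Module.End ℂ (SF n m)) :=
  {T | ∃ j, 1 ≤ j ∧ j ≤ n ∧ T = DS n m j} ∪
    {T | ∃ k, ∃ p q : Fin m, k < n ∧ p ≤ q ∧ T = OS n m k p q}

/-- the operator `∂^α` (the partial derivatives commute, the order of the list does not matter) -/
noncomputable def dS (α : Idx n m →₀ ℕ) : Module.End ℂ (SF n m) :=
  ((Finset.univ : Finset (Idx n m)).toList.map fun i => pdS i ^ α i).prod

theorem mainS (hn : 0 < n) :
    (Algebra.adjoin ℂ (gensS n m) : Set (Module.End ℂ (SF n m))) = InvS n m := by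
  have h : (Algebra.adjoin ℂ (gens n m) : Set (EndC n m)) = (InvOp n m : Set (EndC n m)) := by
    rw [main hn]
  refine Eq.trans h ?_
  ext T
  constructor
  · intro h
    exact ⟨h.1, fun A a f => LinearMap.congr_fun (h.2 A a) f⟩
  · intro h
    exact ⟨h.1, fun A a => LinearMap.ext fun f => h.2 A a f⟩

theorem diffOp_iff (T : EndC n m) : T ∈ DiffOp n m ↔
    ∃ (s : Finset (Idx n m →₀ ℕ)) (a : (Idx n m →₀ ℕ) → Cinf n m),
      T = ∑ α ∈ s, mulOp (a α) * dd α := by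
  constructor
  · intro hT
    obtain ⟨d, P, _, rfl⟩ := diffOp_deg hT
    refine ⟨P.support, fun α => MvPolynomial.coeff α P, ?_⟩
    rw [Op_sum]
    refine Finset.sum_congr rfl fun α _ => ?_
    rw [Op_monomial, smul_eq_mulOp]
  · rintro ⟨s, a, rfl⟩
    have hdd : ∀ α : Idx n m →₀ ℕ, dd α ∈ DiffOp n m := by
      intro α
      induction α using dd_ind with
      | h0 => rw [dd_zero]; exact Subalgebra.one_mem _
      | h1 α i ih => rw [dd_add_single]; exact Subalgebra.mul_mem _ (pd_mem i) ih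
    exact Subalgebra.sum_mem _ fun α _ => Subalgebra.mul_mem _
      (Algebra.subset_adjoin (Or.inl ⟨_, rfl⟩)) (hdd α)

theorem diffS (T : Module.End ℂ (SF n m)) : T ∈ DiffS n m ↔
    ∃ (s : Finset (Idx n m →₀ ℕ)) (a : (Idx n m →₀ ℕ) → SF n m),
      T = ∑ α ∈ s, mulS (a α) * dS α :=
  diffOp_iff T

end Pool.Agent.K7.H32.ME
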