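import Pool.Agent.K7.H32.ME.Calc

set_option autoImplicit false

/-!
# Normal ordering and leading symbols
-/

namespace Pool.Agent.K7.H32.ME

open MvPolynomial

variable {n m : ℕ}

/-- the operator algebra -/
abbrev EndC (n m : ℕ) := Module.End ℂ (Cinf n m)

section lists
variable {ι M : Type*} [Monoid M] [DecidableEq ι]

lemma list_prod_add_single (c : ι → M) (hc : ∀ i j, Commute (c i) (c j)) (i : ι) (α : ι →₀ ℕ) :
    ∀ l : List ι, l.Nodup → i ∈ l →
      (l.map fun j => c j ^ (α + Finsupp.single i 1 : ι →₀ ℕ) j).prod =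
        c i * (l.map fun j => c j ^ α j).prod := by
  have hne : ∀ j, j ≠ i → (α + Finsupp.single i 1 : ι →₀ ℕ) j = α j := by
    intro j hj
    rw [Finsupp.add_apply, Finsupp.single_apply, if_neg (Ne.symm hj), add_zero]
  intro l
  induction l with
  | nil => intro _ h; simp at h
  | cons a l ih =>
    intro hl hi
    rw [List.nodup_cons] at hl
    rw [List.map_cons, List.prod_cons, List.map_cons, List.prod_cons]
    by_cases h : a = i
    · subst h
      have h1 : (l.map fun j => c j ^ (α + Finsupp.single a 1 : ι →₀ ℕ) j) = l.map fun j => c j ^ α j := by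
        apply List.map_congr_left
        intro j hj
        rw [hne j (fun h => hl.1 (h ▸ hj))]
      rw [h1, ← mul_assoc, ← pow_succ', Finsupp.add_apply, Finsupp.single_eq_same]
    · have hi' : i ∈ l := by
        rcases List.mem_cons.1 hi with h1 | h1
        · exact absurd h1.symm h
        · exact h1
      rw [ih hl.2 hi', hne a h, ← mul_assoc, ← mul_assoc, ((hc a i).pow_left _).eq]

end lists

/-- the operator `∂^α` -/
noncomputable def dd (α : Idx n m →₀ ℕ) : EndC n m :=
  ((Finset.univ : Finset (Idx n m)).toList.map fun i => (pd i : EndC n m) ^ α i).prod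

lemma dd_zero : dd (0 : Idx n m →₀ ℕ) = (1 : EndC n m) := by
  unfold dd
  apply List.prod_eq_one
  intro x hx
  obtain ⟨i, _, rfl⟩ := List.mem_map.1 hx
  exact pow_zero _

lemma dd_add_single (α : Idx n m →₀ ℕ) (i : Idx n m) :
    dd (α + Finsupp.single i 1) = pd i * dd α :=
  list_prod_add_single _ (fun i j => pd_comm i j) i α _ (Finset.nodup_toList _)
    (Finset.mem_toList.2 (Finset.mem_univ i))

lemma dd_ind {Q : (Idx n m →₀ ℕ) → Prop} (h0 : Q 0)
    (h1 : ∀ α i, Q α → Q (α + Finsupp.single i 1)) : ∀ α, Q α := by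
  have key : ∀ (k : ℕ) (α : Idx n m →₀ ℕ), α.degree = k → Q α := by
    intro k
    induction k with
    | zero =>
      intro α hα
      rw [Finsupp.degree_eq_zero_iff] at hα
      rw [hα]
      exact h0
    | succ k ih =>
      intro α hα
      have hne : α ≠ 0 := by
        rintro rfl
        rw [map_zero] at hα
        omega
      obtain ⟨i, hi⟩ := Finsupp.ne_iff.1 hne
      have e : α = (α - Finsupp.single i 1) + Finsupp.single i 1 :=
        (Finsupp.sub_add_single_one_cancel hi).symm
      rw [e]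
      apply h1
      apply ih
      have h2 : α.degree = (α - Finsupp.single i 1).degree + 1 := by
        conv_lhs => rw [e, map_add, Finsupp.degree_single]
      omega
  exact fun α => key _ α rfl

/-- normal ordering -/
noncomputable def Op (n m : ℕ) : MvPolynomial (Idx n m) (Cinf n m) →ₗ[Cinf n m] EndC n m :=
  (basisMonomials (Idx n m) (Cinf n m)).constr (Cinf n m) (fun α => dd α)

lemma Op_monomial (α : Idx n m →₀ ℕ) (a : Cinf n m) : Op n m (monomial α a) = a • dd α := by
  have h : (monomial α a : MvPolynomial (Idx n m) (Cinf n m)) =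
      a • basisMonomials (Idx n m) (Cinf n m) α := by
    rw [coe_basisMonomials, smul_monomial, smul_eq_mul, mul_one]
  rw [h, map_smul, Op, Module.Basis.constr_basis]

lemma smul_mul_op (a : Cinf n m) (T S : EndC n m) : (a • T) * S = a • (T * S) := rfl

lemma smul_eq_mulOp (a : Cinf n m) (T : EndC n m) : a • T = mulOp a * T := rfl

lemma pd_smul (i : Idx n m) (a : Cinf n m) (T : EndC n m) :
    pd i * (a • T) = a • (pd i * T) + pd i a • T := by
  refine LinearMap.ext fun f => ?_
  show pd i (a * T f) = a * pd i (T f) + pd i a * T f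
  rw [pd_mul, mul_comm (T f)]

lemma Op_sum (P : MvPolynomial (Idx n m) (Cinf n m)) :
    Op n m P = ∑ α ∈ P.support, Op n m (monomial α (coeff α P)) := by
  conv_lhs => rw [← support_sum_monomial_coeff P, map_sum]

/-- operators of order less than `d` -/
def HasDeg (d : ℕ) (T : EndC n m) : Prop :=
  ∃ P : MvPolynomial (Idx n m) (Cinf n m), (∀ α ∈ P.support, α.degree < d) ∧ Op n m P = T

lemma deg_zero (d : ℕ) : HasDeg d (0 : EndC n m) := ⟨0, by simp, map_zero _⟩

lemma deg_add {d : ℕ} {T S : EndC n m} (hT : HasDeg d T) (hS : HasDeg d S) :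
    HasDeg d (T + S) := by
  classical
  obtain ⟨P, hP, rfl⟩ := hT
  obtain ⟨Q, hQ, rfl⟩ := hS
  refine ⟨P + Q, fun α hα => ?_, map_add _ _ _⟩
  rcases Finset.mem_union.1 (support_add hα) with h | h
  · exact hP α h
  · exact hQ α h

lemma deg_smul {d : ℕ} {T : EndC n m} (a : Cinf n m) (hT : HasDeg d T) : HasDeg d (a • T) := by
  obtain ⟨P, hP, rfl⟩ := hT
  exact ⟨a • P, fun α hα => hP α (support_smul hα), map_smul _ _ _⟩

lemma deg_sum {ι : Type} (s : Finset ι) {d : ℕ} {T : ι → EndC n m}
    (hT : ∀ i ∈ s, HasDeg d (T i)) : HasDeg d (∑ i ∈ s, T i) := by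
  classical
  induction s using Finset.induction_on with
  | empty => rw [Finset.sum_empty]; exact deg_zero d
  | insert a s ha ih =>
    rw [Finset.sum_insert ha]
    exact deg_add (hT a (Finset.mem_insert_self a s))
      (ih fun i hi => hT i (Finset.mem_insert_of_mem hi))

lemma deg_mono {d e : ℕ} (h : d ≤ e) {T : EndC n m} (hT : HasDeg d T) : HasDeg e T := by
  obtain ⟨P, hP, rfl⟩ := hT
  exact ⟨P, fun α hα => (hP α hα).trans_le h, rfl⟩

lemma deg_monomial {d : ℕ} {α : Idx n m →₀ ℕ} (hα : α.degree < d) (a : Cinf n m) :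
    HasDeg d (Op n m (monomial α a)) := by
  refine ⟨monomial α a, fun β hβ => ?_, rfl⟩
  rw [Finset.mem_singleton.1 (support_monomial_subset hβ)]
  exact hα

lemma pd_Op_monomial (i : Idx n m) (α : Idx n m →₀ ℕ) (a : Cinf n m) :
    pd i * Op n m (monomial α a) =
      Op n m (monomial (α + Finsupp.single i 1) a) + Op n m (monomial α (pd i a)) := by
  rw [Op_monomial, Op_monomial, Op_monomial, pd_smul, dd_add_single]

lemma deg_pd (i : Idx n m) {d : ℕ} {T : EndC n m} (hT : HasDeg d T) :
    HasDeg (d + 1) (pd i * T) := by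
  obtain ⟨P, hP, rfl⟩ := hT
  rw [Op_sum, Finset.mul_sum]
  refine deg_sum _ fun α hα => ?_
  rw [pd_Op_monomial]
  refine deg_add (deg_monomial ?_ _) (deg_monomial ?_ _)
  · rw [map_add, Finsupp.degree_single]
    have := hP α hα
    omega
  · have := hP α hα
    omega

/-- `σ` is the symbol of degree `d` of `T` -/
def HasSym (d : ℕ) (T : EndC n m) (σ : MvPolynomial (Idx n m) (Cinf n m)) : Prop :=
  σ.IsHomogeneous d ∧ ∃ L, HasDeg d L ∧ T = Op n m σ + L

lemma support_homog {d : ℕ} {σ : MvPolynomial (Idx n m) (Cinf n m)} (h : σ.IsHomogeneous d)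
    {α : Idx n m →₀ ℕ} (hα : α ∈ σ.support) : α.degree = d := by
  by_contra hne
  exact (mem_support_iff.1 hα) (h.coeff_eq_zero hne)

lemma sym_deg {d : ℕ} {T : EndC n m} {σ : MvPolynomial (Idx n m) (Cinf n m)}
    (h : HasSym d T σ) : HasDeg (d + 1) T := by
  obtain ⟨h1, L, hL, rfl⟩ := h
  refine deg_add ⟨σ, fun α hα => ?_, rfl⟩ (deg_mono (Nat.le_succ d) hL)
  rw [support_homog h1 hα]
  exact Nat.lt_succ_self d

lemma sym_zero (d : ℕ) : HasSym d (0 : EndC n m) 0 := by
  refine ⟨isHomogeneous_zero _ _ _, 0, deg_zero d, ?_⟩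
  rw [map_zero, add_zero]

lemma sym_add {d : ℕ} {T S : EndC n m} {σ τ : MvPolynomial (Idx n m) (Cinf n m)}
    (hT : HasSym d T σ) (hS : HasSym d S τ) : HasSym d (T + S) (σ + τ) := by
  obtain ⟨h1, L, hL, rfl⟩ := hT
  obtain ⟨h2, L', hL', rfl⟩ := hS
  refine ⟨h1.add h2, L + L', deg_add hL hL', ?_⟩
  rw [map_add, add_add_add_comm]

lemma sym_smul {d : ℕ} {T : EndC n m} {σ : MvPolynomial (Idx n m) (Cinf n m)} (a : Cinf n m)
    (hT : HasSym d T σ) : HasSym d (a • T) (C a * σ) := by
  obtain ⟨h1, L, hL, rfl⟩ := hT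
  refine ⟨h1.C_mul a, a • L, deg_smul a hL, ?_⟩
  rw [C_mul', map_smul, ← smul_add]

lemma sym_sum {ι : Type} (s : Finset ι) {d : ℕ} {T : ι → EndC n m}
    {σ : ι → MvPolynomial (Idx n m) (Cinf n m)} (hT : ∀ i ∈ s, HasSym d (T i) (σ i)) :
    HasSym d (∑ i ∈ s, T i) (∑ i ∈ s, σ i) := by
  classical
  induction s using Finset.induction_on with
  | empty => rw [Finset.sum_empty, Finset.sum_empty]; exact sym_zero d
  | insert a s ha ih =>
    rw [Finset.sum_insert ha, Finset.sum_insert ha]
    exact sym_add (hT a (Finset.mem_insert_self a s))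
      (ih fun i hi => hT i (Finset.mem_insert_of_mem hi))

lemma sym_of_deg {d : ℕ} {T : EndC n m} (hT : HasDeg d T) : HasSym d T 0 :=
  ⟨isHomogeneous_zero _ _ _, T, hT, by rw [map_zero, zero_add]⟩

lemma sym_pd (i : Idx n m) {d : ℕ} {T : EndC n m} {σ : MvPolynomial (Idx n m) (Cinf n m)}
    (hT : HasSym d T σ) : HasSym (d + 1) (pd i * T) (X i * σ) := by
  obtain ⟨h1, L, hL, rfl⟩ := hT
  refine ⟨?_, (∑ α ∈ σ.support, Op n m (monomial α (pd i (coeff α σ)))) + pd i * L, ?_, ?_⟩
  · rw [add_comm]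
    exact (isHomogeneous_X _ i).mul h1
  · refine deg_add (deg_sum _ fun α hα => deg_monomial ?_ _) (deg_pd i hL)
    rw [support_homog h1 hα]
    exact Nat.lt_succ_self d
  · have h2 : X i * σ = ∑ α ∈ σ.support, monomial (α + Finsupp.single i 1) (coeff α σ) := by
      conv_lhs => rw [← support_sum_monomial_coeff σ, Finset.mul_sum]
      refine Finset.sum_congr rfl fun α _ => ?_
      rw [X, monomial_mul, one_mul, add_comm]
    rw [mul_add, ← add_assoc]
    congr 1
    rw [h2, map_sum, Op_sum σ, Finset.mul_sum, ← Finset.sum_add_distrib]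
    refine Finset.sum_congr rfl fun α _ => ?_
    rw [pd_Op_monomial]

lemma sym_dd {e : ℕ} {S : EndC n m} {τ : MvPolynomial (Idx n m) (Cinf n m)}
    (hS : HasSym e S τ) (α : Idx n m →₀ ℕ) :
    HasSym (α.degree + e) (dd α * S) (monomial α 1 * τ) := by
  induction α using dd_ind with
  | h0 =>
    rw [dd_zero, one_mul, map_zero, zero_add]
    have : (monomial (0 : Idx n m →₀ ℕ) (1 : Cinf n m)) = 1 := rfl
    rw [this, one_mul]
    exact hS
  | h1 α i ih =>
    have h := sym_pd i ih
    rw [dd_add_single, mul_assoc, map_add, Finsupp.degree_single, add_right_comm]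
    have e2 : (monomial (α + Finsupp.single i 1) (1 : Cinf n m)) = X i * monomial α 1 := by
      rw [X, monomial_mul, one_mul, add_comm]
    rw [e2, mul_assoc]
    exact h

lemma sym_monomial_mul {e : ℕ} {S : EndC n m} {τ : MvPolynomial (Idx n m) (Cinf n m)}
    (hS : HasSym e S τ) (α : Idx n m →₀ ℕ) (a : Cinf n m) :
    HasSym (α.degree + e) (Op n m (monomial α a) * S) (monomial α a * τ) := by
  have h := sym_smul a (sym_dd hS α)
  rw [Op_monomial, smul_mul_op]
  have e1 : C a * (monomial α 1 * τ) = monomial α a * τ := by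
    rw [← mul_assoc, C_mul_monomial, mul_one]
  rwa [e1] at h

lemma deg_mul {d e : ℕ} {T S : EndC n m} {τ : MvPolynomial (Idx n m) (Cinf n m)}
    (hT : HasDeg d T) (hS : HasSym e S τ) : HasDeg (d + e) (T * S) := by
  obtain ⟨P, hP, rfl⟩ := hT
  rw [Op_sum, Finset.sum_mul]
  refine deg_sum _ fun α hα => ?_
  refine deg_mono ?_ (sym_deg (sym_monomial_mul hS α _))
  have := hP α hα
  omega

lemma sym_Op_mul {d e : ℕ} {σ : MvPolynomial (Idx n m) (Cinf n m)} (hσ : σ.IsHomogeneous d)
    {S : EndC n m} {τ : MvPolynomial (Idx n m) (Cinf n m)} (hS : HasSym e S τ) :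
    HasSym (d + e) (Op n m σ * S) (σ * τ) := by
  have h1 : σ * τ = ∑ α ∈ σ.support, monomial α (coeff α σ) * τ := by
    conv_lhs => rw [← support_sum_monomial_coeff σ, Finset.sum_mul]
  rw [Op_sum, Finset.sum_mul, h1]
  refine sym_sum _ fun α hα => ?_
  have h2 := sym_monomial_mul hS α (coeff α σ)
  rwa [support_homog hσ hα] at h2

lemma sym_mul {d e : ℕ} {T S : EndC n m} {σ τ : MvPolynomial (Idx n m) (Cinf n m)}
    (hT : HasSym d T σ) (hS : HasSym e S τ) : HasSym (d + e) (T * S) (σ * τ) := by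
  obtain ⟨h1, L, hL, rfl⟩ := hT
  have h2 := sym_add (sym_Op_mul h1 hS) (sym_of_deg (deg_mul hL hS))
  rwa [add_zero, ← add_mul] at h2

lemma sym_one : HasSym 0 (1 : EndC n m) 1 := by
  have h : Op n m (1 : MvPolynomial (Idx n m) (Cinf n m)) = 1 := by
    have h1 : (1 : MvPolynomial (Idx n m) (Cinf n m)) = monomial 0 1 := rfl
    rw [h1, Op_monomial, dd_zero, one_smul]
  exact ⟨isHomogeneous_one _ _, 0, deg_zero 0, by rw [h, add_zero]⟩

lemma sym_mulOp (a : Cinf n m) : HasSym 0 (mulOp a : EndC n m) (C a) := by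
  have h := sym_smul a (sym_one (n := n) (m := m))
  rw [mul_one, smul_eq_mulOp, mul_one] at h
  exact h

lemma sym_pd' (i : Idx n m) : HasSym 1 (pd i : EndC n m) (X i) := by
  have h := sym_pd i (sym_one (n := n) (m := m))
  rwa [mul_one, mul_one] at h

/-- every differential operator can be written in normal order -/
lemma diffOp_deg {T : EndC n m} (hT : T ∈ DiffOp n m) : ∃ d, HasDeg d T := by
  have key : ∀ S : EndC n m, (∃ d, HasDeg d S) → ∃ d, HasDeg d (T * S) := by
    unfold DiffOp at hT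
    induction hT using Algebra.adjoin_induction with
    | mem x hx =>
      rintro S ⟨d, hS⟩
      rcases hx with ⟨a, rfl⟩ | ⟨i, rfl⟩
      · exact ⟨d, by rw [← smul_eq_mulOp]; exact deg_smul a hS⟩
      · exact ⟨d + 1, deg_pd i hS⟩
    | algebraMap r =>
      rintro S ⟨d, hS⟩
      refine ⟨d, ?_⟩
      have h := deg_smul (algebraMap ℂ (Cinf n m) r) hS
      convert h using 1
      refine LinearMap.ext fun f => ?_
      show (algebraMap ℂ (EndC n m) r) (S f) = algebraMap ℂ (Cinf n m) r * S f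
      rw [Module.algebraMap_end_apply, Algebra.smul_def]
    | add x y _ _ hx hy =>
      intro S hS
      obtain ⟨d, h1⟩ := hx S hS
      obtain ⟨e, h2⟩ := hy S hS
      refine ⟨max d e, ?_⟩
      rw [add_mul]
      exact deg_add (deg_mono (le_max_left _ _) h1) (deg_mono (le_max_right _ _) h2)
    | mul x y _ _ hx hy =>
      intro S hS
      rw [mul_assoc]
      exact hx _ (hy S hS)
  have h := key 1 ⟨1, sym_deg sym_one⟩
  rwa [mul_one] at h

end Pool.Agent.K7.H32.ME
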