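import Pool.Agent.K7.H32.ME.Apo
import Pool.Agent.K7.H32.ME.Ctr
import Pool.Agent.Y127.FftO

set_option autoImplicit false
set_option linter.unusedSectionVars false

/-!
# Orthogonal invariants of vectors (polynomial form)
-/

namespace Pool.Agent.K7.H32.ME

open MvPolynomial Matrix

section vec
variable {n : ℕ} {P : Type} [Fintype P] [DecidableEq P]

abbrev Bg (n : ℕ) (P : Type) := MvPolynomial (P × Fin n) ℂ

/-- the action -/
noncomputable def pb (k : Matrix (Fin n) (Fin n) ℂ) : Bg n P →ₐ[ℂ] Bg n P :=
  aeval (fun pi => ∑ a, k a pi.2 • X (pi.1, a))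

lemma pb_X (k : Matrix (Fin n) (Fin n) ℂ) (p : P) (i : Fin n) :
    pb k (X (p, i) : Bg n P) = ∑ a, k a i • X (p, a) := by
  rw [pb, aeval_X]

/-- the derivation of a matrix -/
noncomputable def LJ (J : Matrix (Fin n) (Fin n) ℂ) (f : Bg n P) : Bg n P :=
  ∑ p, ∑ i, ∑ a, J a i • (X (p, a) * pderiv (p, i) f)

lemma LJ_C (J : Matrix (Fin n) (Fin n) ℂ) (c : ℂ) : LJ J (C c : Bg n P) = 0 := by
  simp only [LJ, pderiv_C, mul_zero, smul_zero, Finset.sum_const_zero]

lemma LJ_add (J : Matrix (Fin n) (Fin n) ℂ) (f g : Bg n P) : LJ J (f + g) = LJ J f + LJ J g := by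
  simp only [LJ, map_add, mul_add, smul_add, Finset.sum_add_distrib]

lemma LJ_mul (J : Matrix (Fin n) (Fin n) ℂ) (f g : Bg n P) :
    LJ J (f * g) = LJ J f * g + f * LJ J g := by
  simp only [LJ, Finset.sum_mul, Finset.mul_sum, ← Finset.sum_add_distrib]
  refine Finset.sum_congr rfl fun p _ => Finset.sum_congr rfl fun i _ =>
    Finset.sum_congr rfl fun a _ => ?_
  rw [pderiv_mul, smul_mul_assoc, mul_smul_comm, ← smul_add]
  congr 1
  ring

lemma LJ_X (J : Matrix (Fin n) (Fin n) ℂ) (p : P) (i : Fin n) :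
    LJ J (X (p, i) : Bg n P) = ∑ a, J a i • X (p, a) := by
  unfold LJ
  rw [Finset.sum_eq_single p, Finset.sum_eq_single i]
  · simp
  · intro b _ hb
    refine Finset.sum_eq_zero fun a _ => ?_
    rw [pderiv_X_of_ne (by simpa using Ne.symm hb), mul_zero, smul_zero]
  · simp
  · intro b _ hb
    refine Finset.sum_eq_zero fun j _ => Finset.sum_eq_zero fun a _ => ?_
    rw [pderiv_X_of_ne (by intro h; exact hb (Prod.ext_iff.1 h).1.symm), mul_zero, smul_zero]
  · simp

lemma LJ_prod (J : Matrix (Fin n) (Fin n) ℂ) {S : Type} [DecidableEq S] (s : Finset S)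
    (f : S → Bg n P) : LJ J (∏ j ∈ s, f j) = ∑ j ∈ s, LJ J (f j) * ∏ i ∈ s.erase j, f i := by
  induction s using Finset.induction_on with
  | empty =>
    rw [Finset.prod_empty, Finset.sum_empty, ← C_1, LJ_C]
  | insert a s ha ih =>
    rw [Finset.prod_insert ha, LJ_mul, ih, Finset.sum_insert ha, Finset.erase_insert ha,
      Finset.mul_sum]
    congr 1
    refine Finset.sum_congr rfl fun j hj => ?_
    have hne : a ≠ j := fun h => ha (h ▸ hj)
    rw [Finset.erase_insert_of_ne hne, Finset.prod_insert (by simp [ha])]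
    ring

/-- derivative along a curve -/
lemma hasDeriv {c : ℝ → (P × Fin n → ℂ)} {J : Matrix (Fin n) (Fin n) ℂ}
    (hc : ∀ p i, HasDerivAt (fun t => c t (p, i)) (∑ a, J a i * c 0 (p, a)) 0) (g : Bg n P) :
    HasDerivAt (fun t => eval (c t) g) (eval (c 0) (LJ J g)) 0 := by
  induction g using MvPolynomial.induction_on with
  | C a =>
    simp only [eval_C, LJ_C, map_zero]
    exact hasDerivAt_const _ _
  | add f g hf hg =>
    simp only [map_add, LJ_add]
    exact hf.add hg
  | mul_X f v hf =>
    obtain ⟨p, i⟩ := v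
    simp only [map_mul, LJ_mul, LJ_X, map_add, eval_X, map_sum, smul_eval]
    have h := hf.mul (hc p i)
    exact h

/-- rotations (Rodrigues' formula) -/
noncomputable def rot (J : Matrix (Fin n) (Fin n) ℝ) (t : ℝ) : Matrix (Fin n) (Fin n) ℝ :=
  1 + Real.sin t • J + (1 - Real.cos t) • (J * J)

lemma rot_aux (J : Matrix (Fin n) (Fin n) ℝ) (s c : ℝ) : (1 - s • J + c • (J * J)) *
      (1 + s • J + c • (J * J)) =
      1 + (2 * c - s ^ 2) • (J * J) +
        (c ^ 2) • (J * J * (J * J)) +
        (s * c) • (J * J * J - J * (J * J)) := by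
  simp only [add_mul, sub_mul, mul_add, one_mul, mul_one, Matrix.smul_mul, Matrix.mul_smul,
    smul_smul, smul_sub, pow_two, two_mul]
  module

lemma rot_orth {J : Matrix (Fin n) (Fin n) ℝ} (h1 : Jᵀ = -J) (h2 : J * J * J = -J) (t : ℝ) :
    (rot J t)ᵀ * rot J t = 1 := by
  have h3 : J * J * (J * J) = - (J * J) := by
    rw [← Matrix.mul_assoc, h2, Matrix.neg_mul]
  have h4 : J * (J * J) = -J := by rw [← Matrix.mul_assoc, h2]
  have e : (rot J t)ᵀ = 1 - Real.sin t • J + (1 - Real.cos t) • (J * J) := by
    rw [rot, transpose_add, transpose_add, transpose_one, transpose_smul, transpose_smul,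
      transpose_mul, h1, Matrix.neg_mul, Matrix.mul_neg, neg_neg, smul_neg]
    abel
  rw [e, rot, rot_aux]
  rw [h3, h2, h4, sub_self, smul_zero, add_zero, smul_neg, add_assoc, ← sub_eq_add_neg,
    ← sub_smul]
  have e4 : 2 * (1 - Real.cos t) - Real.sin t ^ 2 - (1 - Real.cos t) ^ 2 = 0 := by
    have := Real.sin_sq_add_cos_sq t
    nlinarith
  rw [e4, zero_smul, add_zero]

lemma LJ_zero {J : Matrix (Fin n) (Fin n) ℝ} (h1 : Jᵀ = -J) (h2 : J * J * J = -J) {g : Bg n P}
    (hg : ∀ k ∈ Orth n, pb k g = g) : LJ (J.map (fun x : ℝ => (x : ℂ))) g = 0 := by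
  apply MvPolynomial.funext
  intro z
  rw [map_zero]
  set c : ℝ → (P × Fin n → ℂ) := fun t pi =>
    ∑ a, ((rot J t a pi.2 : ℝ) : ℂ) * z (pi.1, a) with hc
  have hc0 : c 0 = z := by
    funext pi
    have : rot J 0 = 1 := by simp [rot]
    simp only [hc, this, one_apply]
    rw [Finset.sum_eq_single pi.2]
    · simp
    · intro b _ hb
      rw [if_neg hb]
      simp
    · simp
  have hev : ∀ t, eval (c t) g = eval z g := by
    intro t
    have h3 := hg ((rot J t).map (fun x : ℝ => (x : ℂ))) ⟨rot J t, rot_orth h1 h2 t, rfl⟩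
    have h4 : eval z (pb ((rot J t).map (fun x : ℝ => (x : ℂ))) g) = eval (c t) g := by
      rw [pb, aeval_def, eval₂_eq_eval_map]
      have h5 : ∀ (w : P × Fin n → Bg n P) (f : Bg n P),
          eval z (aeval w f) = eval (fun v => eval z (w v)) f := by
        intro w f
        induction f using MvPolynomial.induction_on with
        | C a => simp
        | add f g hf hg => rw [map_add, map_add, map_add, hf, hg]
        | mul_X f v hf => rw [map_mul, map_mul, map_mul, hf, aeval_X, eval_X]
      rw [← eval₂_eq_eval_map, ← aeval_def, h5]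
      congr 1
      congr 1
      funext pi
      simp only [map_sum, smul_eval, eval_X, hc, Matrix.map_apply]
    rw [← h4, h3]
  have h3 : HasDerivAt (fun t => eval (c t) g)
      (eval (c 0) (LJ (J.map (fun x : ℝ => (x : ℂ))) g)) 0 := by
    apply hasDeriv
    intro p i
    rw [hc0]
    apply HasDerivAt.fun_sum
    intro a _
    refine HasDerivAt.mul_const ?_ _
    rw [Matrix.map_apply]
    apply HasDerivAt.ofReal_comp
    have h4 : (fun y => rot J y a i) = fun y =>
        (1 : Matrix (Fin n) (Fin n) ℝ) a i + Real.sin y * J a i + (1 - Real.cos y) * (J * J) a i := by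
      funext y
      simp [rot]
    rw [h4]
    have h5 := ((Real.hasDerivAt_sin 0).mul_const (J a i)).const_add
      ((1 : Matrix (Fin n) (Fin n) ℝ) a i)
    have h6 := ((Real.hasDerivAt_cos 0).const_sub 1).mul_const ((J * J) a i)
    have h7 := h5.fun_add h6
    have h8 : Real.cos 0 * J a i + - -Real.sin 0 * (J * J) a i = J a i := by simp
    rw [h8] at h7
    exact h7
  have h8 : (fun t => eval (c t) g) = fun _ => eval z g := funext hev
  rw [h8] at h3
  have h9 := h3.unique (hasDerivAt_const (0 : ℝ) (eval z g))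
  rw [hc0] at h9
  exact h9

/-- the elementary skew-symmetric matrix -/
noncomputable def Juv (u v : Fin n) : Matrix (Fin n) (Fin n) ℝ := single u v 1 - single v u 1

lemma Juv_t (u v : Fin n) : (Juv u v)ᵀ = -Juv u v := by
  rw [Juv, transpose_sub, transpose_single, transpose_single, neg_sub]

lemma Juv_cube {u v : Fin n} (h : u ≠ v) : Juv u v * Juv u v * Juv u v = -Juv u v := by
  unfold Juv
  simp only [sub_mul, mul_sub, single_mul_single_same, single_mul_single_of_ne _ _ _ _ h,
    single_mul_single_of_ne _ _ _ _ h.symm, mul_one, zero_sub, sub_zero, neg_mul]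
  abel

lemma LJ_Juv_X (u v : Fin n) (p : P) (i : Fin n) :
    LJ ((Juv u v).map (fun x : ℝ => (x : ℂ))) (X (p, i) : Bg n P) =
      (if v = i then X (p, u) else 0) - (if u = i then X (p, v) else 0) := by
  rw [LJ_X]
  have h : ∀ a, (((Juv u v).map (fun x : ℝ => (x : ℂ))) a i • X (p, a) : Bg n P) =
      (if a = u then (if v = i then X (p, u) else 0) else 0) -
        (if a = v then (if u = i then X (p, v) else 0) else 0) := by
    intro a
    rw [Matrix.map_apply, Juv, Matrix.sub_apply, single_apply, single_apply]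
    by_cases h1 : u = a
    · subst h1
      by_cases h2 : v = i
      · subst h2
        by_cases h3 : v = u
        · subst h3; simp
        · simp [h3, Ne.symm h3]
      · by_cases h3 : v = u
        · subst h3; simp [h2]
        · simp [h2, h3, Ne.symm h3]
    · by_cases h3 : v = a
      · subst h3
        by_cases h4 : u = i
        · subst h4; simp [h1, Ne.symm h1]
        · simp [h1, h4, Ne.symm h1]
      · simp [h1, h3, Ne.symm h1, Ne.symm h3]
  rw [Finset.sum_congr rfl fun a _ => h a, Finset.sum_sub_distrib]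
  simp

/-- the pairing is invariant -/
lemma La_LJ (J : Matrix (Fin n) (Fin n) ℂ) (g f : Bg n P) :
    La g (LJ J f) = La (LJ Jᵀ g) f := by
  unfold LJ
  have hsum : ∀ {ι : Type} (s : Finset ι) (G : ι → Bg n P) (f : Bg n P),
      La (∑ i ∈ s, G i) f = ∑ i ∈ s, La (G i) f := by
    intro ι s G f
    induction f using MvPolynomial.induction_on' with
    | add p q hp hq => simp only [map_add, hp, hq, Finset.sum_add_distrib]
    | monomial α c =>
      simp only [La_monomial, coeff_sum, Finset.mul_sum]
  have hsm : ∀ (c : ℂ) (G f : Bg n P), La (c • G) f = c * La G f := by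
    intro c G f
    induction f using MvPolynomial.induction_on' with
    | add p q hp hq => rw [map_add, map_add, hp, hq, mul_add]
    | monomial α c =>
      simp only [La_monomial, coeff_smul, smul_eq_mul]
      ring
  simp only [map_sum, map_smul, hsum, hsm, La_X_mul, La_pderiv, smul_eq_mul]
  refine Finset.sum_congr rfl fun p _ => ?_
  rw [Finset.sum_comm]
  rfl

end vec

end Pool.Agent.K7.H32.ME
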