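import Pool.Agent.K7.H32.ME.VecF

set_option autoImplicit false
set_option linter.unusedSectionVars false

/-!
# The first fundamental theorem for a symmetric matrix and vectors
-/

namespace Pool.Agent.K7.H32.ME

open MvPolynomial Matrix Pool.Agent.TH125.Nod Pool.Agent.Y127

section vec
variable {n : ℕ} {P : Type} [Fintype P] [DecidableEq P]

/-- the coefficient tensor -/
noncomputable def Tw (g : Bg n P) {d : ℕ} (w : Fin d → P) (x : Fin d → Fin n) : ℂ :=
  La g (∏ s, X (w s, x s))

lemma prod_update {d : ℕ} (w : Fin d → P) (x : Fin d → Fin n) (j : Fin d) (u : Fin n) :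
    (∏ s, X (w s, Function.update x j u s) : Bg n P) =
      X (w j, u) * ∏ s ∈ Finset.univ.erase j, X (w s, x s) := by
  rw [← Finset.mul_prod_erase _ _ (Finset.mem_univ j), Function.update_self]
  congr 1
  refine Finset.prod_congr rfl fun s hs => ?_
  rw [Function.update_of_ne (Finset.ne_of_mem_erase hs)]

lemma Tw_inv {g : Bg n P} (hg : ∀ k ∈ Orth n, pb k g = g) {d : ℕ} (w : Fin d → P) :
    Inv (K := ℂ) (fun _ : Fin n => ()) (1 : Matrix (Fin n) (Fin n) ℂ) (fun _ => 1) (Tw g w) := by
  intro u v _ x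
  by_cases huv : u = v
  · subst huv
    refine Finset.sum_eq_zero fun j _ => ?_
    rw [one_mul, sub_self]
  have h1 : La g (LJ ((Juv u v).map (fun x : ℝ => (x : ℂ))) (∏ s, X (w s, x s))) = 0 := by
    rw [La_LJ]
    have e : ((Juv u v).map (fun x : ℝ => (x : ℂ)))ᵀ = (Juv v u).map (fun x : ℝ => (x : ℂ)) := by
      rw [← transpose_map, Juv, transpose_sub, transpose_single, transpose_single]
      rfl
    rw [e, LJ_zero (Juv_t v u) (Juv_cube (Ne.symm huv)) hg]
    have hz : ∀ f : Bg n P, La (0 : Bg n P) f = 0 := by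
      intro f
      induction f using MvPolynomial.induction_on' with
      | add p q hp hq => rw [map_add, hp, hq, add_zero]
      | monomial α c => rw [La_monomial, coeff_zero, mul_zero, mul_zero]
    exact hz _
  rw [LJ_prod, map_sum] at h1
  rw [← h1]
  refine Finset.sum_congr rfl fun j _ => ?_
  rw [LJ_Juv_X, sub_mul, map_sub, Tw, Tw, prod_update, prod_update, one_apply, one_apply]
  congr 1
  · split_ifs
    · rw [one_smul]
    · rw [zero_mul, map_zero, zero_smul]
  · split_ifs
    · rw [one_mul, one_smul]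
    · rw [zero_mul, map_zero, mul_zero, zero_smul]

lemma pb_diag_X (ε : Fin n → ℂ) (p : P) (i : Fin n) :
    pb (diagonal ε) (X (p, i) : Bg n P) = ε i • X (p, i) := by
  rw [pb_X, Finset.sum_eq_single i]
  · rw [diagonal_apply_eq]
  · intro b _ hb
    rw [diagonal_apply_ne _ hb, zero_smul]
  · simp

lemma pb_diag_monomial (ε : Fin n → ℂ) (α : P × Fin n →₀ ℕ) (c : ℂ) :
    pb (diagonal ε) (monomial α c : Bg n P) = (∏ v : P × Fin n, ε v.2 ^ α v) • monomial α c := by
  rw [monomial_eq, map_mul, Finsupp.prod_fintype _ _ (fun _ => pow_zero _), map_prod]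
  simp only [map_pow, ← MvPolynomial.algebraMap_eq, AlgHom.commutes]
  have h : ∀ v : P × Fin n, (pb (diagonal ε) (X v) : Bg n P) ^ α v =
      (ε v.2 ^ α v) • (X v ^ α v : Bg n P) := by
    rintro ⟨p, i⟩
    rw [pb_diag_X, smul_pow]
  rw [Finset.prod_congr rfl fun v _ => h v, Finset.prod_smul, mul_smul_comm]

lemma coeff_pb_diag (ε : Fin n → ℂ) (α : P × Fin n →₀ ℕ) (g : Bg n P) :
    coeff α (pb (diagonal ε) g) = (∏ v : P × Fin n, ε v.2 ^ α v) * coeff α g := by
  induction g using MvPolynomial.induction_on' with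
  | add p q hp hq => rw [map_add, coeff_add, coeff_add, hp, hq, mul_add]
  | monomial β c =>
    rw [pb_diag_monomial, coeff_smul, smul_eq_mul, coeff_monomial]
    by_cases h : β = α
    · rw [h]
    · rw [if_neg h, mul_zero, mul_zero]

lemma La_diag (ε : Fin n → ℂ) (g f : Bg n P) :
    La g (pb (diagonal ε) f) = La (pb (diagonal ε) g) f := by
  induction f using MvPolynomial.induction_on' with
  | add p q hp hq => rw [map_add, map_add, map_add, hp, hq]
  | monomial α c =>
    rw [pb_diag_monomial, map_smul, La_monomial, La_monomial, coeff_pb_diag, smul_eq_mul]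
    ring

lemma Tw_par {g : Bg n P} (hg : ∀ k ∈ Orth n, pb k g = g) {d : ℕ} (w : Fin d → P) (o : Fin n) :
    Par o (Tw g w) := by
  intro x hx
  set ε : Fin n → ℂ := fun i => if i = o then -1 else 1 with hε
  have h1 : pb (diagonal ε) g = g := by
    apply hg
    refine ⟨diagonal (fun i => if i = o then -1 else 1), ?_, ?_⟩
    · rw [diagonal_transpose, diagonal_mul_diagonal, ← diagonal_one]
      congr 1
      funext i
      split_ifs <;> norm_num
    · rw [diagonal_map (by norm_num)]
      congr 1
      funext i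
      simp only [hε]
      split_ifs <;> norm_num
  have h2 : Tw g w x = (-1) * Tw g w x := by
    conv_lhs => rw [Tw, ← h1, ← La_diag]
    rw [map_prod]
    simp only [pb_diag_X]
    rw [Finset.prod_smul, map_smul, smul_eq_mul, Tw]
    congr 1
    simp only [hε]
    rw [Finset.prod_ite, Finset.prod_const, Finset.prod_const_one, mul_one]
    have h3 : (Finset.univ.filter fun s => x s = o).card = occ x o := rfl
    rw [h3, hx.neg_one_pow]
  linear_combination (1 / 2 : ℂ) * h2

/-- the inner products -/
noncomputable def dot (p q : P) : Bg n P := ∑ i, X (p, i) * X (q, i)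

/-- contraction of a product of forms -/
lemma sum_gen {d m : ℕ} (w : Fin d → P) (e : Fin m × Fin 2 ≃ Fin d) (c : ℂ) :
    ∑ x : Fin d → Fin n, (gen (fun _ : Fin n => ()) (1 : Matrix (Fin n) (Fin n) ℂ)
      (fun _ : Fin d => ()) e c x) • (∏ s, X (w s, x s) : Bg n P) =
      c • ∏ l, dot (w (e (l, 0))) (w (e (l, 1))) := by
  let E : (Fin d → Fin n) ≃ (Fin m → Fin n × Fin n) :=
    (Equiv.arrowCongr e.symm (Equiv.refl _)).trans
      ((Equiv.curry _ _ _).trans (Equiv.piCongrRight fun _ => finTwoArrowEquiv _))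
  have hE : ∀ x l, E x l = (x (e (l, 0)), x (e (l, 1))) := fun x l => rfl
  have h1 : ∀ l : Fin m, (dot (w (e (l, 0))) (w (e (l, 1))) : Bg n P) =
      ∑ y : Fin n × Fin n, (1 : Matrix (Fin n) (Fin n) ℂ) y.1 y.2 •
        (X (w (e (l, 0)), y.1) * X (w (e (l, 1)), y.2)) := by
    intro l
    rw [Fintype.sum_prod_type, dot]
    refine Finset.sum_congr rfl fun i _ => ?_
    rw [Finset.sum_eq_single i]
    · simp
    · intro b _ hb
      simp only [one_apply_ne (Ne.symm hb), zero_smul]
    · simp
  rw [Finset.prod_congr rfl fun l _ => h1 l, Finset.prod_univ_sum, Fintype.piFinset_univ,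
    Finset.smul_sum]
  refine Fintype.sum_equiv E _ _ fun x => ?_
  rw [gen, if_pos (fun _ => rfl), ← Equiv.prod_comp e, Fintype.prod_prod_type]
  simp only [Fin.prod_univ_two, hE, Finset.prod_smul]
  rw [smul_smul, smul_eq_mul, mul_comm]
  rfl

/-- the inclusion -/
noncomputable def inc : Bg n P →ₐ[ℂ] Rg n P := aeval (fun pi => zv pi.1 pi.2)

lemma inc_dot (p q : P) : inc (dot p q : Bg n P) ∈ Alg n P := by
  have h : inc (dot p q : Bg n P) = bl 0 p q := by
    rw [dot, map_sum, bl, pow_zero, one_mulVec]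
    refine Finset.sum_congr rfl fun i _ => ?_
    rw [map_mul, inc, aeval_X, aeval_X]
  rw [h]
  exact bl_mem 0 p q

theorem vec_hom (hn : 0 < n) {d : ℕ} {g : Bg n P} (hd : g.IsHomogeneous d)
    (hg : ∀ k ∈ Orth n, pb k g = g) : inc g ∈ Alg n P := by
  have h1 := restitution d g hd
  have h2 : ∀ w : Fin d → P, inc (∑ x : Fin d → Fin n, Tw g w x •
      (∏ s, X (w s, x s) : Bg n P)) ∈ Alg n P := by
    intro w
    have h3 : Tw g w ∈ Gen (K := ℂ) (fun _ : Fin n => ()) (1 : Matrix (Fin n) (Fin n) ℂ)
        (fun _ : Fin d => ()) :=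
      fftO (K := ℂ) (Q := (1 : Matrix (Fin n) (Fin n) ℂ)) (R := 1)
        (fun a b => by rw [one_apply, one_apply]; simp only [eq_comm])
        (mul_one _) (o := ⟨0, hn⟩) (fun q hq => one_apply_ne (Ne.symm hq)) d (Fin d) (Tw g w)
        (Fintype.card_fin d) (Tw_inv hg w) (Tw_par hg w _)
    unfold Gen at h3
    generalize Tw g w = T₀ at h3 ⊢
    induction h3 using Submodule.span_induction with
    | mem T hT =>
      obtain ⟨m, e, c, rfl⟩ := hT
      rw [sum_gen, map_smul, map_prod]
      exact (Alg n P).smul_mem ((Alg n P).prod_mem fun l _ => inc_dot _ _) _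
    | zero => simp
    | add T T' _ _ h h' =>
      have := (Alg n P).add_mem h h'
      convert this using 1
      simp only [Pi.add_apply, add_smul, Finset.sum_add_distrib, map_add]
    | smul a T _ h =>
      have := (Alg n P).smul_mem h a
      convert this using 1
      simp only [Pi.smul_apply, smul_eq_mul, mul_smul, ← Finset.smul_sum, map_smul]
  have h4 : inc (((d.factorial : ℕ) : ℂ) • g) ∈ Alg n P := by
    rw [← h1, ← Fintype.sum_equiv (Equiv.arrowProdEquivProdArrow (Fin d) (fun _ => P)
      (fun _ => Fin n)).symm (fun wx : (Fin d → P) × (Fin d → Fin n) => Tw g wx.1 wx.2 •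
        (∏ s, X (wx.1 s, wx.2 s) : Bg n P)) _ (fun _ => rfl), Fintype.sum_prod_type, map_sum]
    exact (Alg n P).sum_mem fun w _ => h2 w
  rw [map_smul] at h4
  have h5 := (Alg n P).smul_mem h4 (((d.factorial : ℕ) : ℂ)⁻¹)
  rwa [smul_smul, inv_mul_cancel₀ (by exact_mod_cast d.factorial_ne_zero), one_smul] at h5

lemma pb_homog (k : Matrix (Fin n) (Fin n) ℂ) {d : ℕ} {g : Bg n P} (h : g.IsHomogeneous d) :
    (pb k g).IsHomogeneous d := by
  have h1 := h.aeval (fun pi : P × Fin n => ∑ a, k a pi.2 • (X (pi.1, a) : Bg n P)) (n := 1)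
    (fun pi => by
      refine IsHomogeneous.sum _ _ _ fun a _ => ?_
      rw [← C_mul']
      exact isHomogeneous_C_mul_X _ _)
  rwa [one_mul] at h1

theorem vec_all (hn : 0 < n) {g : Bg n P} (hg : ∀ k ∈ Orth n, pb k g = g) : inc g ∈ Alg n P := by
  rw [← sum_homogeneousComponent g, map_sum]
  refine (Alg n P).sum_mem fun d _ => ?_
  refine vec_hom hn (homogeneousComponent_isHomogeneous d g) fun k hk => ?_
  have h1 : pb k g = ∑ i ∈ Finset.range (g.totalDegree + 1), pb k (homogeneousComponent i g) := by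
    conv_lhs => rw [← sum_homogeneousComponent g, map_sum]
  have h2 : homogeneousComponent d (pb k g) = pb k (homogeneousComponent d g) := by
    rw [h1, map_sum]
    have h3 : ∀ i, homogeneousComponent d (pb k (homogeneousComponent i g)) =
        if d = i then pb k (homogeneousComponent i g) else 0 := fun i =>
      homogeneousComponent_of_mem (pb_homog k (homogeneousComponent_isHomogeneous i g))
    simp only [h3, Finset.sum_ite_eq]
    by_cases h4 : d ∈ Finset.range (g.totalDegree + 1)
    · rw [if_pos h4]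
    · rw [if_neg h4, homogeneousComponent_eq_zero _ _ (by simpa using h4), map_zero]
  rw [← h2, hg k hk]

/-- the projection which kills the matrix -/
noncomputable def kp : Rg n P →ₐ[ℂ] Bg n P := sb 0 (fun p i => X (p, i))

lemma kp_XM (i j : Fin n) : kp (XM n P i j) = 0 := by
  rw [kp, sb_XM (fun _ _ => rfl)]
  rfl

lemma kp_zv (p : P) (i : Fin n) : kp (zv p i : Rg n P) = X (p, i) := by
  rw [kp, sb_zv]

lemma inc_kp (f : Rg n P) : inc (kp f) = cmp 0 f := by
  induction f using ind with
  | hC c =>
    rw [cmp_C, if_pos rfl, ← MvPolynomial.algebraMap_eq, AlgHom.commutes, AlgHom.commutes]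
  | hadd f g hf hg => rw [map_add, map_add, cmp_add, hf, hg]
  | hX f i j hf =>
    rw [map_mul, kp_XM, cmp_zero_mul_XM, mul_zero, map_zero]
  | hz f p i hf =>
    rw [map_mul, map_mul, hf, kp_zv, cmp_mul_zv, inc, aeval_X]

lemma kp_ph (k : Matrix (Fin n) (Fin n) ℂ) (f : Rg n P) : kp (ph k f) = pb k (kp f) := by
  have h : (kp (n := n) (P := P)).comp (ph k) = (pb k).comp kp := by
    apply map_ext
    · intro i j
      simp only [AlgHom.comp_apply, ph_XM, map_sum, map_smul, kp_XM, smul_zero,
        Finset.sum_const_zero, map_zero]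
    · intro p i
      simp only [AlgHom.comp_apply, ph_zv, map_sum, map_smul, kp_zv, pb_X]
  exact congrArg (fun g => g f) h

end vec

/-- **The first fundamental theorem**: the polynomials in the entries of a symmetric matrix `X` and
of vectors `z_p` which are invariant under the real orthogonal matrices are polynomials in the
traces `tr (X ^ j)` and the blocks `z_p X ^ k z_qᵀ`. -/
theorem fft {n : ℕ} (hn : 0 < n) (P : Type) [Fintype P] [DecidableEq P] (f : Rg n P)
    (hf : ∀ k ∈ Orth n, ph k f = f) : f ∈ Alg n P := by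
  refine fft_all ?_ P f hf
  intro P _ _ f h0 hk
  have h1 : f = inc (kp f) := by rw [inc_kp, h0, if_pos rfl]
  rw [h1]
  apply vec_all hn
  intro k hk'
  rw [← kp_ph, hk k hk']

end Pool.Agent.K7.H32.ME
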